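import Mathlib

namespace Pool.Agent.P.MP_2c43e6_an

open MeasureTheory
open scoped ENNReal

/-- `Q` is a closed cube of `ℝ^n` with sides parallel to the axes and positive side length. -/
def IsCube {n : ℕ} (Q : Set (Fin n → ℝ)) : Prop :=
  ∃ (a : Fin n → ℝ) (l : ℝ), 0 < l ∧ Q = Set.Icc a (fun i => a i + l)

/-- The average `⟨f⟩_Q = |Q|⁻¹ ∫_Q f` of `f ≥ 0` with respect to Lebesgue measure. -/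
noncomputable def avg {n : ℕ} (f : (Fin n → ℝ) → ℝ≥0∞) (Q : Set (Fin n → ℝ)) : ℝ≥0∞ :=
  (∫⁻ x in Q, f x) / volume Q

/-- The Hardy-Littlewood maximal function `M f x = sup_{Q ∋ x} ⟨f⟩_Q` of `f ≥ 0`. -/
noncomputable def maxFun {n : ℕ} (f : (Fin n → ℝ) → ℝ≥0∞) (x : Fin n → ℝ) : ℝ≥0∞ :=
  ⨆ (Q : Set (Fin n → ℝ)) (_ : IsCube Q) (_ : x ∈ Q), avg f Q

/-- The operator norm of `M` on `L^p(w)`. -/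
noncomputable def maxNorm {n : ℕ} (p : ℝ) (w : (Fin n → ℝ) → ℝ≥0∞) : ℝ≥0∞ :=
  ⨆ (f : (Fin n → ℝ) → ℝ) (_ : Measurable f)
    (_ : (∫⁻ x, ‖f x‖ₑ ^ p * w x) ^ (1 / p) = 1),
    (∫⁻ x, maxFun (fun y => ‖f y‖ₑ) x ^ p * w x) ^ (1 / p)

/-- `A_q(v,Q) = ⟨v⟩_Q ⟨v^{-1/(q-1)}⟩_Q^{q-1}`. -/
noncomputable def Aq {n : ℕ} (q : ℝ) (v : (Fin n → ℝ) → ℝ≥0∞) (Q : Set (Fin n → ℝ)) : ℝ≥0∞ :=
  avg v Q * avg (fun x => v x ^ (-1 / (q - 1))) Q ^ (q - 1)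

/-- `A_∞(v,Q) = v(Q)⁻¹ ∫_Q M (v χ_Q)`. -/
noncomputable def Ainf {n : ℕ} (v : (Fin n → ℝ) → ℝ≥0∞) (Q : Set (Fin n → ℝ)) : ℝ≥0∞ :=
  (∫⁻ x in Q, maxFun (Q.indicator v) x) / ∫⁻ x in Q, v x

/-- `[v]_{A_q} = sup_Q A_q(v,Q)`. -/
noncomputable def AqConst {n : ℕ} (q : ℝ) (v : (Fin n → ℝ) → ℝ≥0∞) : ℝ≥0∞ :=
  ⨆ (Q : Set (Fin n → ℝ)) (_ : IsCube Q), Aq q v Q

/-- The one-supremum mixed constant `sup_Q A_q(v,Q)^α A_∞(v,Q)^β`. -/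
noncomputable def mixedConst {n : ℕ} (q α β : ℝ) (v : (Fin n → ℝ) → ℝ≥0∞) : ℝ≥0∞ :=
  ⨆ (Q : Set (Fin n → ℝ)) (_ : IsCube Q), Aq q v Q ^ α * Ainf v Q ^ β

end Pool.Agent.P.MP_2c43e6_an
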