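import Mathlib

/-! Nested countable partitions, maximal cells and records. -/

set_option autoImplicit false
set_option linter.unusedSectionVars false

open MeasureTheory Set
open scoped ENNReal

namespace Pool.Agent.Ent

theorem iSup_rpow {κ : Sort*} {p : ℝ} (hp : 0 < p) (a : κ → ℝ≥0∞) :
    (⨆ i, a i) ^ p = ⨆ i, a i ^ p := (ENNReal.orderIsoRpow p hp).map_iSup a

open Classical in
/-- Dyadic level of a positive finite number. -/
noncomputable def lev (a : ℝ≥0∞) : ℤ :=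
  if h : a ≠ 0 ∧ a ≠ ∞ then
    (ENNReal.exists_mem_Ioc_zpow h.1 h.2 ENNReal.one_lt_two ENNReal.ofNat_ne_top).choose else 0

theorem lev_spec {a : ℝ≥0∞} (h : a ≠ 0 ∧ a ≠ ∞) : 2 ^ lev a < a ∧ a ≤ 2 ^ (lev a + 1) := by
  rw [lev, dif_pos h]
  exact (ENNReal.exists_mem_Ioc_zpow h.1 h.2 ENNReal.one_lt_two ENNReal.ofNat_ne_top).choose_spec

theorem two_zpow_succ (i : ℤ) : (2 : ℝ≥0∞) ^ (i + 1) = 2 * 2 ^ i := by
  rw [ENNReal.zpow_add two_ne_zero ENNReal.ofNat_ne_top, zpow_one, mul_comm]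

theorem two_zpow_mono {i j : ℤ} (h : i ≤ j) : (2 : ℝ≥0∞) ^ i ≤ 2 ^ j :=
  ENNReal.zpow_le_of_le one_le_two h

theorem le_lev {a : ℝ≥0∞} (h : a ≠ 0 ∧ a ≠ ∞) {i : ℤ} (hi : 2 ^ i < a) : i ≤ lev a := by
  by_contra hc
  exact absurd (hi.trans_le ((lev_spec h).2.trans (two_zpow_mono (by omega)))) (lt_irrefl _)

/-- Index `k` is a record of the sequence `a` from `k0` on. -/
def Rec (a : ℕ → ℝ≥0∞) (k0 k : ℕ) : Prop :=
  k0 ≤ k ∧ ∀ l, k0 ≤ l → l < k → lev (a l) < lev (a k)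

theorem exists_rec {a : ℕ → ℝ≥0∞} (ha : ∀ k, a k ≠ 0 ∧ a k ≠ ∞) {k0 k : ℕ} (hk : k0 ≤ k) :
    ∃ k', Rec a k0 k' ∧ a k ≤ 2 * a k' := by
  classical
  have h : ∃ l, k0 ≤ l ∧ lev (a k) ≤ lev (a l) := ⟨k, hk, le_rfl⟩
  have h1 := Nat.find_spec h
  refine ⟨Nat.find h, ⟨h1.1, fun l hl hl' => ?_⟩, ?_⟩
  · exact (not_le.1 fun hc => Nat.find_min h hl' ⟨hl, hc⟩).trans_le h1.2
  · refine (lev_spec (ha k)).2.trans ?_
    rw [two_zpow_succ]
    exact mul_le_mul_right ((two_zpow_mono h1.2).trans (lev_spec (ha _)).1.le) _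

open Classical in
theorem tsum_rec_le {a : ℕ → ℝ≥0∞} (ha : ∀ k, a k ≠ 0 ∧ a k ≠ ∞) (k0 k1 : ℕ) :
    ∑' k, (if k1 ≤ k ∧ Rec a k0 k then a k else 0) ≤ 4 * ⨆ l, ⨆ (_ : k1 ≤ l), a l := by
  have key : ∀ (m : ℕ) (i : ℤ), (∀ k < m, k1 ≤ k → Rec a k0 k → lev (a k) < i) →
      ∑ k ∈ Finset.range m, (if k1 ≤ k ∧ Rec a k0 k then a k else 0) ≤ 2 * 2 ^ i := by
    intro m
    induction m with
    | zero => simp
    | succ m ih =>
      intro i hi
      rw [Finset.sum_range_succ]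
      split_ifs with h
      · refine (add_le_add (ih (lev (a m)) fun k hk _ hr => h.2.2 k hr.1 hk)
          (lev_spec (ha m)).2).trans ?_
        rw [← two_zpow_succ, ← two_mul]
        exact mul_le_mul_right (two_zpow_mono (hi m m.lt_succ_self h.1 h.2)) _
      · rw [add_zero]
        exact ih i fun k hk => hi k (by omega)
  set H := ⨆ l, ⨆ (_ : k1 ≤ l), a l with hH
  have hle : ∀ l, k1 ≤ l → a l ≤ H := fun l hl => le_iSup₂_of_le l hl le_rfl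
  by_cases ht : H = ∞
  · rw [ht, ENNReal.mul_top (by norm_num)]
    exact le_top
  have h0 : H ≠ 0 ∧ H ≠ ∞ := ⟨fun e => (ha k1).1 (le_zero_iff.1 (e ▸ hle k1 le_rfl)), ht⟩
  refine ENNReal.tsum_le_of_sum_range_le fun m => (key m (lev H + 1) fun k _ hk _ =>
    Int.lt_add_one_of_le (le_lev h0 ((lev_spec (ha k)).1.trans_le (hle k hk)))).trans ?_
  rw [two_zpow_succ, ← mul_assoc, show (2 : ℝ≥0∞) * 2 = 4 by norm_num]
  exact mul_le_mul_right (lev_spec h0).1.le _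

theorem tsum_geom {q : ℝ≥0∞} (h0 : q ≠ 0) (h1 : q ≠ ∞) (i0 : ℤ) :
    ∑' i : ℤ, (if i ≤ i0 then q ^ i else 0) = q ^ i0 * (1 - q⁻¹)⁻¹ := by
  have hinj : Function.Injective fun j : ℕ => i0 - j := fun a b h => by
    simp only at h
    omega
  rw [← hinj.tsum_eq, ← ENNReal.tsum_geometric, ← ENNReal.tsum_mul_left]
  · refine tsum_congr fun j => ?_
    rw [if_pos (by omega), sub_eq_add_neg, ENNReal.zpow_add h0 h1, ENNReal.zpow_neg,
      zpow_natCast, ENNReal.inv_pow]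
  · intro i hi
    have h2 : i ≤ i0 := by
      by_contra hc
      exact hi (if_neg hc)
    exact ⟨(i0 - i).toNat, by simp only; omega⟩

/-- A nested sequence of countable partitions into cells of positive finite measure. -/
structure Grid (Ω : Type*) [MeasurableSpace Ω] (μ : Measure Ω) (ι : Type*) where
  π : ℕ → Ω → ι
  meas : ∀ k m, MeasurableSet (π k ⁻¹' {m})
  nest : ∀ k x y, π (k + 1) x = π (k + 1) y → π k x = π k y
  pos : ∀ k x, μ (π k ⁻¹' {π k x}) ≠ 0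
  fin : ∀ k x, μ (π k ⁻¹' {π k x}) ≠ ∞

namespace Grid

variable {Ω ι : Type*} [MeasurableSpace Ω] {μ : Measure Ω} [Countable ι] (G : Grid Ω μ ι)

/-- The cell of level `k` through `x`. -/
def cell (k : ℕ) (x : Ω) : Set Ω := G.π k ⁻¹' {G.π k x}

/-- `U` is a union of cells of level `k`. -/
def Sat (k : ℕ) (U : Set Ω) : Prop := ∀ x y, G.π k x = G.π k y → x ∈ U → y ∈ U

/-- Average over a cell. -/
noncomputable def av (φ : Ω → ℝ≥0∞) (k : ℕ) (x : Ω) : ℝ≥0∞ :=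
  (∫⁻ y in G.cell k x, φ y ∂μ) / μ (G.cell k x)

/-- Maximal function over the levels from `k` on. -/
noncomputable def Hs (φ : Ω → ℝ≥0∞) (k : ℕ) (x : Ω) : ℝ≥0∞ := ⨆ l, ⨆ (_ : k ≤ l), G.av φ l x

variable {G}

theorem nest' {l k : ℕ} (h : l ≤ k) {x y : Ω} (e : G.π k x = G.π k y) : G.π l x = G.π l y := by
  induction k, h using Nat.le_induction with
  | base => exact e
  | succ k _ ih => exact ih (G.nest k x y e)

theorem cell_eq {l k : ℕ} (h : l ≤ k) {x y : Ω} (e : G.π k x = G.π k y) :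
    G.cell l x = G.cell l y := by rw [cell, cell, nest' h e]

theorem av_eq (φ : Ω → ℝ≥0∞) {l k : ℕ} (h : l ≤ k) {x y : Ω} (e : G.π k x = G.π k y) :
    G.av φ l x = G.av φ l y := by rw [av, av, cell_eq h e]

theorem av_mul (φ : Ω → ℝ≥0∞) (k : ℕ) (x : Ω) :
    G.av φ k x * μ (G.cell k x) = ∫⁻ y in G.cell k x, φ y ∂μ :=
  ENNReal.div_mul_cancel (G.pos k x) (G.fin k x)

theorem sat_cell {l k : ℕ} (h : l ≤ k) (x : Ω) : G.Sat k (G.cell l x) :=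
  fun _ _ e hy => (nest' h e).symm.trans hy

theorem Sat.eq_iUnion {k : ℕ} {U : Set Ω} (h : G.Sat k U) :
    U = ⋃ m ∈ G.π k '' U, G.π k ⁻¹' {m} := by
  ext y
  simp only [mem_iUnion, exists_prop]
  exact ⟨fun hy => ⟨_, ⟨y, hy, rfl⟩, rfl⟩, fun ⟨_, ⟨x, hx, e⟩, hy⟩ => h x y (e.trans hy.symm) hx⟩

theorem Sat.meas {k : ℕ} {U : Set Ω} (h : G.Sat k U) : MeasurableSet U := by
  rw [h.eq_iUnion]
  exact MeasurableSet.biUnion (to_countable _) fun m _ => G.meas k m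

theorem meas_av (φ : Ω → ℝ≥0∞) (k : ℕ) : Measurable (G.av φ k) := fun _ _ =>
  Sat.meas (k := k) fun x y e hx => by rwa [mem_preimage, ← av_eq φ le_rfl e]

theorem meas_Hs (φ : Ω → ℝ≥0∞) (k : ℕ) : Measurable (G.Hs φ k) :=
  Measurable.iSup fun l => Measurable.iSup fun _ => meas_av φ l

theorem Sat.int_le {k : ℕ} {U : Set Ω} (h : G.Sat k U) {φ ψ : Ω → ℝ≥0∞}
    (hle : ∀ x ∈ U, ∫⁻ y in G.cell k x, φ y ∂μ ≤ ∫⁻ y in G.cell k x, ψ y ∂μ) :
    ∫⁻ y in U, φ y ∂μ ≤ ∫⁻ y in U, ψ y ∂μ := by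
  have hd : (G.π k '' U).PairwiseDisjoint fun m => G.π k ⁻¹' {m} := fun a _ b _ hab =>
    Disjoint.preimage _ (disjoint_singleton.2 hab)
  rw [h.eq_iUnion, lintegral_biUnion (to_countable _) (fun m _ => G.meas k m) hd,
    lintegral_biUnion (to_countable _) (fun m _ => G.meas k m) hd]
  refine ENNReal.tsum_le_tsum fun m => ?_
  obtain ⟨_, x, hx, rfl⟩ := m
  exact hle x hx

theorem int_tsum {V : Set Ω} {U : ℕ → Set Ω} (hU : ∀ k, MeasurableSet (U k))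
    {g : ℕ → Ω → ℝ≥0∞} (hg : ∀ k, Measurable (g k)) :
    ∫⁻ y in V, ∑' k, (U k).indicator (g k) y ∂μ = ∑' k, ∫⁻ y in U k ∩ V, g k y ∂μ := by
  rw [lintegral_tsum fun k => ((hg k).indicator (hU k)).aemeasurable]
  refine tsum_congr fun k => ?_
  rw [lintegral_indicator (hU k), Measure.restrict_restrict (hU k)]

/-- Summation over maximal cells. -/
theorem maxcells {k0 : ℕ} {V : Set Ω} (hV : G.Sat k0 V) {P : ℕ → Set Ω} (hP : ∀ k, G.Sat k (P k))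
    {φ ψ : Ω → ℝ≥0∞} {φs : ℕ → Ω → ℝ≥0∞} (hm : ∀ k, Measurable (φs k))
    (h1 : ∀ k, ∀ x ∈ P k, ∫⁻ y in G.cell k x, φs k y ∂μ ≤ ∫⁻ y in G.cell k x, ψ y ∂μ)
    (h2 : ∀ x, (∀ k, k0 ≤ k → x ∉ P k) → φ x = 0)
    (h3 : ∀ x k, (∀ l, k0 ≤ l → l < k → x ∉ P l) → φ x ≤ φs k x) :
    ∫⁻ y in V, φ y ∂μ ≤ ∫⁻ y in V, ψ y ∂μ := by
  classical
  let U : ℕ → Set Ω := fun k => {x | k0 ≤ k ∧ x ∈ P k ∧ ∀ l, k0 ≤ l → l < k → x ∉ P l}
  have hU : ∀ k, G.Sat k (U k) := fun k x y e hx => ⟨hx.1, hP k x y e hx.2.1, fun l hl hl' hy =>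
    hx.2.2 l hl hl' (hP l y x (nest' hl'.le e.symm) hy)⟩
  have hUV : ∀ k, G.Sat k (U k ∩ V) := fun k x y e hx =>
    ⟨hU k x y e hx.1, hV x y (nest' hx.1.1 e) hx.2⟩
  have hd : Pairwise (Function.onFun Disjoint fun k => U k ∩ V) := by
    refine (pairwise_disjoint_on _).2 fun a b hab => disjoint_left.2 fun x ha hb => ?_
    exact hb.1.2.2 a ha.1.1 hab ha.1.2.1
  calc ∫⁻ y in V, φ y ∂μ ≤ ∫⁻ y in V, ∑' k, (U k).indicator (φs k) y ∂μ := by
        refine lintegral_mono fun x => ?_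
        by_cases h : ∃ k, k0 ≤ k ∧ x ∈ P k
        · have h4 : ∀ l, k0 ≤ l → l < Nat.find h → x ∉ P l :=
            fun l hl hl' hx => Nat.find_min h hl' ⟨hl, hx⟩
          refine le_trans ?_ (ENNReal.le_tsum (Nat.find h))
          rw [indicator_of_mem (show x ∈ U (Nat.find h) from
            ⟨(Nat.find_spec h).1, (Nat.find_spec h).2, h4⟩)]
          exact h3 x _ h4
        · exact (h2 x fun k hk hx => h ⟨k, hk, hx⟩).trans_le bot_le
    _ = ∑' k, ∫⁻ y in U k ∩ V, φs k y ∂μ := int_tsum (fun k => (hU k).meas) hm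
    _ ≤ ∑' k, ∫⁻ y in U k ∩ V, ψ y ∂μ :=
        ENNReal.tsum_le_tsum fun k => (hUV k).int_le fun x hx => h1 k x hx.1.2.1
    _ = ∫⁻ y in ⋃ k, U k ∩ V, ψ y ∂μ := (lintegral_iUnion (fun k => (hUV k).meas) hd ψ).symm
    _ ≤ _ := lintegral_mono_set (iUnion_subset fun k => inter_subset_right)

end Grid

end Pool.Agent.Ent
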