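import Pool.Agent.P.MP_2c43e6_an.EntA

/-! Testing by entropy levels, and the Carleson embedding. -/

set_option autoImplicit false
set_option linter.unusedSectionVars false

open MeasureTheory Set
open scoped ENNReal

namespace Pool.Agent.Ent.Grid

variable {Ω ι : Type*} [MeasurableSpace Ω] {μ : Measure Ω} [Countable ι] {G : Grid Ω μ ι}
  {p : ℝ} {σ w : Ω → ℝ≥0∞}

theorem testing (hp : 1 < p) (hσm : Measurable σ) (hw : Measurable w)
    (hσ : ∀ k x, G.av σ k x ≠ 0 ∧ G.av σ k x ≠ ∞) {L : ℕ} {θ : ℕ → ℝ≥0∞} {Y : ℝ≥0∞} (hY : Y ≠ ∞)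
    (H : ∀ k x, ∃ j < L,
      ∫⁻ y in G.cell k x, G.Hs σ k y ∂μ ≤ θ j * ∫⁻ y in G.cell k x, σ y ∂μ ∧
        G.av σ k x ^ (p - 1) * G.av w k x * θ j ≤ Y) (k0 : ℕ) (x0 : Ω) :
    ∫⁻ y in G.cell k0 x0, G.Hs σ k0 y ^ p * w y ∂μ ≤
      2 ^ p * L * (4 * Y) * ∫⁻ y in G.cell k0 x0, σ y ∂μ := by
  classical
  have hp0 : 0 < p := by linarith
  let R : ℕ → Set Ω := fun k => {y | Rec (fun l => G.av σ l y) k0 k}
  have hR : ∀ k, G.Sat k (R k) := fun k x y e hx => ⟨hx.1, fun l hl hl' => by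
    have h := hx.2 l hl hl'
    simp only at h ⊢
    rwa [← av_eq σ hl'.le e, ← av_eq σ le_rfl e]⟩
  let P : ℕ → ℕ → Set Ω := fun j k =>
    {x | ∫⁻ y in G.cell k x, G.Hs σ k y ∂μ ≤ θ j * ∫⁻ y in G.cell k x, σ y ∂μ}
  have hP : ∀ j k, G.Sat k (P j k) := fun j k x y e hx => by
    simp only [P, mem_setOf_eq] at hx ⊢
    rwa [← cell_eq le_rfl e]
  have hθ : ∀ j k, ∀ x ∈ P j k, θ j ≠ 0 := by
    intro j k x hx e
    simp only [P, mem_setOf_eq, e, zero_mul] at hx
    have h1 : ∫⁻ _y in G.cell k x, G.av σ k x ∂μ ≤ ∫⁻ y in G.cell k x, G.Hs σ k y ∂μ :=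
      setLIntegral_mono' (G.meas k _) fun y hy =>
        le_iSup₂_of_le k le_rfl (av_eq σ le_rfl (Eq.symm hy)).le
    rw [setLIntegral_const] at h1
    exact mul_ne_zero (hσ k x).1 (G.pos k x) (le_zero_iff.1 (h1.trans hx))
  let φ : ℕ → Ω → ℝ≥0∞ := fun j y => ∑' k, (R k ∩ P j k).indicator (G.av σ k) y
  have hφm : ∀ j, Measurable (φ j) := fun j =>
    Measurable.ennreal_tsum fun k => (meas_av σ k).indicator ((hR k).meas.inter (hP j k).meas)
  have hφ : ∀ j, ∫⁻ y in G.cell k0 x0, φ j y ∂μ ≤ ∫⁻ y in G.cell k0 x0, 4 * (θ j * σ y) ∂μ := by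
    intro j
    refine maxcells (sat_cell le_rfl x0) (hP j) (φs := fun k y => 4 * G.Hs σ k y)
      (fun k => (meas_Hs σ k).const_mul _) (fun k x hx => ?_) (fun x hx => ?_) fun x k hx => ?_
    · rw [lintegral_const_mul _ (meas_Hs σ k), lintegral_const_mul _ (hσm.const_mul _),
        lintegral_const_mul _ hσm]
      exact mul_le_mul_right hx _
    · exact ENNReal.tsum_eq_zero.2 fun k => indicator_of_notMem (fun h => hx k h.1.1 h.2) _
    · refine le_trans (ENNReal.tsum_le_tsum fun l => ?_) (tsum_rec_le (fun l => hσ l x) k0 k)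
      by_cases h : x ∈ R l ∩ P j l
      · rw [indicator_of_mem h, if_pos ⟨not_lt.1 fun hl => hx l h.1.1 hl h.2, h.1⟩]
      · rw [indicator_of_notMem h]
        exact bot_le
  have hm1 : ∀ k, Measurable fun y => 2 ^ p * (G.av σ k y ^ p * w y) := fun k =>
    (((meas_av σ k).pow_const p).mul hw).const_mul _
  have hm2 : ∀ k, Measurable fun y => 2 ^ p * (G.av σ k y ^ (p - 1) * G.av w k y * G.av σ k y) :=
    fun k => ((((meas_av σ k).pow_const _).mul (meas_av w k)).mul (meas_av σ k)).const_mul _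
  calc ∫⁻ y in G.cell k0 x0, G.Hs σ k0 y ^ p * w y ∂μ
      ≤ ∫⁻ y in G.cell k0 x0, ∑' k, (R k).indicator (fun y => 2 ^ p * (G.av σ k y ^ p * w y)) y ∂μ := by
        refine lintegral_mono fun y => ?_
        simp only [Hs, iSup_rpow hp0, ENNReal.iSup_mul]
        refine iSup₂_le fun k hk => ?_
        obtain ⟨k', h1, h2⟩ := exists_rec (fun l => hσ l y) hk
        refine le_trans ?_ (ENNReal.le_tsum k')
        rw [indicator_of_mem (show y ∈ R k' from h1), ← mul_assoc,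
          ← ENNReal.mul_rpow_of_nonneg _ _ hp0.le]
        exact mul_le_mul_left (ENNReal.rpow_le_rpow h2 hp0.le) _
    _ ≤ ∫⁻ y in G.cell k0 x0, ∑' k, (R k).indicator
          (fun y => 2 ^ p * (G.av σ k y ^ (p - 1) * G.av w k y * G.av σ k y)) y ∂μ := by
        rw [int_tsum (fun k => (hR k).meas) hm1, int_tsum (fun k => (hR k).meas) hm2]
        refine ENNReal.tsum_le_tsum fun k => ?_
        have hs : G.Sat k (R k ∩ G.cell k0 x0) := fun x y e hx =>
          ⟨hR k x y e hx.1, sat_cell hx.1.1 x0 x y e hx.2⟩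
        refine hs.int_le fun x _ => le_of_eq ?_
        have hc : MeasurableSet (G.cell k x) := G.meas k _
        rw [setLIntegral_congr_fun (g := fun y => 2 ^ p * G.av σ k x ^ p * w y) hc
            fun y hy => by simp only [av_eq σ le_rfl (show G.π k y = G.π k x from hy), mul_assoc],
          lintegral_const_mul _ hw, setLIntegral_congr_fun (f := fun y =>
            2 ^ p * (G.av σ k y ^ (p - 1) * G.av w k y * G.av σ k y)) (g := fun _ =>
            2 ^ p * (G.av σ k x ^ (p - 1) * G.av w k x * G.av σ k x)) hc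
            fun y hy => by simp only [av_eq σ le_rfl (show G.π k y = G.π k x from hy),
              av_eq w le_rfl (show G.π k y = G.π k x from hy)], setLIntegral_const]
        have h1 := av_mul (G := G) w k x
        have h2 : G.av σ k x ^ p = G.av σ k x ^ (p - 1) * G.av σ k x := by
          conv_rhs => rw [← ENNReal.rpow_one (G.av σ k x), ← ENNReal.rpow_mul, one_mul,
            ← ENNReal.rpow_add _ _ (hσ k x).1 (hσ k x).2, sub_add_cancel]
        rw [← h1, h2]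
        ring
    _ ≤ ∫⁻ y in G.cell k0 x0, ∑ j ∈ Finset.range L, 2 ^ p * (Y / θ j) * φ j y ∂μ := by
        refine lintegral_mono fun y => ?_
        simp only [φ, ← ENNReal.tsum_mul_left]
        rw [← Summable.tsum_finsetSum fun _ _ => ENNReal.summable]
        refine ENNReal.tsum_le_tsum fun k => ?_
        by_cases h : y ∈ R k
        · obtain ⟨j, hj, h1, h2⟩ := H k y
          refine le_trans ?_ (Finset.single_le_sum (fun _ _ => bot_le) (Finset.mem_range.2 hj))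
          rw [indicator_of_mem h, indicator_of_mem (show y ∈ R k ∩ P j k from ⟨h, h1⟩),
            mul_assoc (2 ^ p)]
          refine mul_le_mul_right (mul_le_mul_left ?_ _) _
          exact (ENNReal.le_div_iff_mul_le (Or.inl (hθ j k y h1)) (Or.inr hY)).2 h2
        · rw [indicator_of_notMem h]
          exact bot_le
    _ ≤ ∑ _j ∈ Finset.range L, 2 ^ p * (4 * Y) * ∫⁻ y in G.cell k0 x0, σ y ∂μ := by
        rw [lintegral_finsetSum _ fun j _ => (hφm j).const_mul _]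
        refine Finset.sum_le_sum fun j _ => ?_
        rw [lintegral_const_mul _ (hφm j)]
        refine (mul_le_mul_right (hφ j) _).trans ?_
        rw [lintegral_const_mul _ (hσm.const_mul _), lintegral_const_mul _ hσm]
        calc _ = 2 ^ p * (4 * (θ j * (Y / θ j))) * ∫⁻ y in G.cell k0 x0, σ y ∂μ := by ring
          _ ≤ _ := mul_le_mul_left (mul_le_mul_right (mul_le_mul_right ENNReal.mul_div_le _) _) _
    _ = _ := by
        rw [Finset.sum_const, Finset.card_range, nsmul_eq_mul]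
        ring

/-- The constant of the embedding. -/
noncomputable def cE (p : ℝ) : ℝ≥0∞ := 2 ^ p * 2 * 2 ^ (p - 1) * (1 - (2 ^ (p - 1))⁻¹)⁻¹

theorem cE_ne_top (hp : 1 < p) : cE p ≠ ∞ := by
  have h1 : (1 : ℝ≥0∞) < 2 ^ (p - 1) := ENNReal.one_lt_rpow ENNReal.one_lt_two (by linarith)
  refine ENNReal.mul_ne_top (ENNReal.mul_ne_top (ENNReal.mul_ne_top ?_ ENNReal.ofNat_ne_top) ?_) ?_
  · exact ENNReal.rpow_ne_top_of_nonneg (by linarith) ENNReal.ofNat_ne_top
  · exact ENNReal.rpow_ne_top_of_nonneg (by linarith) ENNReal.ofNat_ne_top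
  · exact ENNReal.inv_ne_top.2 (tsub_pos_of_lt (ENNReal.inv_lt_one.2 h1)).ne'

theorem level_sum (hp : 1 < p) {s u f : ℝ≥0∞} (h : s ^ (p - 1) * u = 1) (hf : f ≠ ∞) :
    ∑' i : ℤ, (2 * 2 ^ i) ^ p * (2 / 2 ^ i * if 2 ^ i * s < 2 * f then f else 0) ≤
      cE p * (f ^ p * u) := by
  have hp1 : 0 < p - 1 := by linarith
  by_cases h0 : f = 0
  · simp [h0]
  have hs0 : s ≠ 0 := fun e => by simp [e, ENNReal.zero_rpow_of_pos hp1] at h
  have hs1 : s ≠ ∞ := fun e => by
    rw [e, ENNReal.top_rpow_of_pos hp1] at h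
    by_cases hu : u = 0
    · simp [hu] at h
    · simp [ENNReal.top_mul hu] at h
  have hg : 2 * f / s ≠ 0 ∧ 2 * f / s ≠ ∞ :=
    ⟨ENNReal.div_ne_zero.2 ⟨mul_ne_zero two_ne_zero h0, hs1⟩,
      ENNReal.div_ne_top (ENNReal.mul_ne_top ENNReal.ofNat_ne_top hf) hs0⟩
  have hq : ∀ i : ℤ, ((2 : ℝ≥0∞) ^ (p - 1)) ^ i = (2 ^ i) ^ (p - 1) := fun i => by
    rw [← ENNReal.rpow_mul_intCast, mul_comm, ENNReal.rpow_intCast_mul]
  have hq0 : (2 : ℝ≥0∞) ^ (p - 1) ≠ 0 := by simp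
  have hq1 : (2 : ℝ≥0∞) ^ (p - 1) ≠ ∞ := ENNReal.rpow_ne_top_of_nonneg hp1.le ENNReal.ofNat_ne_top
  calc _ ≤ ∑' i : ℤ, 2 ^ p * 2 * f * if i ≤ lev (2 * f / s) then (2 ^ (p - 1)) ^ i else 0 := by
        refine ENNReal.tsum_le_tsum fun i => ?_
        by_cases hi : 2 ^ i * s < 2 * f
        · have ht0 : (2 : ℝ≥0∞) ^ i ≠ 0 := (ENNReal.zpow_pos two_ne_zero ENNReal.ofNat_ne_top i).ne'
          have ht1 : (2 : ℝ≥0∞) ^ i ≠ ∞ := ENNReal.zpow_ne_top two_ne_zero ENNReal.ofNat_ne_top i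
          rw [if_pos hi, if_pos (le_lev hg
            ((ENNReal.lt_div_iff_mul_lt (Or.inl hs0) (Or.inl hs1)).2 hi)), hq,
            ENNReal.mul_rpow_of_nonneg _ _ (by linarith), ENNReal.rpow_sub _ _ ht0 ht1,
            ENNReal.rpow_one, div_eq_mul_inv, div_eq_mul_inv]
          exact le_of_eq (by ring)
        · rw [if_neg hi, mul_zero, mul_zero]
          exact bot_le
    _ ≤ 2 ^ p * 2 * f * ((2 * f / s) ^ (p - 1) * (1 - (2 ^ (p - 1))⁻¹)⁻¹) := by
        rw [ENNReal.tsum_mul_left, tsum_geom hq0 hq1, hq]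
        exact mul_le_mul_right (mul_le_mul_left
          (ENNReal.rpow_le_rpow (lev_spec hg).1.le hp1.le) _) _
    _ = _ := by
        have h2 : f ^ p = f ^ (p - 1) * f := by
          conv_rhs => rw [← ENNReal.rpow_one f, ← ENNReal.rpow_mul, one_mul,
            ← ENNReal.rpow_add _ _ h0 hf, sub_add_cancel]
        rw [ENNReal.div_rpow_of_nonneg _ _ hp1.le, ENNReal.mul_rpow_of_nonneg _ _ hp1.le,
          div_eq_mul_inv, ← ENNReal.eq_inv_of_mul_eq_one_left (mul_comm u _ ▸ h), h2, cE]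
        ring

theorem le_young (hp : 1 < p) {s u f : ℝ≥0∞} (h : s ^ (p - 1) * u = 1) : f ≤ f ^ p * u + s := by
  rcases le_total f s with h1 | h1
  · exact h1.trans le_add_self
  · refine le_trans ?_ le_self_add
    calc f = f ^ (1 : ℝ) * (s ^ (p - 1) * u) := by rw [h, mul_one, ENNReal.rpow_one]
      _ ≤ f ^ (1 : ℝ) * (f ^ (p - 1) * u) :=
          mul_le_mul_right (mul_le_mul_left (ENNReal.rpow_le_rpow h1 (by linarith)) _) _
      _ = _ := by
          rw [← mul_assoc, ← ENNReal.rpow_add_of_nonneg _ _ zero_le_one (by linarith),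
            add_sub_cancel]

theorem embed (hp : 1 < p) (hσm : Measurable σ) (hw : Measurable w)
    (hσ : ∀ k x, G.av σ k x ≠ 0 ∧ G.av σ k x ≠ ∞) (hσw : ∀ᵐ y ∂μ, σ y ^ (p - 1) * w y = 1)
    {K : ℝ≥0∞} (hK : ∀ k x, ∫⁻ y in G.cell k x, G.Hs σ k y ^ p * w y ∂μ ≤
      K * ∫⁻ y in G.cell k x, σ y ∂μ) {f : Ω → ℝ≥0∞} (hf : Measurable f) (hf1 : ∀ y, f y ≠ ∞)
    (hfin : ∫⁻ y, f y ^ p * w y ∂μ ≠ ∞) :
    ∫⁻ y, G.Hs f 0 y ^ p * w y ∂μ ≤ K * cE p * ∫⁻ y, f y ^ p * w y ∂μ := by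
  classical
  have hp0 : 0 < p := by linarith
  have ht0 : ∀ i : ℤ, (2 : ℝ≥0∞) ^ i ≠ 0 :=
    fun i => (ENNReal.zpow_pos two_ne_zero ENNReal.ofNat_ne_top i).ne'
  have ht1 : ∀ i : ℤ, (2 : ℝ≥0∞) ^ i ≠ ∞ := ENNReal.zpow_ne_top two_ne_zero ENNReal.ofNat_ne_top
  let F : ℤ → Ω → ℝ≥0∞ := fun i y => if 2 ^ i * σ y < 2 * f y then f y else 0
  have hF : ∀ i, Measurable (F i) := fun i =>
    Measurable.ite (measurableSet_lt (hσm.const_mul _) (hf.const_mul _)) hf measurable_const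
  let P : ℤ → ℕ → Set Ω := fun i k =>
    {x | 2 ^ i * ∫⁻ y in G.cell k x, σ y ∂μ ≤ 2 * ∫⁻ y in G.cell k x, F i y ∂μ}
  have hP : ∀ i k, G.Sat k (P i k) := fun i k x y e hx => by
    simp only [P, mem_setOf_eq] at hx ⊢
    rwa [← cell_eq le_rfl e]
  let φ : ℤ → Ω → ℝ≥0∞ := fun i x => ⨆ k, (P i k).indicator (fun y => G.av σ k y ^ p * w y) x
  have hφm : ∀ i, Measurable (φ i) := fun i =>
    Measurable.iSup fun k => (((meas_av σ k).pow_const p).mul hw).indicator (hP i k).meas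
  have hφ : ∀ i, ∫⁻ y, φ i y ∂μ ≤ ∫⁻ y, K * (2 / 2 ^ i * F i y) ∂μ := by
    intro i
    rw [← setLIntegral_univ, ← setLIntegral_univ fun y => K * _]
    refine maxcells (k0 := 0) (fun _ _ _ _ => mem_univ _) (hP i)
      (φs := fun k y => G.Hs σ k y ^ p * w y) (fun k => ((meas_Hs σ k).pow_const p).mul hw)
      (fun k x hx => (hK k x).trans ?_) (fun x hx => ?_) fun x k hx => iSup_le fun l => ?_
    · rw [lintegral_const_mul _ ((hF i).const_mul _), lintegral_const_mul _ (hF i),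
        ← ENNReal.mul_div_right_comm]
      exact mul_le_mul_right ((ENNReal.le_div_iff_mul_le (Or.inl (ht0 i)) (Or.inl (ht1 i))).2
        ((mul_comm _ _).trans_le hx)) _
    · exact ENNReal.iSup_eq_zero.2 fun k => indicator_of_notMem (hx k bot_le) _
    · by_cases h : x ∈ P i l
      · rw [indicator_of_mem h]
        exact mul_le_mul_left (ENNReal.rpow_le_rpow
          (le_iSup₂_of_le l (not_lt.1 fun hl => hx l bot_le hl h) le_rfl) hp0.le) _
      · rw [indicator_of_notMem h]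
        exact bot_le
  have hpt : ∀ x, G.Hs f 0 x ^ p * w x ≤ ∑' i : ℤ, (2 * 2 ^ i) ^ p * φ i x := by
    intro x
    simp only [Hs, iSup_rpow hp0, ENNReal.iSup_mul]
    refine iSup₂_le fun k _ => ?_
    have hS := av_mul (G := G) σ k x
    have hS1 : ∫⁻ y in G.cell k x, σ y ∂μ ≠ ∞ := hS ▸ ENNReal.mul_ne_top (hσ k x).2 (G.fin k x)
    have hS0 : ∫⁻ y in G.cell k x, σ y ∂μ ≠ 0 := hS ▸ mul_ne_zero (hσ k x).1 (G.pos k x)
    have hI1 : ∫⁻ y in G.cell k x, f y ∂μ ≠ ∞ := by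
      refine ne_top_of_le_ne_top ?_ (lintegral_mono_ae (g := fun y => f y ^ p * w y + σ y)
        (ae_restrict_of_ae (hσw.mono fun y hy => le_young hp hy)))
      rw [lintegral_add_right _ hσm]
      exact ENNReal.add_ne_top.2 ⟨ne_top_of_le_ne_top hfin (setLIntegral_le_lintegral _ _), hS1⟩
    by_cases hI0 : ∫⁻ y in G.cell k x, f y ∂μ = 0
    · rw [av, hI0, ENNReal.zero_div, ENNReal.zero_rpow_of_pos hp0, zero_mul]
      exact bot_le
    obtain ⟨h1, h2⟩ := lev_spec ⟨ENNReal.div_ne_zero.2 ⟨hI0, hS1⟩, ENNReal.div_ne_top hI1 hS0⟩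
    set i := lev ((∫⁻ y in G.cell k x, f y ∂μ) / ∫⁻ y in G.cell k x, σ y ∂μ)
    rw [ENNReal.lt_div_iff_mul_lt (Or.inl hS0) (Or.inl hS1)] at h1
    rw [ENNReal.div_le_iff hS0 hS1, two_zpow_succ] at h2
    have h3 : x ∈ P i k := by
      have h4 : ∫⁻ y in G.cell k x, 2 * f y ∂μ ≤ ∫⁻ y in G.cell k x, 2 * F i y + 2 ^ i * σ y ∂μ := by
        refine lintegral_mono fun y => ?_
        simp only [F]
        split_ifs with h
        · exact le_self_add
        · exact (not_lt.1 h).trans le_add_self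
      rw [lintegral_add_right _ (hσm.const_mul _), lintegral_const_mul _ hf,
        lintegral_const_mul _ (hF i), lintegral_const_mul _ hσm] at h4
      refine (ENNReal.add_le_add_iff_right (ENNReal.mul_ne_top (ht1 i) hS1)).1 (le_trans ?_ h4)
      rw [← two_mul]
      exact mul_le_mul_right h1.le _
    refine le_trans ?_ ((mul_le_mul_right (le_iSup _ k) _).trans (ENNReal.le_tsum i))
    rw [indicator_of_mem h3, ← mul_assoc, ← ENNReal.mul_rpow_of_nonneg _ _ hp0.le]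
    refine mul_le_mul_left (ENNReal.rpow_le_rpow ?_ hp0.le) _
    rw [av, av, ← mul_div_assoc]
    exact ENNReal.div_le_div_right h2 _
  have hm : ∀ i : ℤ, Measurable fun y => K * ((2 * 2 ^ i) ^ p * (2 / 2 ^ i * F i y)) :=
    fun i => (((hF i).const_mul _).const_mul _).const_mul _
  calc _ ≤ ∫⁻ y, ∑' i : ℤ, (2 * 2 ^ i) ^ p * φ i y ∂μ := lintegral_mono hpt
    _ ≤ ∫⁻ y, ∑' i : ℤ, K * ((2 * 2 ^ i) ^ p * (2 / 2 ^ i * F i y)) ∂μ := by
        rw [lintegral_tsum fun i => ((hφm i).const_mul _).aemeasurable,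
          lintegral_tsum fun i => (hm i).aemeasurable]
        refine ENNReal.tsum_le_tsum fun i => ?_
        rw [lintegral_const_mul _ (hφm i)]
        refine (mul_le_mul_right (hφ i) _).trans (le_of_eq ?_)
        rw [← lintegral_const_mul _ (((hF i).const_mul _).const_mul _)]
        exact lintegral_congr fun y => mul_left_comm _ _ _
    _ ≤ ∫⁻ y, K * cE p * (f y ^ p * w y) ∂μ := by
        refine lintegral_mono_ae (hσw.mono fun y hy => ?_)
        rw [ENNReal.tsum_mul_left, mul_assoc]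
        exact mul_le_mul_right (level_sum hp hy (hf1 y)) _
    _ = _ := lintegral_const_mul _ ((hf.pow_const p).mul hw)

end Pool.Agent.Ent.Grid
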