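import Pool.Agent.P.MP_2c43e6_an.EntB
import Pool.Agent.P.MP_2c43e6_an.Defs

/-! Shifted dyadic grids and the bound for the maximal operator. -/

set_option autoImplicit false

open MeasureTheory Set Filter
open scoped ENNReal

namespace Pool.Agent.Ent

open Pool.Agent.P.MP_2c43e6_an Grid

variable {n : ℕ}

theorem vol_cube (a : Fin n → ℝ) (l : ℝ) :
    volume (Icc a fun i => a i + l) = ENNReal.ofReal l ^ n := by
  rw [Real.volume_Icc_pi]
  simp

/-- Index of the dyadic cell. -/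
noncomputable def ix (N : ℕ) (τ : Fin n → ℝ) (k : ℕ) (x : Fin n → ℝ) : Fin n → ℤ :=
  fun i => ⌊(x i - τ i) / (2 ^ N / 2 ^ k)⌋

theorem ix_pre (N : ℕ) (τ : Fin n → ℝ) (k : ℕ) (m : Fin n → ℤ) :
    ix N τ k ⁻¹' {m} = pi univ fun i =>
      Ico (τ i + m i * (2 ^ N / 2 ^ k)) (τ i + m i * (2 ^ N / 2 ^ k) + 2 ^ N / 2 ^ k) := by
  have hs : (0 : ℝ) < 2 ^ N / 2 ^ k := by positivity
  ext x
  simp only [mem_preimage, mem_singleton_iff, funext_iff, ix, Set.mem_pi, mem_univ, true_imp_iff,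
    mem_Ico, Int.floor_eq_iff, le_div_iff₀ hs, div_lt_iff₀ hs]
  refine forall_congr' fun i => ?_
  constructor <;> rintro ⟨h1, h2⟩ <;> constructor <;> linarith

theorem ix_ae (N : ℕ) (τ : Fin n → ℝ) (k : ℕ) (m : Fin n → ℤ) :
    (ix N τ k ⁻¹' {m} : Set (Fin n → ℝ)) =ᵐ[volume] Icc (fun i => τ i + m i * (2 ^ N / 2 ^ k))
      fun i => τ i + m i * (2 ^ N / 2 ^ k) + 2 ^ N / 2 ^ k := by
  rw [ix_pre]
  exact Measure.univ_pi_Ico_ae_eq_Icc

theorem ix_vol (N : ℕ) (τ : Fin n → ℝ) (k : ℕ) (m : Fin n → ℤ) :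
    volume (ix N τ k ⁻¹' {m}) = ENNReal.ofReal (2 ^ N / 2 ^ k) ^ n := by
  rw [measure_congr (ix_ae N τ k m), vol_cube]

/-- The translated dyadic grid with top side `2 ^ N`. -/
noncomputable def grid (N : ℕ) (τ : Fin n → ℝ) : Grid (Fin n → ℝ) volume (Fin n → ℤ) where
  π := ix N τ
  meas k m := by
    rw [ix_pre]
    exact MeasurableSet.univ_pi fun i => measurableSet_Ico
  nest k x y h := by
    funext i
    have h1 : ∀ t : ℝ, ⌊t / (2 ^ N / 2 ^ k)⌋ = ⌊t / (2 ^ N / 2 ^ (k + 1))⌋ / (2 : ℕ) := fun t => by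
      rw [← Int.floor_div_natCast]
      congr 1
      push_cast
      rw [pow_succ]
      field_simp
    simp only [ix, h1]
    exact congrArg (· / ((2 : ℕ) : ℤ)) (congrFun h i)
  pos k x := by
    rw [ix_vol]
    exact pow_ne_zero _ (ENNReal.ofReal_pos.2 (by positivity)).ne'
  fin k x := by
    rw [ix_vol]
    exact ENNReal.pow_ne_top ENNReal.ofReal_ne_top

theorem grid_cube (N : ℕ) (τ : Fin n → ℝ) (k : ℕ) (x : Fin n → ℝ) :
    ∃ Q, IsCube Q ∧ (grid N τ).cell k x ⊆ Q ∧ (grid N τ).cell k x =ᵐ[volume] Q := by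
  refine ⟨_, ⟨_, _, by positivity, rfl⟩, ?_, ix_ae N τ k _⟩
  refine (ix_pre N τ k _).le.trans ?_
  rw [← pi_univ_Icc]
  exact pi_mono fun i _ => Ico_subset_Icc_self

theorem third {k : ℕ} {a b : ℝ} (hab : a ≤ b) (h : b - a < 1 / 3) :
    ⌊a⌋ = ⌊b⌋ ∨ ⌊a - 2 ^ k / 3⌋ = ⌊b - 2 ^ k / 3⌋ := by
  by_contra hc
  rw [not_or] at hc
  have h1 : a < ⌊b⌋ := Int.floor_lt.1 (lt_of_le_of_ne (Int.floor_mono hab) hc.1)
  have h2 : a - 2 ^ k / 3 < ⌊b - 2 ^ k / 3⌋ :=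
    Int.floor_lt.1 (lt_of_le_of_ne (Int.floor_mono (by linarith)) hc.2)
  have h3 := Int.floor_le b
  have h4 := Int.floor_le (b - 2 ^ k / 3)
  have h5 : 3 * (⌊b⌋ - ⌊b - 2 ^ k / 3⌋) - 2 ^ k < (1 : ℤ) := by
    have : (3 : ℝ) * (⌊b⌋ - ⌊b - 2 ^ k / 3⌋) - 2 ^ k < 1 := by linarith
    exact_mod_cast this
  have h6 : (-1 : ℤ) < 3 * (⌊b⌋ - ⌊b - 2 ^ k / 3⌋) - 2 ^ k := by
    have : (-1 : ℝ) < 3 * (⌊b⌋ - ⌊b - 2 ^ k / 3⌋) - 2 ^ k := by linarith
    exact_mod_cast this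
  have h7 : (3 : ℤ) ∣ 2 ^ k := ⟨⌊b⌋ - ⌊b - 2 ^ k / 3⌋, by omega⟩
  exact absurd (Int.prime_three.dvd_of_dvd_pow h7) (by norm_num)

/-- The `2 ^ n` translations. -/
noncomputable def sh (N : ℕ) (α : Fin n → Bool) : Fin n → ℝ := fun i => if α i then 2 ^ N / 3 else 0

theorem avg_le_grid (f : (Fin n → ℝ) → ℝ≥0∞) {Q : Set (Fin n → ℝ)} (hQ : IsCube Q) {x : Fin n → ℝ}
    (hx : x ∈ Q) : ∀ᶠ N in atTop, ∃ α, avg f Q ≤ 6 ^ n * (grid N (sh N α)).Hs f 0 x := by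
  obtain ⟨a, l, hl, rfl⟩ := hQ
  filter_upwards [(tendsto_pow_atTop_atTop_of_one_lt (one_lt_two (α := ℝ))).eventually_gt_atTop
    (3 * l)] with N hN
  obtain ⟨k, hk1, hk2⟩ := exists_nat_pow_near_of_lt_one (x := 3 * l / 2 ^ N) (y := 1 / 2)
    (by positivity) ((div_le_one (by positivity)).2 hN.le) (by norm_num) (by norm_num)
  obtain ⟨k, hk1, hk2⟩ : ∃ k : ℕ, 3 * l < 2 ^ N / 2 ^ k ∧ (2 : ℝ) ^ N / 2 ^ k ≤ 6 * l := by
    rw [one_div, inv_pow, lt_div_iff₀ (by positivity), inv_mul_eq_div] at hk1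
    rw [one_div, inv_pow, div_le_iff₀ (by positivity), inv_mul_eq_div] at hk2
    rw [pow_succ, ← div_div] at hk1
    rcases hk2.lt_or_eq with h | h
    · exact ⟨k, h, by linarith⟩
    · obtain _ | k := k
      · simp at h
        linarith
      · rw [pow_succ, ← div_div] at h
        exact ⟨k, by linarith, by linarith⟩
  have hs : (0 : ℝ) < 2 ^ N / 2 ^ k := by positivity
  have h1 : ∀ i, ∃ b : Bool, ⌊(a i - if b then 2 ^ N / 3 else 0) / (2 ^ N / 2 ^ k)⌋ =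
      ⌊(a i + l - if b then 2 ^ N / 3 else 0) / (2 ^ N / 2 ^ k)⌋ := by
    intro i
    rcases third (k := k) (a := a i / (2 ^ N / 2 ^ k)) (b := (a i + l) / (2 ^ N / 2 ^ k))
      (div_le_div_of_nonneg_right (by linarith) hs.le)
      (by rw [← sub_div, div_lt_iff₀ hs]; linarith) with h | h
    · exact ⟨false, by simpa using h⟩
    · refine ⟨true, ?_⟩
      have e : (2 : ℝ) ^ N / 3 / (2 ^ N / 2 ^ k) = 2 ^ k / 3 := by field_simp
      simp only [if_true, sub_div, e]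
      exact h
  choose α hα using h1
  have h2 : ∀ y ∈ Icc a fun i => a i + l, ∀ i,
      ix N (sh N α) k y i = ⌊(a i - sh N α i) / (2 ^ N / 2 ^ k)⌋ := fun y hy i =>
    le_antisymm ((Int.floor_mono (div_le_div_of_nonneg_right
      (sub_le_sub_right (hy.2 i) _) hs.le)).trans (hα i).ge)
      (Int.floor_mono (div_le_div_of_nonneg_right (sub_le_sub_right (hy.1 i) _) hs.le))
  have h3 : (Icc a fun i => a i + l) ⊆ (grid N (sh N α)).cell k x := fun y hy =>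
    funext fun i => (h2 y hy i).trans (h2 x hx i).symm
  refine ⟨α, le_trans ?_ (mul_le_mul_right (le_iSup₂_of_le k bot_le le_rfl) _)⟩
  refine ENNReal.div_le_of_le_mul ((lintegral_mono_set h3).trans ?_)
  rw [← av_mul, mul_comm (6 ^ n), mul_assoc, vol_cube, ← mul_pow]
  refine mul_le_mul_right ((ix_vol N _ k _).le.trans (pow_le_pow_left' ?_ n)) _
  refine (ENNReal.ofReal_le_ofReal hk2).trans (le_of_eq ?_)
  rw [ENNReal.ofReal_mul (by norm_num), ENNReal.ofReal_ofNat]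

variable {p : ℝ} {σ w : (Fin n → ℝ) → ℝ≥0∞}

theorem max_le_of_grids (hp : 0 < p) (hw : Measurable w) (f : (Fin n → ℝ) → ℝ≥0∞) {B : ℝ≥0∞}
    (h : ∀ N τ, ∫⁻ y, (grid N τ).Hs f 0 y ^ p * w y ≤ B) :
    ∫⁻ y, maxFun f y ^ p * w y ≤ (6 ^ n) ^ p * 2 ^ n * B := by
  have hm : ∀ N (α : Fin n → Bool), Measurable fun y =>
      (6 ^ n) ^ p * ((grid N (sh N α)).Hs f 0 y ^ p * w y) :=
    fun N α => (((meas_Hs f 0).pow_const p).mul hw).const_mul _
  refine le_trans (lintegral_mono fun y => ?_) ((lintegral_liminf_le (μ := volume)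
    (f := fun N y => ∑ α, (6 ^ n) ^ p * ((grid N (sh N α)).Hs f 0 y ^ p * w y))
    fun N => Finset.measurable_sum _ fun α _ => hm N α).trans
    (liminf_le_of_frequently_le' (Frequently.of_forall (f := atTop) fun N => ?_)))
  · simp only [maxFun, iSup_rpow hp, ENNReal.iSup_mul]
    refine iSup₂_le fun Q hQ => iSup_le fun hy => le_liminf_of_le (by isBoundedDefault) ?_
    filter_upwards [avg_le_grid f hQ hy] with N hN
    obtain ⟨α, hα⟩ := hN
    refine le_trans ?_ (Finset.single_le_sum (fun _ _ => bot_le) (Finset.mem_univ α))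
    rw [← mul_assoc, ← ENNReal.mul_rpow_of_nonneg _ _ hp.le]
    exact mul_le_mul_left (ENNReal.rpow_le_rpow hα hp.le) _
  · rw [lintegral_finsetSum _ fun α _ => hm N α]
    refine (Finset.sum_le_sum (g := fun _ => (6 ^ n) ^ p * B) fun α _ => ?_).trans (le_of_eq ?_)
    · exact (lintegral_const_mul _ (((meas_Hs f 0).pow_const p).mul hw)).trans_le
        (mul_le_mul_right (h N _) _)
    · rw [Finset.sum_const, Finset.card_univ, Fintype.card_fun, Fintype.card_bool,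
        Fintype.card_fin, nsmul_eq_mul]
      push_cast
      ring

theorem levels {ρ a B Y : ℝ≥0∞} {L : ℕ} (h1 : ρ ≤ B) (h2 : a * ρ ≤ Y) (h3 : a * B ≤ 2 ^ L * Y) :
    ∃ j < L + 1, ρ ≤ B / 2 ^ j ∧ a * (B / 2 ^ j) ≤ 2 * Y := by
  classical
  have hP : ρ ≤ B / 2 ^ 0 := by simpa using h1
  refine ⟨Nat.findGreatest (fun j => ρ ≤ B / 2 ^ j) L, Nat.lt_succ_of_le (Nat.findGreatest_le L),
    Nat.findGreatest_spec (P := fun j => ρ ≤ B / 2 ^ j) (Nat.zero_le L) hP, ?_⟩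
  rcases (Nat.findGreatest_le (P := fun j => ρ ≤ B / 2 ^ j) L).lt_or_eq with h | h
  · have h4 := not_le.1 (Nat.findGreatest_is_greatest (P := fun j => ρ ≤ B / 2 ^ j)
      (Nat.lt_succ_self _) h)
    refine le_trans (mul_le_mul_right (le_trans (le_of_eq ?_) (mul_le_mul_right h4.le 2)) a) ?_
    · rw [Nat.succ_eq_add_one, pow_succ', ← mul_div_assoc,
        ENNReal.mul_div_mul_left _ _ two_ne_zero ENNReal.ofNat_ne_top]
    · rw [mul_left_comm]
      exact mul_le_mul_right h2 _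
  · rw [h, ← mul_div_assoc]
    refine (ENNReal.div_le_of_le_mul (h3.trans_eq (mul_comm _ _))).trans ?_
    exact le_mul_of_one_le_left bot_le one_le_two

theorem avg_eq_av {N k : ℕ} {τ x : Fin n → ℝ} {Q : Set (Fin n → ℝ)}
    (h : (grid N τ).cell k x =ᵐ[volume] Q) (φ : (Fin n → ℝ) → ℝ≥0∞) :
    avg φ Q = (grid N τ).av φ k x := by
  rw [avg, av, measure_congr h, setLIntegral_congr h]

theorem bound (hp : 1 < p) (hσm : Measurable σ) (hw : Measurable w)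
    (hσw : ∀ᵐ y, σ y ^ (p - 1) * w y = 1) (hσ : ∀ Q, IsCube Q → avg σ Q ≠ 0 ∧ avg σ Q ≠ ∞)
    {B Y : ℝ≥0∞} {L : ℕ} (hY : Y ≠ ∞) (h1 : ∀ Q, IsCube Q → Ainf σ Q ≤ B)
    (h2 : ∀ Q, IsCube Q → avg σ Q ^ (p - 1) * avg w Q * Ainf σ Q ≤ Y)
    (h3 : ∀ Q, IsCube Q → avg σ Q ^ (p - 1) * avg w Q * B ≤ 2 ^ L * Y)
    {f : (Fin n → ℝ) → ℝ≥0∞} (hf : Measurable f) (hf1 : ∀ y, f y ≠ ∞)
    (hfin : ∫⁻ y, f y ^ p * w y ≠ ∞) :
    ∫⁻ y, maxFun f y ^ p * w y ≤ (6 ^ n) ^ p * 2 ^ n *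
      (2 ^ p * (L + 1 : ℕ) * (4 * (2 * Y)) * cE p * ∫⁻ y, f y ^ p * w y) := by
  refine max_le_of_grids (by linarith) hw f fun N τ => ?_
  have h4 : ∀ k x, (grid N τ).av σ k x ≠ 0 ∧ (grid N τ).av σ k x ≠ ∞ := fun k x => by
    obtain ⟨Q, hQ, -, he⟩ := grid_cube N τ k x
    exact avg_eq_av he σ ▸ hσ Q hQ
  refine embed hp hσm hw h4 hσw (testing hp hσm hw h4 (θ := fun j => B / 2 ^ j)
    (ENNReal.mul_ne_top ENNReal.ofNat_ne_top hY) fun k x => ?_) hf hf1 hfin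
  obtain ⟨Q, hQ, hs, he⟩ := grid_cube N τ k x
  obtain ⟨j, hj, h5, h6⟩ := levels (h1 Q hQ) (h2 Q hQ) (h3 Q hQ)
  refine ⟨j, hj, ?_, by rwa [← avg_eq_av he, ← avg_eq_av he]⟩
  have hS := av_mul (G := grid N τ) σ k x
  rw [Ainf, ← setLIntegral_congr he, ← setLIntegral_congr he, ENNReal.div_le_iff
    (hS ▸ mul_ne_zero (h4 k x).1 ((grid N τ).pos k x))
    (hS ▸ ENNReal.mul_ne_top (h4 k x).2 ((grid N τ).fin k x))] at h5
  refine le_trans (setLIntegral_mono' ((grid N τ).meas k _) fun y hy => iSup₂_le fun l hl => ?_) h5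
  obtain ⟨Q', hQ', hs', he'⟩ := grid_cube N τ l y
  refine le_iSup₂_of_le Q' hQ' (le_iSup_of_le (hs' rfl) (le_of_eq ?_))
  have hc : MeasurableSet ((grid N τ).cell l y) := (grid N τ).meas l _
  rw [avg_eq_av he', av, av, setLIntegral_congr_fun (f := σ) (g := Q.indicator σ) hc
    fun z hz => (indicator_of_mem (hs ((nest' hl hz).trans hy)) σ).symm]

theorem avg_ne_zero {φ : (Fin n → ℝ) → ℝ≥0∞} (hφ : Measurable φ) (h : ∀ᵐ y, φ y ≠ 0)
    {Q : Set (Fin n → ℝ)} (hQ : IsCube Q) : avg φ Q ≠ 0 := by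
  obtain ⟨a, l, hl, rfl⟩ := hQ
  refine ENNReal.div_ne_zero.2 ⟨fun e => ?_, ?_⟩
  · rw [lintegral_eq_zero_iff hφ] at e
    have h1 : ∀ᵐ _y ∂volume.restrict (Icc a fun i => a i + l), False := by
      filter_upwards [e, ae_restrict_of_ae h] with y h1 h2 using h2 h1
    rw [eventually_false_iff_eq_bot, ae_eq_bot, Measure.restrict_eq_zero, vol_cube] at h1
    exact pow_ne_zero _ (ENNReal.ofReal_pos.2 hl).ne' h1
  · rw [vol_cube]
    exact ENNReal.pow_ne_top ENNReal.ofReal_ne_top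

theorem main (n : ℕ) (p p' : ℝ) (hp : 1 < p) (hp' : p' = p / (p - 1)) :
    ∃ C : NNReal, ∀ w : (Fin n → ℝ) → ℝ, Measurable w → (∀ᵐ x, 0 < w x) →
      AqConst p (fun x => ENNReal.ofReal (w x)) < ⊤ → ∀ T : ℝ, 1 ≤ T →
      AqConst p' (fun x => ENNReal.ofReal (w x) ^ (1 - p')) ^ (1 / p') *
        (⨆ (Q : Set (Fin n → ℝ)) (_ : IsCube Q),
          Ainf (fun x => ENNReal.ofReal (w x) ^ (1 - p')) Q) ^ (1 / p) ≤
        ENNReal.ofReal T *
          mixedConst p' (1 / p') (1 / p) (fun x => ENNReal.ofReal (w x) ^ (1 - p')) →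
      maxNorm p (fun x => ENNReal.ofReal (w x)) ≤
        C * ENNReal.ofReal ((1 + Real.log T) ^ (1 / p)) *
          mixedConst p' (1 / p') (1 / p) (fun x => ENNReal.ofReal (w x) ^ (1 - p')) := by
  have hp0 : 0 < p := by linarith
  have hp1 : 0 < p - 1 := by linarith
  have hq : 0 ≤ 1 / p := by positivity
  have hl2 : 0 < Real.log 2 := Real.log_pos one_lt_two
  set D : ℝ≥0∞ := (6 ^ n) ^ p * 2 ^ n * 2 ^ p * 8 * cE p * ENNReal.ofReal (p / Real.log 2 + 2)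
    with hD
  have hD1 : D ^ (1 / p) + 1 ≠ ∞ := by
    have := cE_ne_top hp
    rw [hD]
    finiteness
  refine ⟨(D ^ (1 / p) + 1).toNNReal, fun w hw hw0 hA T hT h => ?_⟩
  rw [ENNReal.coe_toNNReal hD1]
  set W : (Fin n → ℝ) → ℝ≥0∞ := fun x => ENNReal.ofReal (w x) with hW
  set σ : (Fin n → ℝ) → ℝ≥0∞ := fun x => ENNReal.ofReal (w x) ^ (1 - p') with hσ
  set X := mixedConst p' (1 / p') (1 / p) σ with hX
  set B := ⨆ (Q : Set (Fin n → ℝ)) (_ : IsCube Q), Ainf σ Q with hB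
  have hlog : 0 ≤ Real.log T := Real.log_nonneg hT
  by_cases hX1 : X = ∞
  · rw [hX1, ENNReal.mul_top (mul_ne_zero (by simp) (ENNReal.ofReal_pos.2 (by positivity)).ne')]
    exact le_top
  have hWm : Measurable W := hw.ennreal_ofReal
  have hσm : Measurable σ := hWm.pow_const _
  have hW0 : ∀ᵐ y, W y ≠ 0 := hw0.mono fun y hy => (ENNReal.ofReal_pos.2 hy).ne'
  have e1 : (1 - p') * (p - 1) = -1 := by rw [hp']; field_simp; ring
  have e2 : -1 / (p - 1) = 1 - p' := by rw [hp']; field_simp; ring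
  have e3 : (1 - p') * (-1 / (p' - 1)) = 1 := by
    have : p' - 1 ≠ 0 := fun e => by
      rw [show 1 - p' = 0 by linarith, zero_mul] at e1
      norm_num at e1
    field_simp
    ring
  have e4 : 1 / p' * p = p - 1 := by rw [hp']; field_simp
  have e5 : (p' - 1) * (p - 1) = 1 := by linarith
  have e6 : 1 / p * p = 1 := one_div_mul_cancel hp0.ne'
  have hσw : ∀ᵐ y, σ y ^ (p - 1) * W y = 1 := hW0.mono fun y hy => by
    simp only [hσ]
    rw [← ENNReal.rpow_mul, e1, ENNReal.rpow_neg_one]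
    exact ENNReal.inv_mul_cancel hy ENNReal.ofReal_ne_top
  have hAq : ∀ Q, Aq p' σ Q ^ (p - 1) = avg σ Q ^ (p - 1) * avg W Q := fun Q => by
    simp only [Aq, hσ, ← ENNReal.rpow_mul, e3, ENNReal.rpow_one,
      ENNReal.mul_rpow_of_nonneg _ _ hp1.le, e5, hW]
  have hpw : ∀ a b : ℝ≥0∞, (a ^ (1 / p') * b ^ (1 / p)) ^ p = a ^ (p - 1) * b := fun a b => by
    rw [ENNReal.mul_rpow_of_nonneg _ _ hp0.le, ← ENNReal.rpow_mul, ← ENNReal.rpow_mul, e4, e6,
      ENNReal.rpow_one]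
  have h1 : ∀ Q, IsCube Q → avg σ Q ≠ 0 ∧ avg σ Q ≠ ∞ := fun Q hQ => by
    refine ⟨avg_ne_zero hσm (hσw.mono fun y hy e => ?_) hQ, fun e => ?_⟩
    · simp [e, ENNReal.zero_rpow_of_pos hp1] at hy
    · have h2 : Aq p W Q ≤ AqConst p W := le_iSup₂_of_le Q hQ le_rfl
      rw [Aq, e2, show avg (fun x => W x ^ (1 - p')) Q = ∞ from e, ENNReal.top_rpow_of_pos hp1,
        ENNReal.mul_top (avg_ne_zero hWm hW0 hQ)] at h2
      exact hA.not_ge h2
  set L := ⌈p * Real.log T / Real.log 2⌉₊ with hL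
  have hL1 : ENNReal.ofReal T ^ p ≤ 2 ^ L := by
    rw [ENNReal.ofReal_rpow_of_pos (by linarith), ← ENNReal.ofReal_ofNat 2,
      ← ENNReal.ofReal_pow zero_le_two]
    refine ENNReal.ofReal_le_ofReal ((Real.log_le_log_iff (by positivity) (by positivity)).1 ?_)
    rw [Real.log_rpow (by linarith), Real.log_pow, ← div_le_iff₀ hl2]
    exact Nat.le_ceil _
  have hL2 : ((L + 1 : ℕ) : ℝ≥0∞) ≤
      ENNReal.ofReal (p / Real.log 2 + 2) * ENNReal.ofReal (1 + Real.log T) := by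
    rw [← ENNReal.ofReal_mul (by positivity), ← ENNReal.ofReal_natCast]
    refine ENNReal.ofReal_le_ofReal ?_
    have h2 := Nat.ceil_lt_add_one (show 0 ≤ p * Real.log T / Real.log 2 by positivity)
    have h3 : 0 ≤ p / Real.log 2 := by positivity
    rw [← hL, mul_div_right_comm] at h2
    push_cast
    nlinarith
  refine iSup₂_le fun f hf => iSup_le fun hf1 => ?_
  have hf2 : ∫⁻ x, ‖f x‖ₑ ^ p * W x = 1 := by
    have h2 := congrArg (· ^ p) hf1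
    simp only [← ENNReal.rpow_mul, e6, ENNReal.rpow_one, ENNReal.one_rpow] at h2
    exact h2
  have h4 := bound hp hσm hWm hσw h1 (B := B) (Y := X ^ p) (L := L)
    (ENNReal.rpow_ne_top_of_nonneg hp0.le hX1) (fun Q hQ => le_iSup₂_of_le Q hQ le_rfl)
    (fun Q hQ => by
      rw [← hAq, ← hpw]
      exact ENNReal.rpow_le_rpow (le_iSup₂_of_le Q hQ le_rfl) hp0.le)
    (fun Q hQ => by
      have h5 := ENNReal.rpow_le_rpow h hp0.le
      rw [hpw, ENNReal.mul_rpow_of_nonneg _ _ hp0.le] at h5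
      rw [← hAq]
      exact ((mul_le_mul_left (ENNReal.rpow_le_rpow (le_iSup₂_of_le Q hQ le_rfl) hp1.le) _).trans
        h5).trans (mul_le_mul_left hL1 _))
    hf.enorm (fun _ => enorm_ne_top) (hf2 ▸ ENNReal.one_ne_top)
  rw [hf2, mul_one] at h4
  have h5 : _ ≤ D * ENNReal.ofReal (1 + Real.log T) * X ^ p := h4.trans (by
    calc _ = (6 ^ n) ^ p * 2 ^ n * 2 ^ p * 8 * cE p * ((L + 1 : ℕ) : ℝ≥0∞) * X ^ p := by ring
      _ ≤ _ := by
        rw [hD, mul_assoc _ (ENNReal.ofReal (p / Real.log 2 + 2))]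
        exact mul_le_mul_left (mul_le_mul_right hL2 _) _)
  refine (ENNReal.rpow_le_rpow h5 hq).trans ?_
  rw [ENNReal.mul_rpow_of_nonneg _ _ hq, ENNReal.mul_rpow_of_nonneg _ _ hq, ← ENNReal.rpow_mul,
    mul_one_div_cancel hp0.ne', ENNReal.rpow_one, ENNReal.ofReal_rpow_of_nonneg (by positivity) hq]
  exact mul_le_mul_left (mul_le_mul_left le_self_add _) _

end Pool.Agent.Ent
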