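import Pool.Agent.P.MP_2c43e6_an.EntC
import Pool.Agent.K.MP_2c43e6_an.C0

/-! The logarithmic loss is attained for every large ratio. -/

set_option autoImplicit false

open MeasureTheory Set Filter
open scoped ENNReal

namespace Pool.Agent.Ent

open Pool.Agent.P.MP_2c43e6_an

variable {n : ℕ}

theorem one_le_Ainf {σ : (Fin n → ℝ) → ℝ≥0∞} {Q : Set (Fin n → ℝ)} (hQ : IsCube Q)
    (h0 : avg σ Q ≠ 0) (h1 : avg σ Q ≠ ∞) : 1 ≤ Ainf σ Q := by
  have e : avg σ Q * volume Q = ∫⁻ x in Q, σ x :=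
    ENNReal.div_mul_cancel hQ.volume_ne_zero hQ.volume_ne_top
  rw [Ainf, ENNReal.le_div_iff_mul_le (Or.inl (e ▸ mul_ne_zero h0 hQ.volume_ne_zero))
    (Or.inl (e ▸ ENNReal.mul_ne_top h1 hQ.volume_ne_top)), one_mul, ← e, ← setLIntegral_const]
  refine setLIntegral_mono' hQ.measurableSet fun x hx => ?_
  refine le_iSup₂_of_le Q hQ (le_iSup_of_le hx (le_of_eq ?_))
  rw [avg, avg, setLIntegral_congr_fun (f := σ) (g := Q.indicator σ) hQ.measurableSet
    fun z hz => (indicator_of_mem hz σ).symm]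

theorem params {γ D : ℝ} (hγ : 0 ≤ γ) (hD : 1 ≤ D) : ∀ᶠ T : ℝ in atTop, ∃ J N : ℕ, 1 ≤ J ∧
    (((N + J : ℕ) : ℝ) + 1) ^ (γ + 1) ≤ 2 ^ J ∧ D * (((N + J : ℕ) : ℝ) + 1) ≤ T ∧
    (1 + Real.log T) / 4 ≤ ∑ k ∈ Finset.Ico J N, ((k : ℝ) + 1)⁻¹ := by
  have hl : 0 < Real.log 2 := Real.log_pos one_lt_two
  have h1 : ∀ᶠ m : ℝ in atTop, (γ + 1) / Real.log 2 * Real.log m + 2 ≤ m ^ (1 / 2 : ℝ) / 2 := by
    have h2 := (isLittleO_log_rpow_atTop (r := 1 / 2) (by norm_num)).const_mul_left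
      ((γ + 1) / Real.log 2)
    filter_upwards [h2.bound (c := 1 / 4) (by norm_num), eventually_ge_atTop 0,
      (tendsto_rpow_atTop (y := 1 / 2) (by norm_num)).eventually_ge_atTop 8] with m h3 h4 h5
    rw [Real.norm_of_nonneg (Real.rpow_nonneg h4 _)] at h3
    linarith [(le_abs_self _).trans h3]
  obtain ⟨m0, hm0⟩ := eventually_atTop.1 h1
  filter_upwards [eventually_ge_atTop (D * (max m0 2 + 1)),
    eventually_ge_atTop (Real.exp (1 + 2 * Real.log (2 * D)))] with T hT1 hT2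
  have hD0 : 0 < D := by linarith
  have hT0 : 0 < T := (Real.exp_pos _).trans_le hT2
  set m := ⌊T / D⌋₊ with hm
  have h2 : (m : ℝ) ≤ T / D := Nat.floor_le (by positivity)
  have h3 : T / D < m + 1 := Nat.lt_floor_add_one _
  have h4 : max m0 2 + 1 ≤ T / D := by rwa [le_div_iff₀ hD0, mul_comm]
  have h5 : (2 : ℝ) ≤ m := by linarith [le_max_right m0 2]
  have h6 := hm0 m (by linarith [le_max_left m0 2])
  have hlm : 0 < Real.log m := Real.log_pos (by linarith)
  set J := ⌈(γ + 1) / Real.log 2 * Real.log m⌉₊ with hJ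
  have h7 : (J : ℝ) + 1 ≤ (m : ℝ) ^ (1 / 2 : ℝ) / 2 := by
    linarith [Nat.ceil_lt_add_one (show 0 ≤ (γ + 1) / Real.log 2 * Real.log m by positivity)]
  have h8 : (m : ℝ) ^ (1 / 2 : ℝ) ≤ m :=
    Real.rpow_le_self_of_one_le (by linarith) (by norm_num)
  have h9 : 2 * J + 2 ≤ m := by exact_mod_cast (show 2 * (J : ℝ) + 2 ≤ m by linarith)
  obtain ⟨N, hN⟩ : ∃ N, m = N + J + 1 := ⟨m - J - 1, by omega⟩
  have hN' : ((N + J : ℕ) : ℝ) + 1 = m := by rw [hN]; push_cast; ring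
  refine ⟨J, N, Nat.one_le_ceil_iff.2 (by positivity), ?_, ?_,
    le_trans ?_ (harmonic_lower J N (by omega))⟩
  · rw [hN']
    refine (Real.log_le_log_iff (by positivity) (by positivity)).1 ?_
    rw [Real.log_rpow (by linarith), Real.log_pow, ← div_le_iff₀ hl, mul_div_right_comm]
    exact Nat.le_ceil _
  · rwa [hN', mul_comm, ← le_div_iff₀ hD0]
  · have a1 : Real.log (m / 2) ≤ Real.log ((N : ℝ) + 1) := by
      refine Real.log_le_log (by positivity) ?_
      push_cast at hN'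
      linarith
    have a2 := Real.log_le_log (by positivity) h7
    have a3 : Real.log (T / (2 * D)) ≤ Real.log m := by
      refine Real.log_le_log (by positivity) ?_
      rw [mul_comm, ← div_div]
      linarith
    have a4 := (Real.le_log_iff_exp_le hT0).2 hT2
    rw [Real.log_div (by positivity) (by positivity)] at a1 a2 a3
    rw [Real.log_rpow (by linarith)] at a2
    linarith

theorem lower (n : ℕ) (hn : 1 ≤ n) (p p' : ℝ) (hp : 1 < p) (hp' : p' = p / (p - 1)) :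
    ∃ c : NNReal, 0 < c ∧ ∀ᶠ T : ℝ in atTop, ∃ w : (Fin n → ℝ) → ℝ, Measurable w ∧
      (∀ x, 0 < w x) ∧ LocallyIntegrable w volume ∧ AqConst p (fun x => ENNReal.ofReal (w x)) < ⊤ ∧
      0 < mixedConst p' (1 / p') (1 / p) (fun x => ENNReal.ofReal (w x) ^ (1 - p')) ∧
      mixedConst p' (1 / p') (1 / p) (fun x => ENNReal.ofReal (w x) ^ (1 - p')) < ⊤ ∧
      AqConst p' (fun x => ENNReal.ofReal (w x) ^ (1 - p')) ^ (1 / p') *
        (⨆ (Q : Set (Fin n → ℝ)) (_ : IsCube Q),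
          Ainf (fun x => ENNReal.ofReal (w x) ^ (1 - p')) Q) ^ (1 / p) ≤
        ENNReal.ofReal T *
          mixedConst p' (1 / p') (1 / p) (fun x => ENNReal.ofReal (w x) ^ (1 - p')) ∧
      c * ENNReal.ofReal ((1 + Real.log T) ^ (1 / p)) *
          mixedConst p' (1 / p') (1 / p) (fun x => ENNReal.ofReal (w x) ^ (1 - p')) ≤
        maxNorm p (fun x => ENNReal.ofReal (w x)) := by
  have hp0 : 0 < p := by linarith
  have hp1 : 0 < p - 1 := by linarith
  have hq : 0 ≤ 1 / p := by positivity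
  have hp2 : 0 < 1 / p' := by rw [hp']; positivity
  set γ : ℝ := 1 / (p - 1) with hγ
  have hγ0 : 0 ≤ γ := by positivity
  obtain ⟨C, hC1, hC⟩ := exists_poly_le_exp hγ0
  set D : ℝ≥0∞ := ENNReal.ofReal (2 * 2 ^ n * C) with hD
  have hDt : D ≠ ∞ := ENNReal.ofReal_ne_top
  have hcst : cst n p D 5 ≠ ⊤ := cst_ne_top hp hDt (by simp)
  set E : ℝ≥0∞ := D + (8 ^ n * 5 + D * 5) + 8 ^ n with hE
  have hEt : E ≠ ∞ := by rw [hE]; finiteness
  set R : ℝ≥0∞ := (cst n p D 5 + 1) * 2 ^ n * 4 with hR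
  have hRt : R ≠ ∞ := by rw [hR]; finiteness
  have hR0 : R ≠ 0 := by simp [hR]
  have hc : R⁻¹ ^ (1 / p) ≠ ∞ := ENNReal.rpow_ne_top_of_nonneg hq (ENNReal.inv_ne_top.2 hR0)
  refine ⟨(R⁻¹ ^ (1 / p)).toNNReal, ENNReal.toNNReal_pos
    (ENNReal.rpow_pos (ENNReal.inv_pos.2 hRt) (ENNReal.inv_ne_top.2 hR0)).ne' hc, ?_⟩
  rw [ENNReal.coe_toNNReal hc]
  filter_upwards [params hγ0 (D := E.toReal + 1) (by linarith [ENNReal.toReal_nonneg (a := E)]),
    eventually_ge_atTop 1] with T ⟨J, N, hJ1, hJK, hT, hB⟩ hT1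
  set K := N + J with hK
  have hG := good_sR hn hp hγ hC1 hC hJK
  set s : ℕ → ℝ≥0∞ := fun k => ENNReal.ofReal (sR n γ J K k) with hs
  set u : ℕ → ℝ≥0∞ := fun k => ENNReal.ofReal (sR n γ J K k ^ (1 - p)) with hu
  set W : ℝ≥0∞ := ENNReal.ofReal (((2 : ℝ) ^ J) ^ (p - 1)) with hW
  have hWt : W ≠ ⊤ := ENNReal.ofReal_ne_top
  have hus' : ∀ k, u k = s k ^ (1 - p) := fun k => by
    simp only [hu, hs]
    rw [ENNReal.ofReal_rpow_of_pos (sR_pos k)]
  have e1 : (1 - p) * (1 - p') = 1 := by rw [hp']; field_simp; ring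
  have e2 : (1 - p) * (-1 / (p - 1)) = 1 := by field_simp; ring
  have e3 : -1 / (p' - 1) = 1 - p := by
    have : p' - 1 = 1 / (p - 1) := by rw [hp']; field_simp; ring
    rw [this]; field_simp; ring
  have hus1 : ∀ k, u k ^ (1 - p') = s k := fun k => by
    rw [hus', ← ENNReal.rpow_mul, e1, ENNReal.rpow_one]
  have hus2 : ∀ k, u k ^ (-1 / (p - 1)) = s k := fun k => by
    rw [hus', ← ENNReal.rpow_mul, e2, ENNReal.rpow_one]
  have hus3 : ∀ k, s k ^ (-1 / (p' - 1)) = u k := fun k => by rw [hus', e3]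
  have hs0 : s 0 = 1 := by simp only [hs]; rw [sR_zero]; simp
  have hu0 : u 0 = 1 := by rw [hus', hs0]; simp
  have hσ : (fun x : Fin n → ℝ => ENNReal.ofReal (sR n γ J K (P.MP_2c43e6_an.lev x) ^ (1 - p)) ^
      (1 - p')) = fun x => s (P.MP_2c43e6_an.lev x) := funext fun x => hus1 _
  have hmix := hG.mixed_le hp hp' hus3
  have hmix1 : 1 ≤ mixedConst p' (1 / p') (1 / p)
      (fun x : Fin n → ℝ => s (P.MP_2c43e6_an.lev x)) := one_le_mixed hq hs0
  have hfin : (cst n p D 5 * W) ^ (1 / p) < ⊤ :=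
    ENNReal.rpow_lt_top_of_nonneg hq (ENNReal.mul_ne_top hcst hWt)
  refine ⟨fun x => sR n γ J K (P.MP_2c43e6_an.lev x) ^ (1 - p),
    (measurable_from_nat (f := fun k => sR n γ J K k ^ (1 - p))).comp measurable_lev,
    fun x => Real.rpow_pos_of_pos (sR_pos _) _, ?_,
    lt_of_le_of_lt (hG.Ap_le hp hus2) (ENNReal.mul_ne_top hcst hWt).lt_top, ?_⟩
  · apply locallyIntegrable_of_bounded (g := fun k => sR n γ J K k ^ (1 - p))
      (M := (((2 : ℝ) ^ (n * K))⁻¹) ^ (1 - p))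
    intro k
    rw [Real.norm_eq_abs, abs_of_pos (Real.rpow_pos_of_pos (sR_pos _) _)]
    apply Real.rpow_le_rpow_of_nonpos (by positivity) _ (by linarith)
    exact le_trans (le_max_right _ _) (le_max_right _ _)
  rw [hσ]
  refine ⟨zero_lt_one.trans_le hmix1, hmix.trans_lt hfin, ?_, ?_⟩
  · rw [mul_comm]
    refine mul_le_mul' ?_ ?_
    · have h1 : E * ((K : ℝ≥0∞) + 1) ≤ ENNReal.ofReal T := by
        rw [← ENNReal.ofReal_toReal hEt, ← ofReal_nat_succ,
          ← ENNReal.ofReal_mul ENNReal.toReal_nonneg]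
        refine ENNReal.ofReal_le_ofReal (le_trans ?_ hT)
        exact mul_le_mul_of_nonneg_right (by linarith) (by positivity)
      refine (ENNReal.rpow_le_rpow (iSup₂_le fun Q hQ => ?_) hq).trans
        ((ENNReal.rpow_le_rpow_of_exponent_le (ENNReal.one_le_ofReal.2 hT1)
          ((div_le_one hp0).2 hp.le)).trans_eq (ENNReal.rpow_one _))
      obtain ⟨x, -, hx⟩ := exists_max_lev hQ
      refine (hG.Ainf_le hQ.measurableSet hx).trans (le_trans (mul_le_mul_right ?_ _) h1)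
      exact add_le_add (Nat.cast_le.2 (min_le_right _ _)) le_rfl
    · simp only [AqConst, iSup_rpow hp2]
      refine iSup₂_mono fun Q hQ => le_mul_of_one_le_right bot_le ?_
      refine ENNReal.one_le_rpow (one_le_Ainf hQ (avg_ne_zero (measurable_comp_lev s)
        (.of_forall fun y => (ENNReal.ofReal_pos.2 (sR_pos _)).ne') hQ) ?_) (by positivity)
      exact ne_top_of_le_ne_top (ENNReal.mul_ne_top hDt ENNReal.ofReal_ne_top)
        (avg_le_of_forall_le hQ fun y _ => hG.h1 _ 0 bot_le)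
  · have hlow := le_maxNorm (n := n) hn hp hu0 (W := W) (Finset.Ico J N)
      (fun k hk => hJ1.trans (Finset.mem_Ico.1 hk).1) (fun k hk => by
        have h1 := Finset.mem_Ico.1 hk
        have h2 := congrArg ENNReal.ofReal
          (sR_h6 (n := n) (J := J) (K := K) hn hp hγ h1.1 (by omega))
        have := sR_pos (n := n) (γ := γ) (J := J) (K := K) k
        rw [ENNReal.ofReal_mul (by positivity), ENNReal.ofReal_mul (by positivity), ofReal_nat_succ,
          ← ENNReal.ofReal_rpow_of_pos (x := (2 : ℝ) ^ (n * k)) (by positivity),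
          ofReal_two_pow] at h2
        exact h2.le)
    have hlog : 0 ≤ 1 + Real.log T := by linarith [Real.log_nonneg hT1]
    refine le_trans (mul_le_mul_right hmix _) (le_trans ?_ hlow)
    rw [← ENNReal.ofReal_rpow_of_nonneg hlog hq, ← ENNReal.mul_rpow_of_nonneg _ _ hq,
      ← ENNReal.mul_rpow_of_nonneg _ _ hq]
    refine ENNReal.rpow_le_rpow ?_ hq
    have hB' : ENNReal.ofReal (1 + Real.log T) ≤ 4 * ∑ k ∈ Finset.Ico J N, ((k : ℝ≥0∞) + 1)⁻¹ := by
      rw [div_le_iff₀' (by norm_num)] at hB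
      refine (ENNReal.ofReal_le_ofReal hB).trans (le_of_eq ?_)
      rw [ENNReal.ofReal_mul (by norm_num), ENNReal.ofReal_ofNat,
        ENNReal.ofReal_sum_of_nonneg fun k _ => by positivity]
      refine congrArg _ (Finset.sum_congr rfl fun k _ => ?_)
      rw [ENNReal.ofReal_inv_of_pos (by positivity), ofReal_nat_succ]
    calc _ ≤ R⁻¹ * (4 * ∑ k ∈ Finset.Ico J N, ((k : ℝ≥0∞) + 1)⁻¹) * ((cst n p D 5 + 1) * W) :=
          mul_le_mul' (mul_le_mul_right hB' _) (mul_le_mul_left le_self_add _)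
      _ = (2 ^ n)⁻¹ * W * (∑ k ∈ Finset.Ico J N, ((k : ℝ≥0∞) + 1)⁻¹) * (R⁻¹ * R) := by
          have e := ENNReal.inv_mul_cancel (T_ne_zero n) (T_ne_top n)
          generalize R⁻¹ = r
          rw [hR]
          generalize cst n p D 5 + 1 = z
          calc _ = r * (4 * ∑ k ∈ Finset.Ico J N, ((k : ℝ≥0∞) + 1)⁻¹) * (z * W) *
              ((2 ^ n)⁻¹ * 2 ^ n) := by rw [e, mul_one]
            _ = _ := by ring
      _ = _ := by rw [ENNReal.inv_mul_cancel hR0 hRt, mul_one]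

end Pool.Agent.Ent
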