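import Pool.Agent.P.MP_2c43e6_an.Defs

namespace Pool.Agent.P.MP_2c43e6_an

open MeasureTheory Set
open scoped ENNReal

variable {n : ℕ}

/-- The cube of side `2 * 2^k` centred at the origin. -/
def box (n k : ℕ) : Set (Fin n → ℝ) :=
  Set.Icc (fun _ => -(2:ℝ)^k) (fun _ => -(2:ℝ)^k + 2 * 2^k)

lemma isCube_box (k : ℕ) : IsCube (box n k) :=
  ⟨fun _ => -(2:ℝ)^k, 2 * 2^k, by positivity, rfl⟩

lemma mem_box {k : ℕ} {x : Fin n → ℝ} : x ∈ box n k ↔ ‖x‖ ≤ (2:ℝ)^k := by
  rw [pi_norm_le_iff_of_nonneg (by positivity)]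
  simp only [box, Set.mem_Icc, Pi.le_def, Real.norm_eq_abs, abs_le]
  constructor
  · rintro ⟨h1, h2⟩ i
    exact ⟨h1 i, by have := h2 i; linarith⟩
  · intro h
    exact ⟨fun i => (h i).1, fun i => by have := (h i).2; linarith⟩

lemma measurableSet_box (k : ℕ) : MeasurableSet (box n k) := measurableSet_Icc

lemma volume_cube (a : Fin n → ℝ) (l : ℝ) :
    volume (Set.Icc a (fun i => a i + l)) = ENNReal.ofReal l ^ n := by
  rw [Real.volume_Icc_pi]
  simp

lemma volume_box (k : ℕ) : volume (box n k) = (2:ℝ≥0∞)^n * 2^(n*k) := by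
  unfold box
  rw [volume_cube (fun _ => -(2:ℝ)^k) (2 * 2^k)]
  rw [ENNReal.ofReal_mul (by norm_num), ENNReal.ofReal_pow (by norm_num)]
  simp only [ENNReal.ofReal_ofNat]
  rw [mul_pow, ← pow_mul, mul_comm k n]

lemma IsCube.measurableSet {Q : Set (Fin n → ℝ)} (h : IsCube Q) : MeasurableSet Q := by
  obtain ⟨a, l, -, rfl⟩ := h
  exact measurableSet_Icc

lemma IsCube.volume_ne_zero {Q : Set (Fin n → ℝ)} (h : IsCube Q) : volume Q ≠ 0 := by
  obtain ⟨a, l, hl, rfl⟩ := h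
  rw [volume_cube]
  exact pow_ne_zero _ (by simpa using hl)

lemma IsCube.volume_ne_top {Q : Set (Fin n → ℝ)} (h : IsCube Q) : volume Q ≠ ⊤ := by
  obtain ⟨a, l, hl, rfl⟩ := h
  rw [volume_cube]
  exact ENNReal.pow_ne_top ENNReal.ofReal_ne_top

lemma norm_sub_le_of_mem_cube {a : Fin n → ℝ} {l : ℝ} (hl : 0 < l) {x y : Fin n → ℝ}
    (hx : x ∈ Set.Icc a (fun i => a i + l)) (hy : y ∈ Set.Icc a (fun i => a i + l)) :
    ‖x - y‖ ≤ l := by
  rw [pi_norm_le_iff_of_nonneg hl.le]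
  intro i
  have h1 := hx.1 i
  have h2 := hx.2 i
  have h3 := hy.1 i
  have h4 := hy.2 i
  simp only at h2 h4
  rw [Pi.sub_apply, Real.norm_eq_abs, abs_le]
  constructor <;> linarith

lemma exists_level (x : Fin n → ℝ) : ∃ k : ℕ, ‖x‖ ≤ (2:ℝ)^k := by
  obtain ⟨k, hk⟩ := pow_unbounded_of_one_lt ‖x‖ (by norm_num : (1:ℝ) < 2)
  exact ⟨k, hk.le⟩

open Classical in
/-- The dyadic level of a point. -/
noncomputable def lev (x : Fin n → ℝ) : ℕ := Nat.find (exists_level x)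

lemma lev_le_iff {x : Fin n → ℝ} {k : ℕ} : lev x ≤ k ↔ ‖x‖ ≤ (2:ℝ)^k := by
  classical
  unfold lev
  rw [Nat.find_le_iff]
  constructor
  · rintro ⟨m, hm, h⟩
    exact h.trans (pow_le_pow_right₀ (by norm_num) hm)
  · intro h
    exact ⟨k, le_rfl, h⟩

lemma lev_le_iff_mem {x : Fin n → ℝ} {k : ℕ} : lev x ≤ k ↔ x ∈ box n k := by
  rw [lev_le_iff, mem_box]

lemma measurable_lev : Measurable (lev : (Fin n → ℝ) → ℕ) := by
  apply measurable_of_Iic
  intro k
  have : (lev : (Fin n → ℝ) → ℕ) ⁻¹' Iic k = box n k := by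
    ext x
    simp [lev_le_iff_mem]
  rw [this]
  exact measurableSet_box k

lemma measurable_comp_lev (g : ℕ → ℝ≥0∞) : Measurable (fun x : Fin n → ℝ => g (lev x)) :=
  (measurable_from_nat (f := g)).comp measurable_lev

/-- In a small cube the level drops by at most one. -/
lemma lev_le_succ_of_small {a : Fin n → ℝ} {l : ℝ} (hl : 0 < l) {x y : Fin n → ℝ}
    (hx : x ∈ Set.Icc a (fun i => a i + l)) (hy : y ∈ Set.Icc a (fun i => a i + l))
    (hsmall : l ≤ (2:ℝ)^(lev x) / 4) : lev x ≤ lev y + 1 := by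
  by_contra hcon
  push Not at hcon
  obtain ⟨d, hd⟩ : ∃ d, lev x = d + 2 := ⟨lev x - 2, by omega⟩
  have h1 : ‖y‖ ≤ (2:ℝ)^d := lev_le_iff.1 (by omega)
  have h2 : ¬ ‖x‖ ≤ (2:ℝ)^(d+1) := by
    rw [← lev_le_iff]; omega
  have h3 := norm_sub_le_of_mem_cube hl hx hy
  have h4 : ‖x‖ ≤ ‖x - y‖ + ‖y‖ := by
    simpa using norm_add_le (x - y) y
  rw [hd] at hsmall
  apply h2
  have : (2:ℝ)^(d+2) / 4 = 2^d := by ring
  rw [this] at hsmall
  have : (2:ℝ)^(d+1) = 2^d + 2^d := by ring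
  linarith

/-- A big cube has big volume. -/
lemma volume_big {a : Fin n → ℝ} {l : ℝ} {k : ℕ} (hbig : (2:ℝ)^k / 4 < l) :
    (2:ℝ≥0∞)^(n*k) ≤ 4^n * volume (Set.Icc a (fun i => a i + l)) := by
  rw [volume_cube, ← mul_pow, mul_comm n k, pow_mul]
  gcongr
  have : (2:ℝ≥0∞)^k = ENNReal.ofReal (2^k) := by
    rw [ENNReal.ofReal_pow (by norm_num)]; simp
  rw [this]
  have h4 : (4:ℝ≥0∞) = ENNReal.ofReal 4 := by simp
  rw [h4, ← ENNReal.ofReal_mul (by norm_num)]
  apply ENNReal.ofReal_le_ofReal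
  linarith

/-- Upper bound for the integral of a function of the level over a box. -/
lemma lintegral_box_le (g : ℕ → ℝ≥0∞) (j : ℕ) :
    ∫⁻ x in box n j, g (lev x) ≤ ∑ k ∈ Finset.range (j+1), g k * (2^n * 2^(n*k)) := by
  have h1 : ∀ x : Fin n → ℝ, (box n j).indicator (fun x => g (lev x)) x ≤
      ∑ k ∈ Finset.range (j+1), (box n k).indicator (fun _ => g k) x := by
    intro x
    by_cases hx : x ∈ box n j
    · rw [indicator_of_mem hx]
      have hl : lev x ∈ Finset.range (j+1) := by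
        rw [Finset.mem_range, Nat.lt_succ_iff]; exact lev_le_iff_mem.2 hx
      refine le_trans ?_ (Finset.single_le_sum (f := fun k => (box n k).indicator (fun _ => g k) x)
        (fun _ _ => bot_le) hl)
      rw [indicator_of_mem (lev_le_iff_mem.1 le_rfl)]
    · rw [indicator_of_notMem hx]; exact bot_le
  rw [← lintegral_indicator (measurableSet_box j)]
  refine (lintegral_mono h1).trans ?_
  rw [lintegral_finsetSum]
  · apply le_of_eq
    apply Finset.sum_congr rfl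
    intro k _
    rw [lintegral_indicator_const (measurableSet_box k), volume_box]
  · intro k _
    exact measurable_const.indicator (measurableSet_box k)

lemma volume_shell (hn : 1 ≤ n) (k : ℕ) (hk : 1 ≤ k) :
    (2:ℝ≥0∞)^(n*k) ≤ volume {x : Fin n → ℝ | lev x = k} := by
  obtain ⟨d, rfl⟩ : ∃ d, k = d + 1 := ⟨k - 1, by omega⟩
  have h1 : box n (d+1) ⊆ box n d ∪ {x : Fin n → ℝ | lev x = d + 1} := by
    intro x hx
    rw [← lev_le_iff_mem] at hx
    by_cases h : lev x ≤ d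
    · left; exact lev_le_iff_mem.1 h
    · right; simp only [mem_ofPred_eq]; omega
  have h2 := (measure_mono (μ := volume) h1).trans (measure_union_le _ _)
  rw [volume_box, volume_box] at h2
  have h3 : (2:ℝ≥0∞)^n * 2^(n*d) = 2^(n*(d+1)) := by rw [← pow_add]; congr 1; ring
  rw [h3] at h2
  have h4 : (2:ℝ≥0∞)^(n*(d+1)) + 2^(n*(d+1)) ≤ 2^n * 2^(n*(d+1)) := by
    rw [← two_mul]
    gcongr
    calc (2:ℝ≥0∞) = 2^1 := by simp
      _ ≤ 2^n := pow_le_pow_right₀ (by norm_num) hn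
  have h5 := h4.trans h2
  exact (ENNReal.add_le_add_iff_left (ENNReal.pow_ne_top (by simp))).1 h5

/-- Lower bound for the integral of a function of the level. -/
lemma le_lintegral_lev (hn : 1 ≤ n) (g : ℕ → ℝ≥0∞) (s : Finset ℕ) (hs : ∀ k ∈ s, 1 ≤ k) :
    ∑ k ∈ s, g k * 2^(n*k) ≤ ∫⁻ x : Fin n → ℝ, g (lev x) := by
  have hm : ∀ k : ℕ, MeasurableSet {x : Fin n → ℝ | lev x = k} := fun k =>
    measurable_lev (measurableSet_singleton k)
  have h1 : ∀ x : Fin n → ℝ,
      ∑ k ∈ s, {x : Fin n → ℝ | lev x = k}.indicator (fun _ => g k) x ≤ g (lev x) := by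
    intro x
    classical
    have : ∀ k ∈ s, {x : Fin n → ℝ | lev x = k}.indicator (fun _ => g k) x =
        if lev x = k then g k else 0 := by
      intro k _
      simp [Set.indicator_apply]
    rw [Finset.sum_congr rfl this, Finset.sum_ite_eq]
    split_ifs <;> simp
  refine le_trans ?_ (lintegral_mono h1)
  rw [lintegral_finsetSum]
  · apply Finset.sum_le_sum
    intro k hk
    rw [lintegral_indicator_const (hm k)]
    gcongr
    exact volume_shell hn k (hs k hk)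
  · intro k _
    exact measurable_const.indicator (hm k)

/-- Every cube has a point of maximal level. -/
lemma exists_max_lev {Q : Set (Fin n → ℝ)} (h : IsCube Q) :
    ∃ x₀ ∈ Q, ∀ y ∈ Q, lev y ≤ lev x₀ := by
  obtain ⟨a, l, hl, rfl⟩ := h
  have ha : a ∈ Set.Icc a (fun i => a i + l) := ⟨le_rfl, fun i => by simp [hl.le]⟩
  have hc : IsCompact (Set.Icc a (fun i => a i + l)) := isCompact_Icc
  obtain ⟨x₀, hx₀, hmax⟩ := hc.exists_isMaxOn ⟨a, ha⟩ (continuous_norm.continuousOn)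
  refine ⟨x₀, hx₀, fun y hy => ?_⟩
  rw [lev_le_iff]
  exact (hmax hy).trans (lev_le_iff.1 le_rfl)

end Pool.Agent.P.MP_2c43e6_an
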