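import Pool.Agent.P.MP_2c43e6_an.Upper

namespace Pool.Agent.P.MP_2c43e6_an

open MeasureTheory Set
open scoped ENNReal

variable {n : ℕ}

lemma lev_eq_zero_of_mem {x : Fin n → ℝ} (hx : x ∈ box n 0) : lev x = 0 :=
  Nat.le_zero.1 (lev_le_iff_mem.2 hx)

lemma volume_box_zero : volume (box n 0) = (2:ℝ≥0∞)^n := by
  rw [volume_box]; simp

/-- Lower bound for the operator norm, by testing on the indicator of the unit box. -/
lemma le_maxNorm (hn : 1 ≤ n) {p : ℝ} (hp : 1 < p) {u : ℕ → ℝ≥0∞} (hu0 : u 0 = 1) {W : ℝ≥0∞}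
    (I : Finset ℕ) (hI : ∀ k ∈ I, 1 ≤ k)
    (h6 : ∀ k ∈ I, W * ((2:ℝ≥0∞)^(n*k)) ^ (p - 1) ≤ u k * ((k:ℝ≥0∞) + 1)) :
    (((2:ℝ≥0∞)^n)⁻¹ * W * ∑ k ∈ I, ((k:ℝ≥0∞) + 1)⁻¹) ^ (1 / p) ≤
      maxNorm p (fun x : Fin n → ℝ => u (lev x)) := by
  have hp0 : 0 < p := by linarith
  set c : ℝ := ((2:ℝ)^n) ^ (-1 / p) with hc
  have hcpos : 0 < c := by positivity
  set cE : ℝ≥0∞ := ENNReal.ofReal c with hcE
  have hcp : cE ^ p = ((2:ℝ≥0∞)^n)⁻¹ := by
    rw [hcE, ENNReal.ofReal_rpow_of_pos hcpos, hc, ← Real.rpow_mul (by positivity)]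
    have : -1 / p * p = -1 := by field_simp
    rw [this, Real.rpow_neg_one, ENNReal.ofReal_inv_of_pos (by positivity),
      ENNReal.ofReal_pow (by norm_num)]
    simp
  set f : (Fin n → ℝ) → ℝ := (box n 0).indicator (fun _ => c) with hf
  have hfm : Measurable f := measurable_const.indicator (measurableSet_box 0)
  have hfe : (fun y => ‖f y‖ₑ) = (box n 0).indicator (fun _ => cE) := by
    funext y
    by_cases hy : y ∈ box n 0
    · simp only [hf, indicator_of_mem hy, hcE]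
      rw [Real.enorm_eq_ofReal hcpos.le]
    · simp [hf, indicator_of_notMem hy]
  have hnorm : (∫⁻ x, ‖f x‖ₑ ^ p * u (lev x)) ^ (1 / p) = 1 := by
    have : (fun x => ‖f x‖ₑ ^ p * u (lev x)) =
        (box n 0).indicator (fun _ => ((2:ℝ≥0∞)^n)⁻¹) := by
      funext x
      have h1 := congrFun hfe x
      rw [h1]
      by_cases hx : x ∈ box n 0
      · simp only [indicator_of_mem hx]
        rw [lev_eq_zero_of_mem hx, hu0, mul_one, hcp]
      · simp only [indicator_of_notMem hx]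
        rw [ENNReal.zero_rpow_of_pos hp0, zero_mul]
    rw [this, lintegral_indicator_const (measurableSet_box 0), volume_box_zero,
      ENNReal.inv_mul_cancel (T_ne_zero _) (T_ne_top _), ENNReal.one_rpow]
  have hM : ∀ x : Fin n → ℝ, cE * ((2:ℝ≥0∞)^(n * lev x))⁻¹ ≤ maxFun (fun y => ‖f y‖ₑ) x := by
    intro x
    unfold maxFun
    refine le_trans ?_ (le_iSup₂_of_le (box n (lev x)) (isCube_box _)
      (le_iSup_of_le (lev_le_iff_mem.1 le_rfl) le_rfl))
    rw [hfe]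
    unfold avg
    have hsub : box n 0 ∩ box n (lev x) = box n 0 := by
      apply inter_eq_left.2
      intro y hy
      rw [← lev_le_iff_mem] at hy ⊢
      omega
    rw [lintegral_indicator (measurableSet_box 0), Measure.restrict_restrict (measurableSet_box 0),
      hsub, setLIntegral_const, volume_box_zero, volume_box]
    rw [ENNReal.le_div_iff_mul_le (Or.inl (mul_ne_zero (T_ne_zero _) (T_ne_zero _)))
      (Or.inl (ENNReal.mul_ne_top (T_ne_top _) (T_ne_top _)))]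
    apply le_of_eq
    calc cE * ((2:ℝ≥0∞)^(n * lev x))⁻¹ * (2^n * 2^(n * lev x))
        = cE * 2^n * (((2:ℝ≥0∞)^(n * lev x))⁻¹ * 2^(n * lev x)) := by ring
      _ = cE * 2^n := by rw [ENNReal.inv_mul_cancel (T_ne_zero _) (T_ne_top _), mul_one]
  unfold maxNorm
  refine le_trans ?_ (le_iSup₂_of_le f hfm (le_iSup_of_le hnorm le_rfl))
  apply ENNReal.rpow_le_rpow _ (by positivity)
  set g : ℕ → ℝ≥0∞ := fun k => (cE * ((2:ℝ≥0∞)^(n * k))⁻¹) ^ p * u k with hg
  calc ((2:ℝ≥0∞)^n)⁻¹ * W * ∑ k ∈ I, ((k:ℝ≥0∞) + 1)⁻¹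
      = ∑ k ∈ I, ((2:ℝ≥0∞)^n)⁻¹ * W * ((k:ℝ≥0∞) + 1)⁻¹ := by rw [Finset.mul_sum]
    _ ≤ ∑ k ∈ I, g k * 2^(n*k) := by
        apply Finset.sum_le_sum
        intro k hk
        set T : ℝ≥0∞ := (2:ℝ≥0∞)^(n*k) with hT
        have hT0 : T ≠ 0 := T_ne_zero _
        have hTt : T ≠ ⊤ := T_ne_top _
        have hk0 : ((k:ℝ≥0∞) + 1) ≠ 0 := by simp
        have hkt : ((k:ℝ≥0∞) + 1) ≠ ⊤ := by simp
        have e1 : T⁻¹ ^ p * T * T ^ (p - 1) = 1 := by
          have : T * T ^ (p - 1) = T ^ p := by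
            conv_lhs => rw [← ENNReal.rpow_one T, ← ENNReal.rpow_mul, one_mul]
            rw [ENNReal.rpow_one]
            nth_rewrite 1 [← ENNReal.rpow_one T]
            rw [← ENNReal.rpow_add _ _ hT0 hTt]
            congr 1; ring
          rw [mul_assoc, this, ← ENNReal.mul_rpow_of_nonneg _ _ hp0.le,
            ENNReal.inv_mul_cancel hT0 hTt, ENNReal.one_rpow]
        calc ((2:ℝ≥0∞)^n)⁻¹ * W * ((k:ℝ≥0∞) + 1)⁻¹
            = ((2:ℝ≥0∞)^n)⁻¹ * W * ((k:ℝ≥0∞) + 1)⁻¹ * (T⁻¹ ^ p * T * T ^ (p - 1)) := by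
              rw [e1, mul_one]
          _ = ((2:ℝ≥0∞)^n)⁻¹ * ((k:ℝ≥0∞) + 1)⁻¹ * (T⁻¹ ^ p * T) * (W * T ^ (p - 1)) := by ring
          _ ≤ ((2:ℝ≥0∞)^n)⁻¹ * ((k:ℝ≥0∞) + 1)⁻¹ * (T⁻¹ ^ p * T) * (u k * ((k:ℝ≥0∞) + 1)) :=
              mul_le_mul_right (h6 k hk) _
          _ = ((2:ℝ≥0∞)^n)⁻¹ * T⁻¹ ^ p * u k * T * (((k:ℝ≥0∞) + 1)⁻¹ * ((k:ℝ≥0∞) + 1)) := by ring
          _ = g k * T := by
              rw [ENNReal.inv_mul_cancel hk0 hkt, mul_one, hg]
              simp only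
              rw [ENNReal.mul_rpow_of_nonneg _ _ hp0.le, hcp]
    _ ≤ ∫⁻ x : Fin n → ℝ, g (lev x) := le_lintegral_lev hn g I hI
    _ ≤ _ := by
        apply lintegral_mono
        intro x
        simp only [hg]
        gcongr
        exact hM x

section
variable {p : ℝ} {s u : ℕ → ℝ≥0∞} {D S W : ℝ≥0∞} {K : ℕ}

/-- The constant in the upper bounds. -/
noncomputable def cst (n : ℕ) (p : ℝ) (D S : ℝ≥0∞) : ℝ≥0∞ :=
  (D ^ (p-1) * D ^ (p-1) + (8^n * S) ^ (p-1) * D ^ (p-1) + (8^n * S + D * S) ^ (p-1)) *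
    (D + (8^n * S + D * S) + 8^n)

lemma cst_ne_top (hp : 1 < p) (hD : D ≠ ⊤) (hS : S ≠ ⊤) : cst n p D S ≠ ⊤ := by
  have hp' : 0 ≤ p - 1 := by linarith
  have h8 : (8:ℝ≥0∞)^n ≠ ⊤ := ENNReal.pow_ne_top (by simp)
  unfold cst
  finiteness

lemma Good.Ap_le (h : Good n p s u D S W K) (hp : 1 < p)
    (hus : ∀ k, u k ^ (-1 / (p - 1)) = s k) :
    AqConst p (fun x : Fin n → ℝ => u (lev x)) ≤ cst n p D S * W := by
  unfold AqConst
  refine iSup_le fun Q => iSup_le fun hQ => ?_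
  obtain ⟨j, -, hj⟩ := h.key hp hQ
  unfold Aq
  simp only [hus]
  calc _ = avg (fun y => s (lev y)) Q ^ (p - 1) * avg (fun y => u (lev y)) Q * 1 := by ring
    _ ≤ avg (fun y => s (lev y)) Q ^ (p - 1) * avg (fun y => u (lev y)) Q *
        (((min j K : ℕ) : ℝ≥0∞) + 1) := mul_le_mul_right le_add_self _
    _ ≤ _ := hj
    _ ≤ _ := by
      unfold cst
      gcongr
      apply le_mul_of_one_le_right bot_le
      refine le_trans ?_ le_add_self
      exact one_le_pow₀ (by norm_num)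

lemma Good.mixed_le (h : Good n p s u D S W K) (hp : 1 < p) {p' : ℝ} (hp' : p' = p / (p - 1))
    (hsu : ∀ k, s k ^ (-1 / (p' - 1)) = u k) :
    mixedConst p' (1 / p') (1 / p) (fun x : Fin n → ℝ => s (lev x)) ≤
      (cst n p D S * W) ^ (1 / p) := by
  have hp0 : 0 < p := by linarith
  have hp1 : 0 < p - 1 := by linarith
  have hp'0 : 0 < p' := by rw [hp']; positivity
  unfold mixedConst
  refine iSup_le fun Q => iSup_le fun hQ => ?_
  obtain ⟨j, hjQ, hj⟩ := h.key hp hQ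
  have hA := h.Ainf_le hQ.measurableSet hjQ
  unfold Aq
  simp only [hsu]
  have e1 : (1 / p') = (p - 1) * (1 / p) := by rw [hp']; field_simp
  have e2 : (p' - 1) * (1 / p') = 1 / p := by rw [hp']; field_simp; ring
  rw [ENNReal.mul_rpow_of_nonneg _ _ (by positivity), ← ENNReal.rpow_mul, e2, e1,
    ENNReal.rpow_mul, ← ENNReal.mul_rpow_of_nonneg _ _ (by positivity),
    ← ENNReal.mul_rpow_of_nonneg _ _ (by positivity)]
  apply ENNReal.rpow_le_rpow _ (by positivity)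
  calc _ ≤ avg (fun y => s (lev y)) Q ^ (p - 1) * avg (fun y => u (lev y)) Q *
        ((D + (8^n * S + D * S) + 8^n) * (((min j K : ℕ) : ℝ≥0∞) + 1)) := mul_le_mul_right hA _
    _ = avg (fun y => s (lev y)) Q ^ (p - 1) * avg (fun y => u (lev y)) Q *
        (((min j K : ℕ) : ℝ≥0∞) + 1) * (D + (8^n * S + D * S) + 8^n) := by ring
    _ ≤ _ * (D + (8^n * S + D * S) + 8^n) := mul_le_mul_left hj _
    _ = _ := by unfold cst; ring

lemma avg_box_zero (g : ℕ → ℝ≥0∞) : avg (fun x : Fin n → ℝ => g (lev x)) (box n 0) = g 0 := by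
  unfold avg
  rw [setLIntegral_congr_fun (measurableSet_box 0) (g := fun _ => g 0)
    (fun x hx => by simp only [lev_eq_zero_of_mem hx]), setLIntegral_const]
  exact ENNReal.mul_div_cancel_right (isCube_box 0).volume_ne_zero (isCube_box 0).volume_ne_top

lemma one_le_mixed {q α β : ℝ} (hβ : 0 ≤ β) (hs0 : s 0 = 1) :
    1 ≤ mixedConst q α β (fun x : Fin n → ℝ => s (lev x)) := by
  unfold mixedConst
  refine le_iSup₂_of_le (box n 0) (isCube_box 0) ?_
  have h1 : Aq q (fun x : Fin n → ℝ => s (lev x)) (box n 0) = 1 := by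
    unfold Aq
    rw [avg_box_zero s, avg_box_zero (fun k => s k ^ (-1 / (q - 1))), hs0]
    simp
  have h2 : 1 ≤ Ainf (fun x : Fin n → ℝ => s (lev x)) (box n 0) := by
    unfold Ainf
    have h3 : ∫⁻ x in box n 0, s (lev x) = volume (box n 0) := by
      rw [setLIntegral_congr_fun (measurableSet_box 0) (g := fun _ => 1)
        (fun x hx => by simp only [lev_eq_zero_of_mem hx, hs0]), setLIntegral_const, one_mul]
    rw [h3, ENNReal.le_div_iff_mul_le (Or.inl (isCube_box 0).volume_ne_zero)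
      (Or.inl (isCube_box 0).volume_ne_top), ← setLIntegral_const]
    apply setLIntegral_mono' (measurableSet_box 0)
    intro x hx
    unfold maxFun
    refine le_iSup₂_of_le (box n 0) (isCube_box 0) (le_iSup_of_le hx ?_)
    unfold avg
    rw [lintegral_indicator (measurableSet_box 0), Measure.restrict_restrict (measurableSet_box 0),
      inter_self, h3, ENNReal.div_self (isCube_box 0).volume_ne_zero (isCube_box 0).volume_ne_top]
  rw [h1, ENNReal.one_rpow, one_mul]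
  calc (1:ℝ≥0∞) = 1 ^ β := (ENNReal.one_rpow β).symm
    _ ≤ _ := ENNReal.rpow_le_rpow h2 hβ

end

end Pool.Agent.P.MP_2c43e6_an
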