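import Pool.Agent.K.MP_2c43e6_an.C0
import Pool.Agent.P.MP_2c43e6_an.EntC

/-! The shell example with a general profile in place of `k + 1`. -/

set_option autoImplicit false

namespace Pool.Agent.LogP

open MeasureTheory Set Pool.Agent.P.MP_2c43e6_an
open scoped ENNReal

variable {n : ℕ}

theorem lp_one_le_Ainf {σ : (Fin n → ℝ) → ℝ≥0∞} {Q : Set (Fin n → ℝ)} (hQ : IsCube Q)
    (h0 : avg σ Q ≠ 0) (h1 : avg σ Q ≠ ∞) : 1 ≤ Ainf σ Q := by
  have e : avg σ Q * volume Q = ∫⁻ x in Q, σ x :=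
    ENNReal.div_mul_cancel hQ.volume_ne_zero hQ.volume_ne_top
  rw [Ainf, ENNReal.le_div_iff_mul_le (Or.inl (e ▸ mul_ne_zero h0 hQ.volume_ne_zero))
    (Or.inl (e ▸ ENNReal.mul_ne_top h1 hQ.volume_ne_top)), one_mul, ← e, ← setLIntegral_const]
  refine setLIntegral_mono' hQ.measurableSet fun x hx => ?_
  refine le_iSup₂_of_le Q hQ (le_iSup_of_le hx (le_of_eq ?_))
  rw [avg, avg, setLIntegral_congr_fun (f := σ) (g := Q.indicator σ) hQ.measurableSet
    fun z hz => (indicator_of_mem hz σ).symm]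

theorem lp_le_maxNorm (hn : 1 ≤ n) {p : ℝ} (hp : 1 < p) {u : ℕ → ℝ≥0∞} (hu0 : u 0 = 1) {W : ℝ≥0∞}
    {gE : ℕ → ℝ≥0∞} (hg0 : ∀ k, gE k ≠ 0) (hgt : ∀ k, gE k ≠ ⊤)
    (I : Finset ℕ) (hI : ∀ k ∈ I, 1 ≤ k)
    (h6 : ∀ k ∈ I, W * ((2:ℝ≥0∞)^(n*k)) ^ (p - 1) ≤ u k * gE k) :
    (((2:ℝ≥0∞)^n)⁻¹ * W * ∑ k ∈ I, (gE k)⁻¹) ^ (1 / p) ≤
      maxNorm p (fun x : Fin n → ℝ => u (lev x)) := by
  have hp0 : 0 < p := by linarith
  set c : ℝ := ((2:ℝ)^n) ^ (-1 / p) with hc
  have hcpos : 0 < c := by positivity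
  set cE : ℝ≥0∞ := ENNReal.ofReal c with hcE
  have hcp : cE ^ p = ((2:ℝ≥0∞)^n)⁻¹ := by
    rw [hcE, ENNReal.ofReal_rpow_of_pos hcpos, hc, ← Real.rpow_mul (by positivity)]
    have : -1 / p * p = -1 := by field_simp
    rw [this, Real.rpow_neg_one, ENNReal.ofReal_inv_of_pos (by positivity),
      ENNReal.ofReal_pow (by norm_num)]
    simp
  set f : (Fin n → ℝ) → ℝ := (box n 0).indicator (fun _ => c) with hf
  have hfm : Measurable f := measurable_const.indicator (measurableSet_box 0)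
  have hfe : (fun y => ‖f y‖ₑ) = (box n 0).indicator (fun _ => cE) := by
    funext y
    by_cases hy : y ∈ box n 0
    · simp only [hf, indicator_of_mem hy, hcE]
      rw [Real.enorm_eq_ofReal hcpos.le]
    · simp [hf, indicator_of_notMem hy]
  have hnorm : (∫⁻ x, ‖f x‖ₑ ^ p * u (lev x)) ^ (1 / p) = 1 := by
    have : (fun x => ‖f x‖ₑ ^ p * u (lev x)) =
        (box n 0).indicator (fun _ => ((2:ℝ≥0∞)^n)⁻¹) := by
      funext x
      have h1 := congrFun hfe x
      rw [h1]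
      by_cases hx : x ∈ box n 0
      · simp only [indicator_of_mem hx]
        rw [lev_eq_zero_of_mem hx, hu0, mul_one, hcp]
      · simp only [indicator_of_notMem hx]
        rw [ENNReal.zero_rpow_of_pos hp0, zero_mul]
    rw [this, lintegral_indicator_const (measurableSet_box 0), volume_box_zero,
      ENNReal.inv_mul_cancel (T_ne_zero _) (T_ne_top _), ENNReal.one_rpow]
  have hM : ∀ x : Fin n → ℝ, cE * ((2:ℝ≥0∞)^(n * lev x))⁻¹ ≤ maxFun (fun y => ‖f y‖ₑ) x := by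
    intro x
    unfold maxFun
    refine le_trans ?_ (le_iSup₂_of_le (box n (lev x)) (isCube_box _)
      (le_iSup_of_le (lev_le_iff_mem.1 le_rfl) le_rfl))
    rw [hfe]
    unfold avg
    have hsub : box n 0 ∩ box n (lev x) = box n 0 := by
      apply inter_eq_left.2
      intro y hy
      rw [← lev_le_iff_mem] at hy ⊢
      omega
    rw [lintegral_indicator (measurableSet_box 0), Measure.restrict_restrict (measurableSet_box 0),
      hsub, setLIntegral_const, volume_box_zero, volume_box]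
    rw [ENNReal.le_div_iff_mul_le (Or.inl (mul_ne_zero (T_ne_zero _) (T_ne_zero _)))
      (Or.inl (ENNReal.mul_ne_top (T_ne_top _) (T_ne_top _)))]
    apply le_of_eq
    calc cE * ((2:ℝ≥0∞)^(n * lev x))⁻¹ * (2^n * 2^(n * lev x))
        = cE * 2^n * (((2:ℝ≥0∞)^(n * lev x))⁻¹ * 2^(n * lev x)) := by ring
      _ = cE * 2^n := by rw [ENNReal.inv_mul_cancel (T_ne_zero _) (T_ne_top _), mul_one]
  unfold maxNorm
  refine le_trans ?_ (le_iSup₂_of_le f hfm (le_iSup_of_le hnorm le_rfl))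
  apply ENNReal.rpow_le_rpow _ (by positivity)
  set g : ℕ → ℝ≥0∞ := fun k => (cE * ((2:ℝ≥0∞)^(n * k))⁻¹) ^ p * u k with hg
  calc ((2:ℝ≥0∞)^n)⁻¹ * W * ∑ k ∈ I, (gE k)⁻¹
      = ∑ k ∈ I, ((2:ℝ≥0∞)^n)⁻¹ * W * (gE k)⁻¹ := by rw [Finset.mul_sum]
    _ ≤ ∑ k ∈ I, g k * 2^(n*k) := by
        apply Finset.sum_le_sum
        intro k hk
        set T : ℝ≥0∞ := (2:ℝ≥0∞)^(n*k) with hT
        have hT0 : T ≠ 0 := T_ne_zero _
        have hTt : T ≠ ⊤ := T_ne_top _
        have hk0 : gE k ≠ 0 := hg0 k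
        have hkt : gE k ≠ ⊤ := hgt k
        have e1 : T⁻¹ ^ p * T * T ^ (p - 1) = 1 := by
          have : T * T ^ (p - 1) = T ^ p := by
            conv_lhs => rw [← ENNReal.rpow_one T, ← ENNReal.rpow_mul, one_mul]
            rw [ENNReal.rpow_one]
            nth_rewrite 1 [← ENNReal.rpow_one T]
            rw [← ENNReal.rpow_add _ _ hT0 hTt]
            congr 1; ring
          rw [mul_assoc, this, ← ENNReal.mul_rpow_of_nonneg _ _ hp0.le,
            ENNReal.inv_mul_cancel hT0 hTt, ENNReal.one_rpow]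
        calc ((2:ℝ≥0∞)^n)⁻¹ * W * (gE k)⁻¹
            = ((2:ℝ≥0∞)^n)⁻¹ * W * (gE k)⁻¹ * (T⁻¹ ^ p * T * T ^ (p - 1)) := by
              rw [e1, mul_one]
          _ = ((2:ℝ≥0∞)^n)⁻¹ * (gE k)⁻¹ * (T⁻¹ ^ p * T) * (W * T ^ (p - 1)) := by ring
          _ ≤ ((2:ℝ≥0∞)^n)⁻¹ * (gE k)⁻¹ * (T⁻¹ ^ p * T) * (u k * gE k) :=
              mul_le_mul_right (h6 k hk) _
          _ = ((2:ℝ≥0∞)^n)⁻¹ * T⁻¹ ^ p * u k * T * ((gE k)⁻¹ * gE k) := by ring
          _ = g k * T := by
              rw [ENNReal.inv_mul_cancel hk0 hkt, mul_one, hg]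
              simp only
              rw [ENNReal.mul_rpow_of_nonneg _ _ hp0.le, hcp]
    _ ≤ ∫⁻ x : Fin n → ℝ, g (lev x) := le_lintegral_lev hn g I hI
    _ ≤ _ := by
        apply lintegral_mono
        intro x
        simp only [hg]
        gcongr
        exact hM x

theorem lp_key {p : ℝ} {s u : ℕ → ℝ≥0∞} {D S W : ℝ≥0∞} {K : ℕ} (h : Good n p s u D S W K)
    (hp : 1 < p) {gE : ℕ → ℝ≥0∞}
    (h4 : ∀ k, u k * gE k ≤ W * ((2:ℝ≥0∞)^(n*k)) ^ (p - 1)) (h5 : ∀ k, k ≤ K → gE k ≤ W)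
    {Q : Set (Fin n → ℝ)} (hQ : IsCube Q) :
    ∃ j : ℕ, (∀ y ∈ Q, lev y ≤ j) ∧
      avg (fun y => s (lev y)) Q ^ (p - 1) * avg (fun y => u (lev y)) Q *
        gE (min j K) ≤
      (D ^ (p-1) * D ^ (p-1) + (8^n * S) ^ (p-1) * D ^ (p-1) + (8^n * S + D * S) ^ (p-1)) * W := by
  have hp' : 0 ≤ p - 1 := by linarith
  obtain ⟨x₀, hx₀, hmax⟩ := exists_max_lev hQ
  refine ⟨lev x₀, hmax, ?_⟩
  have hQc := hQ
  obtain ⟨a, l, hl, rfl⟩ := hQ
  set j := lev x₀ with hj
  have hminK : gE (min j K) ≤ W := h5 _ (min_le_right _ _)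
  have hw : avg (fun y => u (lev y)) (Set.Icc a (fun i => a i + l)) ≤ D ^ (p-1) * u j :=
    avg_le_of_forall_le hQc (fun y hy => h.u_le hp (hmax y hy))
  by_cases hsmall : l ≤ (2:ℝ)^j / 4
  · have hs : avg (fun y => s (lev y)) (Set.Icc a (fun i => a i + l)) ≤ D * s j :=
      avg_le_of_forall_le hQc (fun y hy => h.h1 _ _ (lev_le_succ_of_small hl hx₀ hy hsmall))
    calc _ ≤ (D * s j) ^ (p-1) * (D ^ (p-1) * u j) * W := by gcongr
      _ = D ^ (p-1) * D ^ (p-1) * W * (s j ^ (p-1) * u j) := by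
          rw [ENNReal.mul_rpow_of_nonneg _ _ hp']; ring
      _ = D ^ (p-1) * D ^ (p-1) * W := by rw [h.hsu, mul_one]
      _ ≤ _ := by
          gcongr
          rw [add_assoc]
          exact le_self_add
  · push Not at hsmall
    by_cases hK : j ≤ K
    · have hs : avg (fun y => s (lev y)) (Set.Icc a (fun i => a i + l)) * 2^(n*j) ≤ 8^n * S := by
        unfold avg
        rw [← ENNReal.mul_div_right_comm]
        apply ENNReal.div_le_of_le_mul
        have hvol := volume_big (a := a) hsmall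
        have h1 : ∫⁻ y in Set.Icc a (fun i => a i + l), s (lev y) ≤ 2^n * S := by
          refine le_trans (lintegral_mono_set ?_) (h.sigma_box hK)
          intro y hy
          exact lev_le_iff_mem.1 (hmax y hy)
        calc _ ≤ (2^n * S) * (4^n * volume (Set.Icc a (fun i => a i + l))) := by gcongr
          _ = _ := by
            have : (8:ℝ≥0∞)^n = 2^n * 4^n := by rw [← mul_pow]; norm_num
            rw [this]; ring
      rw [min_eq_left hK]
      calc _ ≤ avg (fun y => s (lev y)) (Set.Icc a (fun i => a i + l)) ^ (p-1) *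
            (D ^ (p-1) * u j) * gE j := by gcongr
        _ = avg (fun y => s (lev y)) (Set.Icc a (fun i => a i + l)) ^ (p-1) *
            D ^ (p-1) * (u j * gE j) := by ring
        _ ≤ avg (fun y => s (lev y)) (Set.Icc a (fun i => a i + l)) ^ (p-1) *
            D ^ (p-1) * (W * ((2:ℝ≥0∞)^(n*j)) ^ (p - 1)) :=
            mul_le_mul_right (h4 j) _
        _ = (avg (fun y => s (lev y)) (Set.Icc a (fun i => a i + l)) * 2^(n*j)) ^ (p-1) *
            D ^ (p-1) * W := by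
            rw [ENNReal.mul_rpow_of_nonneg _ _ hp']; ring
        _ ≤ (8^n * S) ^ (p-1) * D ^ (p-1) * W := by gcongr
        _ ≤ _ := by
            gcongr
            exact le_trans le_add_self le_self_add
    · push Not at hK
      have hs := h.avg_far (a := a) hl hK.le hsmall
      have hw' : avg (fun y => u (lev y)) (Set.Icc a (fun i => a i + l)) ≤
          ((2:ℝ≥0∞)^(n*K)) ^ (p - 1) :=
        avg_le_of_forall_le hQc (fun y _ => h.u_le_top hp _)
      calc _ ≤ avg (fun y => s (lev y)) (Set.Icc a (fun i => a i + l)) ^ (p-1) *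
            ((2:ℝ≥0∞)^(n*K)) ^ (p - 1) * W := by gcongr
        _ = (avg (fun y => s (lev y)) (Set.Icc a (fun i => a i + l)) * 2^(n*K)) ^ (p-1) * W := by
            rw [ENNReal.mul_rpow_of_nonneg _ _ hp']
        _ ≤ (8^n * S + D * S) ^ (p-1) * W := by gcongr
        _ ≤ _ := by
            gcongr
            exact le_add_self

end Pool.Agent.LogP
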