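import Pool.Agent.P.MP_2c43e6_an.LpA

/-! The level sequence with the profile `(k + 1) (1 + log (k + 1))`. -/

set_option autoImplicit false

namespace Pool.Agent.LogP

open MeasureTheory Set Pool.Agent.P.MP_2c43e6_an
open scoped ENNReal

/-- The profile. -/
noncomputable def gL (k : ℕ) : ℝ := ((k : ℝ) + 1) * (1 + Real.log ((k : ℝ) + 1))

theorem log_succ_nonneg (k : ℕ) : 0 ≤ Real.log ((k : ℝ) + 1) :=
  Real.log_nonneg (by linarith [Nat.cast_nonneg (α := ℝ) k])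

theorem gL_ge (k : ℕ) : (k : ℝ) + 1 ≤ gL k :=
  le_mul_of_one_le_right (by positivity) (by linarith [log_succ_nonneg k])

theorem gL_one_le (k : ℕ) : 1 ≤ gL k :=
  le_trans (by linarith [Nat.cast_nonneg (α := ℝ) k]) (gL_ge k)

theorem gL_pos (k : ℕ) : 0 < gL k := lt_of_lt_of_le one_pos (gL_one_le k)

theorem gL_zero : gL 0 = 1 := by simp [gL]

theorem one_add_log_le (k : ℕ) : 1 + Real.log ((k : ℝ) + 1) ≤ (k : ℝ) + 1 := by
  have := Real.log_le_sub_one_of_pos (show (0 : ℝ) < (k : ℝ) + 1 by positivity)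
  linarith

theorem gL_le {k K : ℕ} (h : k ≤ K) : gL k ≤ ((K : ℝ) + 1) ^ (2 : ℝ) := by
  have h1 : (k : ℝ) ≤ K := by exact_mod_cast h
  rw [Real.rpow_two, sq]
  exact mul_le_mul (by linarith) ((one_add_log_le k).trans (by linarith))
    (by linarith [log_succ_nonneg k]) (by positivity)

theorem gL_mul {j k i : ℕ} (h : j + 1 = k + i) : gL j ≤ gL k * ((i : ℝ) + 1) ^ (2 : ℝ) := by
  have h1 : (j : ℝ) + 1 ≤ ((k : ℝ) + 1) * ((i : ℝ) + 1) := by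
    have : (j : ℝ) + 1 = k + i := by exact_mod_cast h
    nlinarith [Nat.cast_nonneg (α := ℝ) i, Nat.cast_nonneg (α := ℝ) k]
  have h2 : Real.log ((j : ℝ) + 1) ≤ Real.log ((k : ℝ) + 1) + Real.log ((i : ℝ) + 1) := by
    rw [← Real.log_mul (by positivity) (by positivity)]
    exact Real.log_le_log (by positivity) h1
  have h3 : 1 + Real.log ((j : ℝ) + 1) ≤ (1 + Real.log ((k : ℝ) + 1)) * ((i : ℝ) + 1) := by
    refine le_trans ?_ (mul_le_mul_of_nonneg_left (one_add_log_le i)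
      (by linarith [log_succ_nonneg k]))
    nlinarith [mul_nonneg (log_succ_nonneg k) (log_succ_nonneg i)]
  rw [Real.rpow_two]
  calc gL j ≤ (((k : ℝ) + 1) * ((i : ℝ) + 1)) * ((1 + Real.log ((k : ℝ) + 1)) * ((i : ℝ) + 1)) :=
        mul_le_mul h1 h3 (by linarith [log_succ_nonneg j]) (by positivity)
    _ = _ := by rw [gL]; ring

/-- The values of `σ` on the dyadic shells. -/
noncomputable def sL (n : ℕ) (γ : ℝ) (J K k : ℕ) : ℝ :=
  max (((2:ℝ)^(n*k))⁻¹ * ((2:ℝ)^k)⁻¹)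
    (max (((2:ℝ)^J)⁻¹ * ((2:ℝ)^(n*k))⁻¹ * gL k ^ γ) ((2:ℝ)^(n*K))⁻¹)

variable {n : ℕ} {γ : ℝ} {J K : ℕ}

theorem sL_pos (k : ℕ) : 0 < sL n γ J K k := lt_max_of_lt_left (by positivity)

theorem sL_zero : sL n γ J K 0 = 1 := by
  unfold sL
  have h1 : ((2:ℝ)^J)⁻¹ ≤ 1 := inv_le_one_of_one_le₀ (one_le_pow₀ (by norm_num))
  have h2 : ((2:ℝ)^(n*K))⁻¹ ≤ 1 := inv_le_one_of_one_le₀ (one_le_pow₀ (by norm_num))
  simp [h1, h2, gL_zero]

theorem sL_h1 (hn : 1 ≤ n) (hγ : 0 ≤ γ) {C : ℝ} (hC1 : 1 ≤ C)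
    (hC : ∀ i : ℕ, ((i:ℝ) + 1) ^ (2 * γ) ≤ C * 2^i) (j k : ℕ) (hjk : k ≤ j + 1) :
    sL n γ J K j ≤ (2 * 2^n * C) * sL n γ J K k := by
  obtain ⟨i, hi⟩ : ∃ i, j + 1 = k + i := ⟨j + 1 - k, by omega⟩
  have hgk := gL_pos k
  have hgj := gL_pos j
  have h2n : (1:ℝ) ≤ 2^n := one_le_pow₀ (by norm_num)
  have hD : (1:ℝ) ≤ 2 * 2^n * C := by nlinarith
  have e1 : (2:ℝ)^(n*j) * 2^n = 2^(n*k) * 2^(n*i) := by
    rw [← pow_add, ← pow_add]; congr 1; nlinarith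
  have e2 : (2:ℝ)^j * 2 = 2^k * 2^i := by
    rw [← pow_succ, ← pow_add, hi]
  have hi1 : (1:ℝ) ≤ 2^i := one_le_pow₀ (by norm_num)
  have hni : (2:ℝ)^i ≤ 2^(n*i) := pow_le_pow_right₀ (by norm_num) (by nlinarith)
  have e3 : ((2:ℝ)^(n*j))⁻¹ = 2^n * ((2:ℝ)^(n*k))⁻¹ * ((2:ℝ)^(n*i))⁻¹ := by
    field_simp; linarith
  have e4 : ((2:ℝ)^j)⁻¹ = 2 * ((2:ℝ)^k)⁻¹ * ((2:ℝ)^i)⁻¹ := by
    field_simp; linarith
  have hb1 : ((2:ℝ)^(n*i))⁻¹ ≤ ((2:ℝ)^i)⁻¹ := inv_anti₀ (by positivity) hni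
  have hb2 : ((2:ℝ)^i)⁻¹ ≤ 1 := inv_le_one_of_one_le₀ hi1
  unfold sL
  refine max_le ?_ (max_le ?_ ?_)
  · refine le_trans ?_ (mul_le_mul_of_nonneg_left (le_max_left _ _) (by positivity))
    rw [e3, e4]
    calc 2^n * ((2:ℝ)^(n*k))⁻¹ * ((2:ℝ)^(n*i))⁻¹ * (2 * ((2:ℝ)^k)⁻¹ * ((2:ℝ)^i)⁻¹)
        ≤ 2^n * ((2:ℝ)^(n*k))⁻¹ * 1 * (2 * ((2:ℝ)^k)⁻¹ * C) := by
          gcongr
          · exact hb1.trans hb2
          · exact hb2.trans hC1
      _ = _ := by ring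
  · refine le_trans ?_ (mul_le_mul_of_nonneg_left
      (le_trans (le_max_left _ _) (le_max_right _ _)) (by positivity))
    rw [e3]
    have hj : gL j ^ γ ≤ gL k ^ γ * (C * 2^i) := by
      calc gL j ^ γ ≤ (gL k * ((i:ℝ) + 1) ^ (2 : ℝ)) ^ γ :=
            Real.rpow_le_rpow hgj.le (gL_mul hi) hγ
        _ = gL k ^ γ * ((i:ℝ) + 1) ^ (2 * γ) := by
            rw [Real.mul_rpow hgk.le (by positivity), ← Real.rpow_mul (by positivity)]
        _ ≤ _ := by gcongr; exact hC i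
    calc ((2:ℝ)^J)⁻¹ * (2^n * ((2:ℝ)^(n*k))⁻¹ * ((2:ℝ)^(n*i))⁻¹) * gL j ^ γ
        ≤ ((2:ℝ)^J)⁻¹ * (2^n * ((2:ℝ)^(n*k))⁻¹ * ((2:ℝ)^i)⁻¹) *
            (gL k ^ γ * (C * 2^i)) := by gcongr
      _ = (1 * 2^n * C) * (((2:ℝ)^J)⁻¹ * ((2:ℝ)^(n*k))⁻¹ * gL k ^ γ) := by
          field_simp
      _ ≤ _ := by gcongr; norm_num
  · refine le_trans ?_ (mul_le_mul_of_nonneg_left
      (le_trans (le_max_right _ _) (le_max_right _ _)) (by positivity))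
    exact le_mul_of_one_le_left (by positivity) hD

theorem gL_rpow_le (hγ : 0 ≤ γ) {k : ℕ} (hk : k ≤ K) : gL k ^ γ ≤ ((K:ℝ) + 1) ^ (2 * γ) := by
  rw [Real.rpow_mul (by positivity)]
  exact Real.rpow_le_rpow (gL_pos k).le (gL_le hk) hγ

theorem sL_h2 (hn : 1 ≤ n) (hγ : 0 ≤ γ) (hJK : ((K:ℝ) + 1) ^ (2 * γ + 1) ≤ 2^J) :
    ∑ k ∈ Finset.range (K + 1), sL n γ J K k * 2^(n*k) ≤ 5 := by
  refine le_trans (Finset.sum_le_sum fun k hk => ?_) (sR_h2 (γ := 2 * γ) hn (by linarith) hJK)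
  have h := gL_rpow_le hγ (le_refl k)
  refine mul_le_mul_of_nonneg_right (max_le_max le_rfl (max_le_max ?_ le_rfl)) (by positivity)
  exact mul_le_mul_of_nonneg_left h (by positivity)

theorem sL_h3 (k : ℕ) : 1 ≤ sL n γ J K k * 2^(n*K) := by
  calc (1:ℝ) = ((2:ℝ)^(n*K))⁻¹ * 2^(n*K) := by field_simp
    _ ≤ _ := by
      gcongr
      exact le_trans (le_max_right _ _) (le_max_right _ _)

theorem mid_L {p : ℝ} (hp : 1 < p) (hγ : γ = 1 / (p - 1)) (k : ℕ) :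
    (((2:ℝ)^J)⁻¹ * ((2:ℝ)^(n*k))⁻¹ * gL k ^ γ) ^ (1 - p) * gL k =
      ((2:ℝ)^J) ^ (p - 1) * ((2:ℝ)^(n*k)) ^ (p - 1) := by
  have hp1 : 0 < p - 1 := by linarith
  have hg := gL_pos k
  rw [Real.mul_rpow (by positivity) (by positivity), Real.mul_rpow (by positivity) (by positivity),
    ← Real.rpow_mul hg.le]
  have e : γ * (1 - p) = -1 := by rw [hγ]; field_simp; ring
  have e2 : ∀ t : ℝ, 0 < t → (t⁻¹) ^ (1 - p) = t ^ (p - 1) := by
    intro t ht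
    rw [Real.inv_rpow ht.le, ← Real.rpow_neg ht.le]
    congr 1; ring
  rw [e, Real.rpow_neg_one, e2 _ (by positivity), e2 _ (by positivity)]
  field_simp

theorem sL_h4 {p : ℝ} (hp : 1 < p) (hγ : γ = 1 / (p - 1)) (k : ℕ) :
    sL n γ J K k ^ (1 - p) * gL k ≤ ((2:ℝ)^J) ^ (p - 1) * ((2:ℝ)^(n*k)) ^ (p - 1) := by
  have hg := gL_pos k
  rw [← mid_L hp hγ k]
  refine mul_le_mul_of_nonneg_right ?_ hg.le
  apply Real.rpow_le_rpow_of_nonpos (by positivity) _ (by linarith)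
  exact le_trans (le_max_left _ _) (le_max_right _ _)

theorem sL_h6 (hn : 1 ≤ n) {p : ℝ} (hp : 1 < p) (hγ : γ = 1 / (p - 1)) {k : ℕ} (hJk : J ≤ k)
    (hkK : k + J ≤ K) :
    ((2:ℝ)^J) ^ (p - 1) * ((2:ℝ)^(n*k)) ^ (p - 1) = sL n γ J K k ^ (1 - p) * gL k := by
  rw [← mid_L hp hγ k]
  congr 2
  have hγ0 : 0 ≤ γ := by
    have : 0 < p - 1 := by linarith
    rw [hγ]
    positivity
  have h1 : (1:ℝ) ≤ gL k ^ γ := Real.one_le_rpow (gL_one_le k) hγ0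
  have h2 : ((2:ℝ)^(n*K))⁻¹ ≤ ((2:ℝ)^J)⁻¹ * ((2:ℝ)^(n*k))⁻¹ := by
    rw [← mul_inv, ← pow_add]
    apply inv_anti₀ (by positivity)
    apply pow_le_pow_right₀ (by norm_num)
    nlinarith
  have h3 : ((2:ℝ)^k)⁻¹ ≤ ((2:ℝ)^J)⁻¹ :=
    inv_anti₀ (by positivity) (pow_le_pow_right₀ (by norm_num) hJk)
  have h4 : ((2:ℝ)^J)⁻¹ * ((2:ℝ)^(n*k))⁻¹ ≤
      ((2:ℝ)^J)⁻¹ * ((2:ℝ)^(n*k))⁻¹ * gL k ^ γ :=
    le_mul_of_one_le_right (by positivity) h1
  unfold sL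
  rw [max_eq_left (h2.trans h4), max_eq_right]
  refine le_trans ?_ h4
  rw [mul_comm]
  gcongr

theorem sL_h5 {p : ℝ} (hp : 1 < p) (hγ : γ = 1 / (p - 1))
    (hJK : ((K:ℝ) + 1) ^ (2 * γ + 1) ≤ 2^J) {k : ℕ} (hk : k ≤ K) :
    gL k ≤ ((2:ℝ)^J) ^ (p - 1) := by
  have hp1 : 0 < p - 1 := by linarith
  have hγ0 : 0 ≤ γ := by rw [hγ]; positivity
  have hK : (1:ℝ) ≤ (K:ℝ) + 1 := by linarith [Nat.cast_nonneg (α := ℝ) K]
  have hg := gL_pos k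
  calc gL k = (gL k ^ γ) ^ (p - 1) := by
        rw [← Real.rpow_mul hg.le, hγ, one_div, inv_mul_cancel₀ hp1.ne', Real.rpow_one]
    _ ≤ _ := by
        apply Real.rpow_le_rpow (by positivity) _ hp1.le
        exact (gL_rpow_le hγ0 hk).trans
          (le_trans (Real.rpow_le_rpow_of_exponent_le hK (by linarith)) hJK)

theorem loglog_lower (J N : ℕ) (hJN : J ≤ N) :
    Real.log (1 + Real.log ((N:ℝ) + 1)) - Real.log (1 + Real.log ((J:ℝ) + 1)) ≤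
      ∑ k ∈ Finset.Ico J N, (gL k)⁻¹ := by
  induction N, hJN using Nat.le_induction with
  | base => simp
  | succ N hJN ih =>
    rw [Finset.sum_Ico_succ_top hJN]
    have a0 := log_succ_nonneg N
    have a1 := log_succ_nonneg (N + 1)
    have h1 : Real.log (((N + 1 : ℕ) : ℝ) + 1) - Real.log ((N:ℝ) + 1) ≤ ((N:ℝ) + 1)⁻¹ := by
      rw [← Real.log_div (by positivity) (by positivity)]
      refine (Real.log_le_sub_one_of_pos (by positivity)).trans (le_of_eq ?_)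
      push_cast
      field_simp
      ring
    have h2 : Real.log (1 + Real.log (((N + 1 : ℕ) : ℝ) + 1)) -
        Real.log (1 + Real.log ((N:ℝ) + 1)) ≤ (gL N)⁻¹ := by
      rw [← Real.log_div (by positivity) (by positivity)]
      refine (Real.log_le_sub_one_of_pos (by positivity)).trans ?_
      rw [gL, mul_inv, ← div_eq_mul_inv, div_sub_one (by positivity)]
      exact div_le_div_of_nonneg_right (by linarith) (by positivity)
    linarith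

theorem lp_params (hγ : 0 ≤ γ) (B : ℝ) :
    ∃ J N : ℕ, 1 ≤ J ∧ (((N + J : ℕ) : ℝ) + 1) ^ (2 * γ + 1) ≤ 2^J ∧
      B ≤ ∑ k ∈ Finset.Ico J N, (gL k)⁻¹ := by
  obtain ⟨L, hL⟩ := exists_nat_ge (2 * Real.exp B + 1)
  have hB := Real.exp_pos B
  have hL1 : 1 ≤ L := by exact_mod_cast (show (1 : ℝ) ≤ L by linarith)
  set β := 2 * γ + 1 with hβ
  have hβ0 : 0 ≤ β := by positivity
  obtain ⟨C, hC1, hC⟩ := exists_poly_le_exp (γ := L * β + 1) (by positivity)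
  obtain ⟨J, hJ⟩ := exists_nat_ge (2 ^ β * C + 2)
  have h2β : (0 : ℝ) < 2 ^ β * C := by positivity
  have hJ2 : (2 : ℝ) ≤ J := by linarith
  have hJ1 : 1 ≤ J := by exact_mod_cast (show (1 : ℝ) ≤ J by linarith)
  have hpow : J + 1 ≤ (J + 1) ^ L := Nat.le_self_pow (by omega) _
  obtain ⟨N, hN⟩ : ∃ N, (J + 1) ^ L = N + 1 := ⟨(J + 1) ^ L - 1, by omega⟩
  have hN' : (N : ℝ) + 1 = ((J : ℝ) + 1) ^ L := by exact_mod_cast hN.symm
  have hJN : J ≤ N := by omega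
  refine ⟨J, N, hJ1, ?_, le_trans ?_ (loglog_lower J N hJN)⟩
  · have h1 : (((N + J : ℕ) : ℝ) + 1) ≤ 2 * ((J : ℝ) + 1) ^ L := by
      have : (J : ℝ) ≤ N := by exact_mod_cast hJN
      push_cast
      linarith
    refine (Real.rpow_le_rpow (by positivity) h1 hβ0).trans ?_
    rw [Real.mul_rpow (by positivity) (by positivity), ← Real.rpow_natCast,
      ← Real.rpow_mul (by positivity)]
    have h2 := hC J
    rw [Real.rpow_add_one (by positivity)] at h2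
    have h3 : (2 ^ β * ((J : ℝ) + 1) ^ (L * β)) * C ≤ 2 ^ J * C := by
      calc (2 ^ β * ((J : ℝ) + 1) ^ (L * β)) * C = ((J : ℝ) + 1) ^ (L * β) * (2 ^ β * C) := by ring
        _ ≤ ((J : ℝ) + 1) ^ (L * β) * ((J : ℝ) + 1) := by gcongr; linarith
        _ ≤ _ := by linarith
    exact le_of_mul_le_mul_right h3 (by linarith)
  · have h1 : 1 ≤ Real.log ((J : ℝ) + 1) := by
      rw [Real.le_log_iff_exp_le (by positivity)]
      linarith [Real.exp_one_lt_d9]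
    rw [hN', Real.log_pow, ← Real.log_div (by positivity) (by positivity),
      Real.le_log_iff_exp_le (by positivity), le_div_iff₀ (by positivity)]
    nlinarith

end Pool.Agent.LogP
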