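import Pool.Agent.P.MP_2c43e6_an.LpA

/-! The upper bound: countably many entropy classes. -/

set_option autoImplicit false
set_option linter.unusedSectionVars false

namespace Pool.Agent.LogP

open MeasureTheory Set Pool.Agent.Ent Pool.Agent.Ent.Grid
open Pool.Agent.P.MP_2c43e6_an (IsCube avg maxFun maxNorm Aq Ainf AqConst)
open scoped ENNReal

section
variable {Ω ι : Type*} [MeasurableSpace Ω] {μ : Measure Ω} [Countable ι] {G : Grid Ω μ ι}
  {p : ℝ} {σ w : Ω → ℝ≥0∞}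

theorem lp_testing (hp : 1 < p) (hσm : Measurable σ) (hw : Measurable w)
    (hσ : ∀ k x, G.av σ k x ≠ 0 ∧ G.av σ k x ≠ ∞) {θ Y : ℕ → ℝ≥0∞} (hθ : ∀ j, θ j ≠ 0 ∧ θ j ≠ ∞)
    (H : ∀ k x, ∃ j,
      ∫⁻ y in G.cell k x, G.Hs σ k y ∂μ ≤ θ j * ∫⁻ y in G.cell k x, σ y ∂μ ∧
        G.av σ k x ^ (p - 1) * G.av w k x * θ j ≤ Y j) (k0 : ℕ) (x0 : Ω) :
    ∫⁻ y in G.cell k0 x0, G.Hs σ k0 y ^ p * w y ∂μ ≤
      2 ^ p * (4 * ∑' j, Y j) * ∫⁻ y in G.cell k0 x0, σ y ∂μ := by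
  classical
  have hp0 : 0 < p := by linarith
  let R : ℕ → Set Ω := fun k => {y | Rec (fun l => G.av σ l y) k0 k}
  have hR : ∀ k, G.Sat k (R k) := fun k x y e hx => ⟨hx.1, fun l hl hl' => by
    have h := hx.2 l hl hl'
    simp only at h ⊢
    rwa [← av_eq σ hl'.le e, ← av_eq σ le_rfl e]⟩
  let P : ℕ → ℕ → Set Ω := fun j k =>
    {x | ∫⁻ y in G.cell k x, G.Hs σ k y ∂μ ≤ θ j * ∫⁻ y in G.cell k x, σ y ∂μ}
  have hP : ∀ j k, G.Sat k (P j k) := fun j k x y e hx => by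
    simp only [P, mem_setOf_eq] at hx ⊢
    rwa [← cell_eq le_rfl e]
  let φ : ℕ → Ω → ℝ≥0∞ := fun j y => ∑' k, (R k ∩ P j k).indicator (G.av σ k) y
  have hφm : ∀ j, Measurable (φ j) := fun j =>
    Measurable.ennreal_tsum fun k => (meas_av σ k).indicator ((hR k).meas.inter (hP j k).meas)
  have hφ : ∀ j, ∫⁻ y in G.cell k0 x0, φ j y ∂μ ≤ ∫⁻ y in G.cell k0 x0, 4 * (θ j * σ y) ∂μ := by
    intro j
    refine maxcells (sat_cell le_rfl x0) (hP j) (φs := fun k y => 4 * G.Hs σ k y)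
      (fun k => (meas_Hs σ k).const_mul _) (fun k x hx => ?_) (fun x hx => ?_) fun x k hx => ?_
    · rw [lintegral_const_mul _ (meas_Hs σ k), lintegral_const_mul _ (hσm.const_mul _),
        lintegral_const_mul _ hσm]
      exact mul_le_mul_right hx _
    · exact ENNReal.tsum_eq_zero.2 fun k => indicator_of_notMem (fun h => hx k h.1.1 h.2) _
    · refine le_trans (ENNReal.tsum_le_tsum fun l => ?_) (tsum_rec_le (fun l => hσ l x) k0 k)
      by_cases h : x ∈ R l ∩ P j l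
      · rw [indicator_of_mem h, if_pos ⟨not_lt.1 fun hl => hx l h.1.1 hl h.2, h.1⟩]
      · rw [indicator_of_notMem h]
        exact bot_le
  have hm1 : ∀ k, Measurable fun y => 2 ^ p * (G.av σ k y ^ p * w y) := fun k =>
    (((meas_av σ k).pow_const p).mul hw).const_mul _
  have hm2 : ∀ k, Measurable fun y => 2 ^ p * (G.av σ k y ^ (p - 1) * G.av w k y * G.av σ k y) :=
    fun k => ((((meas_av σ k).pow_const _).mul (meas_av w k)).mul (meas_av σ k)).const_mul _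
  calc ∫⁻ y in G.cell k0 x0, G.Hs σ k0 y ^ p * w y ∂μ
      ≤ ∫⁻ y in G.cell k0 x0, ∑' k, (R k).indicator (fun y => 2 ^ p * (G.av σ k y ^ p * w y)) y ∂μ := by
        refine lintegral_mono fun y => ?_
        simp only [Hs, iSup_rpow hp0, ENNReal.iSup_mul]
        refine iSup₂_le fun k hk => ?_
        obtain ⟨k', h1, h2⟩ := exists_rec (fun l => hσ l y) hk
        refine le_trans ?_ (ENNReal.le_tsum k')
        rw [indicator_of_mem (show y ∈ R k' from h1), ← mul_assoc,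
          ← ENNReal.mul_rpow_of_nonneg _ _ hp0.le]
        exact mul_le_mul_left (ENNReal.rpow_le_rpow h2 hp0.le) _
    _ ≤ ∫⁻ y in G.cell k0 x0, ∑' k, (R k).indicator
          (fun y => 2 ^ p * (G.av σ k y ^ (p - 1) * G.av w k y * G.av σ k y)) y ∂μ := by
        rw [int_tsum (fun k => (hR k).meas) hm1, int_tsum (fun k => (hR k).meas) hm2]
        refine ENNReal.tsum_le_tsum fun k => ?_
        have hs : G.Sat k (R k ∩ G.cell k0 x0) := fun x y e hx =>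
          ⟨hR k x y e hx.1, sat_cell hx.1.1 x0 x y e hx.2⟩
        refine hs.int_le fun x _ => le_of_eq ?_
        have hc : MeasurableSet (G.cell k x) := G.meas k _
        rw [setLIntegral_congr_fun (g := fun y => 2 ^ p * G.av σ k x ^ p * w y) hc
            fun y hy => by simp only [av_eq σ le_rfl (show G.π k y = G.π k x from hy), mul_assoc],
          lintegral_const_mul _ hw, setLIntegral_congr_fun (f := fun y =>
            2 ^ p * (G.av σ k y ^ (p - 1) * G.av w k y * G.av σ k y)) (g := fun _ =>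
            2 ^ p * (G.av σ k x ^ (p - 1) * G.av w k x * G.av σ k x)) hc
            fun y hy => by simp only [av_eq σ le_rfl (show G.π k y = G.π k x from hy),
              av_eq w le_rfl (show G.π k y = G.π k x from hy)], setLIntegral_const]
        have h1 := av_mul (G := G) w k x
        have h2 : G.av σ k x ^ p = G.av σ k x ^ (p - 1) * G.av σ k x := by
          conv_rhs => rw [← ENNReal.rpow_one (G.av σ k x), ← ENNReal.rpow_mul, one_mul,
            ← ENNReal.rpow_add _ _ (hσ k x).1 (hσ k x).2, sub_add_cancel]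
        rw [← h1, h2]
        ring
    _ ≤ ∫⁻ y in G.cell k0 x0, ∑' j, 2 ^ p * (Y j / θ j) * φ j y ∂μ := by
        refine lintegral_mono fun y => ?_
        simp only [φ, ← ENNReal.tsum_mul_left]
        rw [ENNReal.tsum_comm]
        refine ENNReal.tsum_le_tsum fun k => ?_
        by_cases h : y ∈ R k
        · obtain ⟨j, h1, h2⟩ := H k y
          refine le_trans ?_ (ENNReal.le_tsum j)
          rw [indicator_of_mem h, indicator_of_mem (show y ∈ R k ∩ P j k from ⟨h, h1⟩),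
            mul_assoc (2 ^ p)]
          refine mul_le_mul_right (mul_le_mul_left ?_ _) _
          exact (ENNReal.le_div_iff_mul_le (Or.inl (hθ j).1) (Or.inl (hθ j).2)).2 h2
        · rw [indicator_of_notMem h]
          exact bot_le
    _ ≤ ∑' j, 2 ^ p * (4 * Y j) * ∫⁻ y in G.cell k0 x0, σ y ∂μ := by
        rw [lintegral_tsum fun j => ((hφm j).const_mul _).aemeasurable]
        refine ENNReal.tsum_le_tsum fun j => ?_
        rw [lintegral_const_mul _ (hφm j)]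
        refine (mul_le_mul_right (hφ j) _).trans ?_
        rw [lintegral_const_mul _ (hσm.const_mul _), lintegral_const_mul _ hσm]
        calc _ = 2 ^ p * (4 * (θ j * (Y j / θ j))) * ∫⁻ y in G.cell k0 x0, σ y ∂μ := by ring
          _ ≤ _ := mul_le_mul_left (mul_le_mul_right (mul_le_mul_right ENNReal.mul_div_le _) _) _
    _ = _ := by
        rw [ENNReal.tsum_mul_right, ENNReal.tsum_mul_left, ENNReal.tsum_mul_left]

end

variable {n : ℕ} {p : ℝ} {σ w : (Fin n → ℝ) → ℝ≥0∞}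

theorem lp_bound (hp : 1 < p) (hσm : Measurable σ) (hw : Measurable w)
    (hσw : ∀ᵐ y, σ y ^ (p - 1) * w y = 1) (hσ : ∀ Q, IsCube Q → avg σ Q ≠ 0 ∧ avg σ Q ≠ ∞)
    {θ Y : ℕ → ℝ≥0∞} (hθ : ∀ j, θ j ≠ 0 ∧ θ j ≠ ∞)
    (h1 : ∀ Q, IsCube Q → ∃ j, Ainf σ Q ≤ θ j ∧ avg σ Q ^ (p - 1) * avg w Q * θ j ≤ Y j)
    {f : (Fin n → ℝ) → ℝ≥0∞} (hf : Measurable f) (hf1 : ∀ y, f y ≠ ∞)
    (hfin : ∫⁻ y, f y ^ p * w y ≠ ∞) :
    ∫⁻ y, maxFun f y ^ p * w y ≤ (6 ^ n) ^ p * 2 ^ n *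
      (2 ^ p * (4 * ∑' j, Y j) * cE p * ∫⁻ y, f y ^ p * w y) := by
  refine max_le_of_grids (by linarith) hw f fun N τ => ?_
  have h4 : ∀ k x, (grid N τ).av σ k x ≠ 0 ∧ (grid N τ).av σ k x ≠ ∞ := fun k x => by
    obtain ⟨Q, hQ, -, he⟩ := grid_cube N τ k x
    exact avg_eq_av he σ ▸ hσ Q hQ
  refine embed hp hσm hw h4 hσw (lp_testing hp hσm hw h4 hθ fun k x => ?_) hf hf1 hfin
  obtain ⟨Q, hQ, hs, he⟩ := grid_cube N τ k x
  obtain ⟨j, h5, h6⟩ := h1 Q hQ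
  refine ⟨j, ?_, by rwa [← avg_eq_av he, ← avg_eq_av he]⟩
  have hS := av_mul (G := grid N τ) σ k x
  rw [Ainf, ← setLIntegral_congr he, ← setLIntegral_congr he, ENNReal.div_le_iff
    (hS ▸ mul_ne_zero (h4 k x).1 ((grid N τ).pos k x))
    (hS ▸ ENNReal.mul_ne_top (h4 k x).2 ((grid N τ).fin k x))] at h5
  refine le_trans (setLIntegral_mono' ((grid N τ).meas k _) fun y hy => iSup₂_le fun l hl => ?_) h5
  obtain ⟨Q', hQ', hs', he'⟩ := grid_cube N τ l y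
  refine le_iSup₂_of_le Q' hQ' (le_iSup_of_le (hs' rfl) (le_of_eq ?_))
  have hc : MeasurableSet ((grid N τ).cell l y) := (grid N τ).meas l _
  rw [avg_eq_av he', av, av, setLIntegral_congr_fun (f := σ) (g := Q.indicator σ) hc
    fun z hz => (indicator_of_mem (hs ((nest' hl hz).trans hy)) σ).symm]

theorem lp_class {s : ℝ} (hs : 0 ≤ s) {a ρ Y : ℝ≥0∞} (h1 : 1 ≤ ρ) (h2 : ρ ≠ ∞)
    (h3 : a * (ρ * ENNReal.ofReal ((1 + Real.log ρ.toReal) ^ s)) ≤ Y) :
    ∃ j : ℕ, ρ ≤ 2 ^ (j + 1) ∧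
      a * 2 ^ (j + 1) ≤ 2 * Y * ENNReal.ofReal (2 ^ s * (((j + 1 : ℕ) : ℝ) ^ s)⁻¹) := by
  obtain ⟨r, hr0, rfl⟩ : ∃ r : ℝ, 0 ≤ r ∧ ρ = ENNReal.ofReal r :=
    ⟨ρ.toReal, ENNReal.toReal_nonneg, (ENNReal.ofReal_toReal h2).symm⟩
  have hr : 1 ≤ r := ENNReal.one_le_ofReal.1 h1
  rw [ENNReal.toReal_ofReal hr0] at h3
  obtain ⟨j, hj1, hj2⟩ := exists_nat_pow_near hr one_lt_two
  have e : ∀ m : ℕ, (2 : ℝ≥0∞) ^ m = ENNReal.ofReal (2 ^ m) := fun m =>
    (Pool.Agent.P.MP_2c43e6_an.ofReal_two_pow m).symm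
  refine ⟨j, e _ ▸ ENNReal.ofReal_le_ofReal hj2.le, ?_⟩
  have hl : ((j + 1 : ℕ) : ℝ) ≤ 2 * (1 + Real.log r) := by
    have h4 : Real.log (2 ^ j) ≤ Real.log r := Real.log_le_log (by positivity) hj1
    rw [Real.log_pow] at h4
    have h5 := Real.log_two_gt_d9
    push_cast
    nlinarith [Nat.cast_nonneg (α := ℝ) j]
  have hlr : 0 ≤ Real.log r := Real.log_nonneg hr
  have h6 : (1 : ℝ) ≤ (1 + Real.log r) ^ s * (2 ^ s * (((j + 1 : ℕ) : ℝ) ^ s)⁻¹) := by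
    rw [← mul_assoc, ← div_eq_mul_inv, le_div_iff₀ (by positivity), one_mul,
      ← Real.mul_rpow (by positivity) (by positivity)]
    exact Real.rpow_le_rpow (by positivity) (by linarith) hs
  calc a * 2 ^ (j + 1) = 2 * (a * (2 ^ j * 1)) := by ring
    _ ≤ 2 * (a * (ENNReal.ofReal r * (ENNReal.ofReal ((1 + Real.log r) ^ s) *
          ENNReal.ofReal (2 ^ s * (((j + 1 : ℕ) : ℝ) ^ s)⁻¹)))) := by
        refine mul_le_mul_right (mul_le_mul_right (mul_le_mul' ?_ ?_) _) _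
        · exact e _ ▸ ENNReal.ofReal_le_ofReal hj1
        · rw [← ENNReal.ofReal_mul (by positivity)]
          exact ENNReal.one_le_ofReal.2 h6
    _ = 2 * (a * (ENNReal.ofReal r * ENNReal.ofReal ((1 + Real.log r) ^ s))) *
          ENNReal.ofReal (2 ^ s * (((j + 1 : ℕ) : ℝ) ^ s)⁻¹) := by ring
    _ ≤ _ := mul_le_mul_left (mul_le_mul_right h3 _) _

theorem lp_upper (n : ℕ) (p p' s : ℝ) (hp : 1 < p) (hp' : p' = p / (p - 1)) (hs : 1 < s) :
    ∃ C : NNReal, ∀ w : (Fin n → ℝ) → ℝ, Measurable w → (∀ᵐ x, 0 < w x) →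
      AqConst p (fun x => ENNReal.ofReal (w x)) < ⊤ →
      maxNorm p (fun x => ENNReal.ofReal (w x)) ≤
        C * ⨆ (Q : Set (Fin n → ℝ)) (_ : IsCube Q),
          Aq p' (fun x => ENNReal.ofReal (w x) ^ (1 - p')) Q ^ (1 / p') *
            (Ainf (fun x => ENNReal.ofReal (w x) ^ (1 - p')) Q * ENNReal.ofReal
              ((1 + Real.log (Ainf (fun x => ENNReal.ofReal (w x) ^ (1 - p')) Q).toReal) ^ s)) ^
              (1 / p) := by
  have hp0 : 0 < p := by linarith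
  have hp1 : 0 < p - 1 := by linarith
  have hq : 0 ≤ 1 / p := by positivity
  set Z : ℝ≥0∞ := ∑' j : ℕ, ENNReal.ofReal (2 ^ s * (((j + 1 : ℕ) : ℝ) ^ s)⁻¹) with hZ
  have hZt : Z ≠ ∞ := by
    have h1 : Summable fun j : ℕ => (2 : ℝ) ^ s * (((j + 1 : ℕ) : ℝ) ^ s)⁻¹ :=
      ((summable_nat_add_iff 1).2 (Real.summable_nat_rpow_inv.2 hs)).mul_left _
    rw [hZ, ← ENNReal.ofReal_tsum_of_nonneg (fun j => by positivity) h1]
    exact ENNReal.ofReal_ne_top
  set D : ℝ≥0∞ := (6 ^ n) ^ p * 2 ^ n * 2 ^ p * 8 * cE p * Z with hD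
  have hD1 : D ^ (1 / p) + 1 ≠ ∞ := by
    have := cE_ne_top hp
    rw [hD]
    finiteness
  refine ⟨(D ^ (1 / p) + 1).toNNReal, fun w hw hw0 hA => ?_⟩
  rw [ENNReal.coe_toNNReal hD1]
  set W : (Fin n → ℝ) → ℝ≥0∞ := fun x => ENNReal.ofReal (w x) with hW
  set σ : (Fin n → ℝ) → ℝ≥0∞ := fun x => ENNReal.ofReal (w x) ^ (1 - p') with hσ
  set X := ⨆ (Q : Set (Fin n → ℝ)) (_ : IsCube Q), Aq p' σ Q ^ (1 / p') *
    (Ainf σ Q * ENNReal.ofReal ((1 + Real.log (Ainf σ Q).toReal) ^ s)) ^ (1 / p) with hX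
  by_cases hX1 : X = ∞
  · rw [hX1, ENNReal.mul_top (by simp)]
    exact le_top
  have hWm : Measurable W := hw.ennreal_ofReal
  have hσm : Measurable σ := hWm.pow_const _
  have hW0 : ∀ᵐ y, W y ≠ 0 := hw0.mono fun y hy => (ENNReal.ofReal_pos.2 hy).ne'
  have e1 : (1 - p') * (p - 1) = -1 := by rw [hp']; field_simp; ring
  have e2 : -1 / (p - 1) = 1 - p' := by rw [hp']; field_simp; ring
  have e3 : (1 - p') * (-1 / (p' - 1)) = 1 := by
    have : p' - 1 ≠ 0 := fun e => by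
      rw [show 1 - p' = 0 by linarith, zero_mul] at e1
      norm_num at e1
    field_simp
    ring
  have e4 : 1 / p' * p = p - 1 := by rw [hp']; field_simp
  have e5 : (p' - 1) * (p - 1) = 1 := by linarith
  have e6 : 1 / p * p = 1 := one_div_mul_cancel hp0.ne'
  have hσw : ∀ᵐ y, σ y ^ (p - 1) * W y = 1 := hW0.mono fun y hy => by
    simp only [hσ]
    rw [← ENNReal.rpow_mul, e1, ENNReal.rpow_neg_one]
    exact ENNReal.inv_mul_cancel hy ENNReal.ofReal_ne_top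
  have hAq : ∀ Q, Aq p' σ Q ^ (p - 1) = avg σ Q ^ (p - 1) * avg W Q := fun Q => by
    simp only [Aq, hσ, ← ENNReal.rpow_mul, e3, ENNReal.rpow_one,
      ENNReal.mul_rpow_of_nonneg _ _ hp1.le, e5, hW]
  have hpw : ∀ a b : ℝ≥0∞, (a ^ (1 / p') * b ^ (1 / p)) ^ p = a ^ (p - 1) * b := fun a b => by
    rw [ENNReal.mul_rpow_of_nonneg _ _ hp0.le, ← ENNReal.rpow_mul, ← ENNReal.rpow_mul, e4, e6,
      ENNReal.rpow_one]
  have h1 : ∀ Q, IsCube Q → avg σ Q ≠ 0 ∧ avg σ Q ≠ ∞ := fun Q hQ => by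
    refine ⟨avg_ne_zero hσm (hσw.mono fun y hy e => ?_) hQ, fun e => ?_⟩
    · simp [e, ENNReal.zero_rpow_of_pos hp1] at hy
    · have h2 : Aq p W Q ≤ AqConst p W := le_iSup₂_of_le Q hQ le_rfl
      rw [Aq, e2, show avg (fun x => W x ^ (1 - p')) Q = ∞ from e, ENNReal.top_rpow_of_pos hp1,
        ENNReal.mul_top (avg_ne_zero hWm hW0 hQ)] at h2
      exact hA.not_ge h2
  have hXp : X ^ p ≠ ∞ := ENNReal.rpow_ne_top_of_nonneg hp0.le hX1
  refine iSup₂_le fun f hf => iSup_le fun hf1 => ?_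
  have hf2 : ∫⁻ x, ‖f x‖ₑ ^ p * W x = 1 := by
    have h2 := congrArg (· ^ p) hf1
    simp only [← ENNReal.rpow_mul, e6, ENNReal.rpow_one, ENNReal.one_rpow] at h2
    exact h2
  have h4 := lp_bound hp hσm hWm hσw h1 (θ := fun j => 2 ^ (j + 1))
    (Y := fun j => 2 * X ^ p * ENNReal.ofReal (2 ^ s * (((j + 1 : ℕ) : ℝ) ^ s)⁻¹))
    (fun j => ⟨pow_ne_zero _ two_ne_zero, ENNReal.pow_ne_top ENNReal.ofNat_ne_top⟩)
    (fun Q hQ => by
      have h5 : avg σ Q ^ (p - 1) * avg W Q *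
          (Ainf σ Q * ENNReal.ofReal ((1 + Real.log (Ainf σ Q).toReal) ^ s)) ≤ X ^ p := by
        rw [← hAq, ← hpw]
        exact ENNReal.rpow_le_rpow (le_iSup₂_of_le Q hQ le_rfl) hp0.le
      refine lp_class (by linarith) (lp_one_le_Ainf hQ (h1 Q hQ).1 (h1 Q hQ).2) (fun e => ?_) h5
      rw [e, ENNReal.top_mul (by simp), ENNReal.mul_top (mul_ne_zero
        (ENNReal.rpow_pos (h1 Q hQ).1.bot_lt (h1 Q hQ).2).ne' (avg_ne_zero hWm hW0 hQ))] at h5
      exact hXp (top_le_iff.1 h5))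
    hf.enorm (fun _ => enorm_ne_top) (hf2 ▸ ENNReal.one_ne_top)
  rw [hf2, mul_one, ENNReal.tsum_mul_left, ← hZ] at h4
  have h5 : _ ≤ D * X ^ p := h4.trans (le_of_eq (by rw [hD]; ring))
  refine (ENNReal.rpow_le_rpow h5 hq).trans ?_
  rw [ENNReal.mul_rpow_of_nonneg _ _ hq, ← ENNReal.rpow_mul,
    mul_one_div_cancel hp0.ne', ENNReal.rpow_one]
  exact mul_le_mul_left le_self_add _

end Pool.Agent.LogP
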