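import Pool.Agent.P.MP_2c43e6_an.LpB

/-! Failure of the bound for `s ≤ 1`. -/

set_option autoImplicit false

namespace Pool.Agent.LogP

open MeasureTheory Set Pool.Agent.P.MP_2c43e6_an
open scoped ENNReal

variable {n : ℕ}

theorem lp_prof {s : ℝ} (hs : s ≤ 1) {ρ E : ℝ≥0∞} {m : ℕ} (h1 : 1 ≤ ρ) (hE : E ≠ ∞) (hE1 : 1 ≤ E)
    (h2 : ρ ≤ E * ((m : ℝ≥0∞) + 1)) :
    ρ * ENNReal.ofReal ((1 + Real.log ρ.toReal) ^ s) ≤
      E * ENNReal.ofReal (1 + Real.log E.toReal) * ENNReal.ofReal (gL m) := by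
  have hm : E * ((m : ℝ≥0∞) + 1) ≠ ∞ := ENNReal.mul_ne_top hE (by simp)
  have hρ : ρ ≠ ∞ := ne_top_of_le_ne_top hm h2
  have a1 : 1 ≤ ρ.toReal := by simpa using ENNReal.toReal_mono hρ h1
  have a2 : 1 ≤ E.toReal := by simpa using ENNReal.toReal_mono hE hE1
  have a3 : ρ.toReal ≤ E.toReal * ((m : ℝ) + 1) := by
    have := ENNReal.toReal_mono hm h2
    rwa [ENNReal.toReal_mul, ← ofReal_nat_succ, ENNReal.toReal_ofReal (by positivity)] at this
  have b1 := Real.log_nonneg a1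
  have b2 := Real.log_nonneg a2
  have b3 := log_succ_nonneg m
  have b4 : Real.log ρ.toReal ≤ Real.log E.toReal + Real.log ((m : ℝ) + 1) := by
    rw [← Real.log_mul (by positivity) (by positivity)]
    exact Real.log_le_log (by positivity) a3
  have b5 : (1 + Real.log ρ.toReal) ^ s ≤
      (1 + Real.log E.toReal) * (1 + Real.log ((m : ℝ) + 1)) := by
    refine (Real.rpow_le_rpow_of_exponent_le (by linarith) hs).trans ?_
    rw [Real.rpow_one]
    nlinarith [mul_nonneg b2 b3]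
  refine (mul_le_mul' h2 (ENNReal.ofReal_le_ofReal b5)).trans (le_of_eq ?_)
  rw [gL, ENNReal.ofReal_mul (by positivity), ENNReal.ofReal_mul (by positivity), ofReal_nat_succ]
  ring

theorem lp_lower (hn : 1 ≤ n) {p p' s : ℝ} (hp : 1 < p) (hp' : p' = p / (p - 1)) (hs : s ≤ 1)
    (C₀ : NNReal) :
    ∃ w : (Fin n → ℝ) → ℝ, Measurable w ∧ (∀ x, 0 < w x) ∧ LocallyIntegrable w volume ∧
      AqConst p (fun x => ENNReal.ofReal (w x)) < ⊤ ∧
      C₀ * ⨆ (Q : Set (Fin n → ℝ)) (_ : IsCube Q),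
          Aq p' (fun x => ENNReal.ofReal (w x) ^ (1 - p')) Q ^ (1 / p') *
            (Ainf (fun x => ENNReal.ofReal (w x) ^ (1 - p')) Q * ENNReal.ofReal
              ((1 + Real.log (Ainf (fun x => ENNReal.ofReal (w x) ^ (1 - p')) Q).toReal) ^ s)) ^
              (1 / p) < maxNorm p (fun x => ENNReal.ofReal (w x)) := by
  have hp0 : 0 < p := by linarith
  have hp1 : 0 < p - 1 := by linarith
  have hq : 0 ≤ 1 / p := by positivity
  set γ : ℝ := 1 / (p - 1) with hγ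
  have hγ0 : 0 ≤ γ := by positivity
  obtain ⟨C, hC1, hC⟩ := exists_poly_le_exp (γ := 2 * γ) (by positivity)
  set D : ℝ≥0∞ := ENNReal.ofReal (2 * 2 ^ n * C) with hD
  have hDt : D ≠ ∞ := ENNReal.ofReal_ne_top
  set E : ℝ≥0∞ := D + (8 ^ n * 5 + D * 5) + 8 ^ n with hE
  have hEt : E ≠ ∞ := by rw [hE]; finiteness
  have hE1 : 1 ≤ E := le_trans (one_le_pow₀ (by norm_num)) le_add_self
  set A : ℝ≥0∞ := D ^ (p - 1) * D ^ (p - 1) + (8 ^ n * 5) ^ (p - 1) * D ^ (p - 1) +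
    (8 ^ n * 5 + D * 5) ^ (p - 1) with hA
  have hAt : A ≠ ∞ := by
    have := hp1.le
    rw [hA]
    finiteness
  set R : ℝ≥0∞ := (C₀ : ℝ≥0∞) ^ p * (E * ENNReal.ofReal (1 + Real.log E.toReal) * A) * 2 ^ n
    with hR
  have hRt : R ≠ ∞ := by
    have := hp0.le
    rw [hR]
    finiteness
  obtain ⟨J, N, hJ1, hJK, hB⟩ := lp_params hγ0 (R.toReal + 1)
  set K := N + J with hK
  set sq : ℕ → ℝ≥0∞ := fun k => ENNReal.ofReal (sL n γ J K k) with hsq
  set u : ℕ → ℝ≥0∞ := fun k => ENNReal.ofReal (sL n γ J K k ^ (1 - p)) with hu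
  set W : ℝ≥0∞ := ENNReal.ofReal (((2 : ℝ) ^ J) ^ (p - 1)) with hW
  set gE : ℕ → ℝ≥0∞ := fun k => ENNReal.ofReal (gL k) with hgE
  have hWt : W ≠ ⊤ := ENNReal.ofReal_ne_top
  have hW0 : W ≠ 0 := (ENNReal.ofReal_pos.2 (by positivity)).ne'
  have hge : ∀ k : ℕ, (k : ℝ≥0∞) + 1 ≤ gE k := fun k =>
    ofReal_nat_succ k ▸ ENNReal.ofReal_le_ofReal (gL_ge k)
  have h4 : ∀ k, u k * gE k ≤ W * ((2 : ℝ≥0∞) ^ (n * k)) ^ (p - 1) := fun k => by
    have h := ENNReal.ofReal_le_ofReal (sL_h4 (n := n) (J := J) (K := K) hp hγ k)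
    have := sL_pos (n := n) (γ := γ) (J := J) (K := K) k
    rwa [ENNReal.ofReal_mul (by positivity), ENNReal.ofReal_mul (by positivity),
      ← ENNReal.ofReal_rpow_of_pos (x := (2:ℝ)^(n*k)) (by positivity), ofReal_two_pow] at h
  have h5 : ∀ k, k ≤ K → gE k ≤ W := fun k hk => ENNReal.ofReal_le_ofReal (sL_h5 hp hγ hJK hk)
  have hG : Good n p sq u D 5 W K := by
    refine ⟨fun k => ?_, fun j k hjk => ?_, ?_, fun k => ?_, fun k => ?_, (hge K).trans (h5 K le_rfl)⟩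
    · have := sL_pos (n := n) (γ := γ) (J := J) (K := K) k
      simp only [hsq, hu]
      rw [ENNReal.ofReal_rpow_of_pos this, ← ENNReal.ofReal_mul (by positivity),
        ← Real.rpow_add this]
      simp
    · simp only [hsq, hD]
      rw [← ENNReal.ofReal_mul (by positivity)]
      exact ENNReal.ofReal_le_ofReal (sL_h1 hn hγ0 hC1 hC j k hjk)
    · have h := ENNReal.ofReal_le_ofReal (sL_h2 (n := n) hn hγ0 hJK)
      rw [ENNReal.ofReal_sum_of_nonneg (fun k _ => by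
        have := sL_pos (n := n) (γ := γ) (J := J) (K := K) k
        positivity)] at h
      simp only [ENNReal.ofReal_ofNat] at h
      refine le_trans (le_of_eq (Finset.sum_congr rfl fun k _ => ?_)) h
      rw [ENNReal.ofReal_mul (sL_pos k).le, ofReal_two_pow]
    · have h := ENNReal.ofReal_le_ofReal (sL_h3 (n := n) (γ := γ) (J := J) (K := K) k)
      rwa [ENNReal.ofReal_mul (sL_pos k).le, ofReal_two_pow, ENNReal.ofReal_one] at h
    · exact (mul_le_mul_right (hge k) _).trans (h4 k)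
  have hus' : ∀ k, u k = sq k ^ (1 - p) := fun k => by
    simp only [hu, hsq]
    rw [ENNReal.ofReal_rpow_of_pos (sL_pos k)]
  have e1 : (1 - p) * (1 - p') = 1 := by rw [hp']; field_simp; ring
  have e2 : (1 - p) * (-1 / (p - 1)) = 1 := by field_simp; ring
  have e7 : p' - 1 = 1 / (p - 1) := by rw [hp']; field_simp; ring
  have e3 : -1 / (p' - 1) = 1 - p := by rw [e7]; field_simp; ring
  have e4 : 1 / p' * p = p - 1 := by rw [hp']; field_simp
  have e5 : (p' - 1) * (p - 1) = 1 := by rw [e7]; field_simp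
  have e6 : 1 / p * p = 1 := one_div_mul_cancel hp0.ne'
  have hus1 : ∀ k, u k ^ (1 - p') = sq k := fun k => by
    rw [hus', ← ENNReal.rpow_mul, e1, ENNReal.rpow_one]
  have hus2 : ∀ k, u k ^ (-1 / (p - 1)) = sq k := fun k => by
    rw [hus', ← ENNReal.rpow_mul, e2, ENNReal.rpow_one]
  have hus3 : ∀ k, sq k ^ (-1 / (p' - 1)) = u k := fun k => by rw [hus', e3]
  have hs0 : sq 0 = 1 := by simp only [hsq]; rw [sL_zero]; simp
  have hu0 : u 0 = 1 := by rw [hus', hs0]; simp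
  have hσ : (fun x : Fin n → ℝ => ENNReal.ofReal (sL n γ J K (lev x) ^ (1 - p)) ^ (1 - p')) =
      fun x => sq (lev x) := funext fun x => hus1 _
  refine ⟨fun x => sL n γ J K (lev x) ^ (1 - p),
    (measurable_from_nat (f := fun k => sL n γ J K k ^ (1 - p))).comp measurable_lev,
    fun x => Real.rpow_pos_of_pos (sL_pos _) _, ?_,
    lt_of_le_of_lt (hG.Ap_le hp hus2)
      (ENNReal.mul_ne_top (cst_ne_top hp hDt (by simp)) hWt).lt_top, ?_⟩
  · apply locallyIntegrable_of_bounded (g := fun k => sL n γ J K k ^ (1 - p))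
      (M := (((2 : ℝ) ^ (n * K))⁻¹) ^ (1 - p))
    intro k
    rw [Real.norm_eq_abs, abs_of_pos (Real.rpow_pos_of_pos (sL_pos _) _)]
    apply Real.rpow_le_rpow_of_nonpos (by positivity) _ (by linarith)
    exact le_trans (le_max_right _ _) (le_max_right _ _)
  rw [hσ]
  have hlow := lp_le_maxNorm (n := n) hn hp hu0 (W := W) (gE := gE)
    (fun k => (ENNReal.ofReal_pos.2 (gL_pos k)).ne') (fun k => ENNReal.ofReal_ne_top)
    (Finset.Ico J N) (fun k hk => hJ1.trans (Finset.mem_Ico.1 hk).1) (fun k hk => by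
      have h1 := Finset.mem_Ico.1 hk
      have h2 := congrArg ENNReal.ofReal
        (sL_h6 (n := n) (J := J) (K := K) hn hp hγ h1.1 (by omega))
      have := sL_pos (n := n) (γ := γ) (J := J) (K := K) k
      rw [ENNReal.ofReal_mul (by positivity), ENNReal.ofReal_mul (by positivity),
        ← ENNReal.ofReal_rpow_of_pos (x := (2 : ℝ) ^ (n * k)) (by positivity),
        ofReal_two_pow] at h2
      exact h2.le)
  refine lt_of_le_of_lt (mul_le_mul_right (iSup₂_le (a := (E * ENNReal.ofReal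
    (1 + Real.log E.toReal) * A * W) ^ (1 / p)) fun Q hQ => ?_) _) (lt_of_lt_of_le ?_ hlow)
  · obtain ⟨j, hj, hkey⟩ := lp_key hG hp h4 h5 hQ
    have h1 := lp_one_le_Ainf hQ (Pool.Agent.Ent.avg_ne_zero (measurable_comp_lev sq)
      (.of_forall fun y => (ENNReal.ofReal_pos.2 (sL_pos _)).ne') hQ)
      (ne_top_of_le_ne_top (ENNReal.mul_ne_top hDt ENNReal.ofReal_ne_top)
        (avg_le_of_forall_le hQ fun y _ => hG.h1 _ 0 bot_le))
    have h2 := lp_prof hs h1 hEt hE1 (hG.Ainf_le hQ.measurableSet hj)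
    rw [← ENNReal.rpow_le_rpow_iff hp0, ENNReal.mul_rpow_of_nonneg _ _ hp0.le, ← ENNReal.rpow_mul,
      ← ENNReal.rpow_mul, ← ENNReal.rpow_mul, e4, e6, ENNReal.rpow_one, ENNReal.rpow_one, Aq,
      ENNReal.mul_rpow_of_nonneg _ _ hp1.le, ← ENNReal.rpow_mul, e5, ENNReal.rpow_one]
    simp only [hus3]
    refine (mul_le_mul_right h2 _).trans ?_
    calc _ = E * ENNReal.ofReal (1 + Real.log E.toReal) *
          (avg (fun y : Fin n → ℝ => sq (lev y)) Q ^ (p - 1) * avg (fun y => u (lev y)) Q *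
            gE (min j K)) := by ring
      _ ≤ E * ENNReal.ofReal (1 + Real.log E.toReal) * (A * W) := mul_le_mul_right hkey _
      _ = _ := by ring
  · have hm : (C₀ : ℝ≥0∞) = ((C₀ : ℝ≥0∞) ^ p) ^ (1 / p) := by
      rw [← ENNReal.rpow_mul, mul_one_div_cancel hp0.ne', ENNReal.rpow_one]
    rw [hm, ← ENNReal.mul_rpow_of_nonneg _ _ hq]
    refine ENNReal.rpow_lt_rpow ?_ (by positivity)
    have hB' : R < ∑ k ∈ Finset.Ico J N, (gE k)⁻¹ := by
      have h := ENNReal.ofReal_le_ofReal hB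
      rw [ENNReal.ofReal_sum_of_nonneg (fun k _ => (inv_pos.2 (gL_pos k)).le),
        ENNReal.ofReal_add ENNReal.toReal_nonneg zero_le_one, ENNReal.ofReal_toReal hRt,
        ENNReal.ofReal_one] at h
      refine (ENNReal.lt_add_right hRt one_ne_zero).trans_le (h.trans (le_of_eq ?_))
      exact Finset.sum_congr rfl fun k _ => ENNReal.ofReal_inv_of_pos (gL_pos k)
    calc (C₀ : ℝ≥0∞) ^ p * (E * ENNReal.ofReal (1 + Real.log E.toReal) * A * W)
        = (C₀ : ℝ≥0∞) ^ p * (E * ENNReal.ofReal (1 + Real.log E.toReal) * A * W) *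
            (((2 : ℝ≥0∞) ^ n)⁻¹ * 2 ^ n) := by
          rw [ENNReal.inv_mul_cancel (T_ne_zero _) (T_ne_top _), mul_one]
      _ = ((2 : ℝ≥0∞) ^ n)⁻¹ * W * R := by rw [hR]; ring
      _ < _ := ENNReal.mul_lt_mul_right (mul_ne_zero (ENNReal.inv_ne_zero.2 (T_ne_top _)) hW0)
          (ENNReal.mul_ne_top (ENNReal.inv_ne_top.2 (T_ne_zero _)) hWt) hB'

end Pool.Agent.LogP
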