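import Pool.Agent.P.MP_2c43e6_an.Seq

namespace Pool.Agent.P.MP_2c43e6_an

open MeasureTheory Set Filter
open scoped ENNReal Topology

variable {n : ℕ}

lemma ofReal_two_pow (m : ℕ) : ENNReal.ofReal ((2:ℝ)^m) = (2:ℝ≥0∞)^m := by
  rw [ENNReal.ofReal_pow (by norm_num)]; simp

lemma ofReal_nat_succ (k : ℕ) : ENNReal.ofReal ((k:ℝ) + 1) = (k:ℝ≥0∞) + 1 := by
  rw [ENNReal.ofReal_add (by positivity) (by norm_num)]; simp

lemma good_sR (hn : 1 ≤ n) {p γ : ℝ} (hp : 1 < p) (hγ : γ = 1 / (p - 1)) {C : ℝ} (hC1 : 1 ≤ C)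
    (hC : ∀ i : ℕ, ((i:ℝ) + 1) ^ γ ≤ C * 2^i) {J K : ℕ} (hJK : ((K:ℝ) + 1) ^ (γ + 1) ≤ 2^J) :
    Good n p (fun k => ENNReal.ofReal (sR n γ J K k))
      (fun k => ENNReal.ofReal (sR n γ J K k ^ (1 - p)))
      (ENNReal.ofReal (2 * 2^n * C)) 5 (ENNReal.ofReal (((2:ℝ)^J) ^ (p - 1))) K := by
  have hp1 : 0 < p - 1 := by linarith
  have hγ0 : 0 ≤ γ := by rw [hγ]; positivity
  refine ⟨fun k => ?_, fun j k hjk => ?_, ?_, fun k => ?_, fun k => ?_, ?_⟩
  · have := sR_pos (n := n) (γ := γ) (J := J) (K := K) k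
    rw [ENNReal.ofReal_rpow_of_pos this, ← ENNReal.ofReal_mul (by positivity),
      ← Real.rpow_add this]
    simp
  · rw [← ENNReal.ofReal_mul (by positivity)]
    exact ENNReal.ofReal_le_ofReal (sR_h1 hn hγ0 hC1 hC j k hjk)
  · have h := ENNReal.ofReal_le_ofReal (sR_h2 (n := n) hn hγ0 hJK)
    rw [ENNReal.ofReal_sum_of_nonneg (fun k _ => by have := sR_pos (n := n) (γ := γ) (J := J) (K := K) k; positivity)] at h
    simp only [ENNReal.ofReal_ofNat] at h
    refine le_trans (le_of_eq ?_) h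
    apply Finset.sum_congr rfl
    intro k _
    rw [ENNReal.ofReal_mul (sR_pos k).le, ofReal_two_pow]
  · have h := ENNReal.ofReal_le_ofReal (sR_h3 (n := n) (γ := γ) (J := J) (K := K) k)
    rwa [ENNReal.ofReal_mul (sR_pos k).le, ofReal_two_pow, ENNReal.ofReal_one] at h
  · have h := ENNReal.ofReal_le_ofReal (sR_h4 (n := n) (J := J) (K := K) hp hγ k)
    have := sR_pos (n := n) (γ := γ) (J := J) (K := K) k
    rwa [ENNReal.ofReal_mul (by positivity), ENNReal.ofReal_mul (by positivity), ofReal_nat_succ,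
      ← ENNReal.ofReal_rpow_of_pos (x := (2:ℝ)^(n*k)) (by positivity), ofReal_two_pow] at h
  · have h := ENNReal.ofReal_le_ofReal (sR_h5 hp hγ hJK)
    rwa [ofReal_nat_succ] at h

lemma locallyIntegrable_of_bounded {g : ℕ → ℝ} {M : ℝ} (hg : ∀ k, ‖g k‖ ≤ M) :
    LocallyIntegrable (fun x : Fin n → ℝ => g (lev x)) volume := by
  have hm : Measurable (fun x : Fin n → ℝ => g (lev x)) :=
    (measurable_from_nat (f := g)).comp measurable_lev
  rw [locallyIntegrable_iff]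
  intro k hk
  exact Measure.integrableOn_of_bounded (M := M) hk.measure_lt_top.ne hm.aestronglyMeasurable
    (Eventually.of_forall fun x => hg _)

/-- For every bound there is a weight whose ratio exceeds it. -/
lemma exists_weight (hn : 1 ≤ n) {p p' : ℝ} (hp : 1 < p) (hp' : p' = p / (p - 1)) (m : ℕ) :
    ∃ w : (Fin n → ℝ) → ℝ, ((∀ x, 0 < w x) ∧ Measurable w ∧ LocallyIntegrable w volume ∧
      AqConst p (fun x => ENNReal.ofReal (w x)) < ⊤ ∧
      0 < mixedConst p' (1 / p') (1 / p) (fun x => ENNReal.ofReal (w x) ^ (1 - p')) ∧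
      mixedConst p' (1 / p') (1 / p) (fun x => ENNReal.ofReal (w x) ^ (1 - p')) < ⊤) ∧
      (m : ℝ≥0∞) ≤ maxNorm p (fun x => ENNReal.ofReal (w x)) /
        mixedConst p' (1 / p') (1 / p) (fun x => ENNReal.ofReal (w x) ^ (1 - p')) := by
  have hp0 : 0 < p := by linarith
  have hp1 : 0 < p - 1 := by linarith
  set γ : ℝ := 1 / (p - 1) with hγ
  have hγ0 : 0 ≤ γ := by positivity
  obtain ⟨C, hC1, hC⟩ := exists_poly_le_exp hγ0
  set D : ℝ≥0∞ := ENNReal.ofReal (2 * 2^n * C) with hD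
  have hcst : cst n p D 5 ≠ ⊤ := cst_ne_top hp ENNReal.ofReal_ne_top (by simp)
  obtain ⟨J, N, hJ1, hJK, hB⟩ := exists_params hγ0 ((cst n p D 5).toReal * 2^n * (m:ℝ) ^ p)
  set K := N + J with hK
  have hG := good_sR hn hp hγ hC1 hC hJK
  set s : ℕ → ℝ≥0∞ := fun k => ENNReal.ofReal (sR n γ J K k) with hs
  set u : ℕ → ℝ≥0∞ := fun k => ENNReal.ofReal (sR n γ J K k ^ (1 - p)) with hu
  set W : ℝ≥0∞ := ENNReal.ofReal (((2:ℝ)^J) ^ (p - 1)) with hW
  have hW0 : W ≠ 0 := by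
    rw [hW]; simp only [ne_eq, ENNReal.ofReal_eq_zero, not_le]; positivity
  have hWt : W ≠ ⊤ := ENNReal.ofReal_ne_top
  have hus' : ∀ k, u k = s k ^ (1 - p) := fun k => by
    simp only [hu, hs]; rw [ENNReal.ofReal_rpow_of_pos (sR_pos k)]
  have hus1 : ∀ k, u k ^ (1 - p') = s k := fun k => by
    rw [hus', ← ENNReal.rpow_mul]
    have : (1 - p) * (1 - p') = 1 := by rw [hp']; field_simp; ring
    rw [this, ENNReal.rpow_one]
  have hus2 : ∀ k, u k ^ (-1 / (p - 1)) = s k := fun k => by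
    rw [hus', ← ENNReal.rpow_mul]
    have : (1 - p) * (-1 / (p - 1)) = 1 := by field_simp; ring
    rw [this, ENNReal.rpow_one]
  have hus3 : ∀ k, s k ^ (-1 / (p' - 1)) = u k := fun k => by
    rw [hus']
    congr 1
    have : p' - 1 = 1 / (p - 1) := by rw [hp']; field_simp; ring
    rw [this]; field_simp; ring
  have hs0 : s 0 = 1 := by simp only [hs]; rw [sR_zero]; simp
  have hu0 : u 0 = 1 := by rw [hus', hs0]; simp
  have hσ : (fun x : Fin n → ℝ => ENNReal.ofReal (sR n γ J K (lev x) ^ (1 - p)) ^ (1 - p')) =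
      fun x => s (lev x) := funext fun x => hus1 (lev x)
  have hmix := hG.mixed_le hp hp' hus3
  have hmix1 : 1 ≤ mixedConst p' (1 / p') (1 / p) (fun x : Fin n → ℝ => s (lev x)) :=
    one_le_mixed (by positivity) hs0
  have hfin : (cst n p D 5 * W) ^ (1 / p) < ⊤ :=
    ENNReal.rpow_lt_top_of_nonneg (by positivity) (ENNReal.mul_ne_top hcst hWt)
  refine ⟨fun x => sR n γ J K (lev x) ^ (1 - p), ⟨fun x => Real.rpow_pos_of_pos (sR_pos _) _,
    (measurable_from_nat (f := fun k => sR n γ J K k ^ (1 - p))).comp measurable_lev, ?_, ?_, ?_, ?_⟩,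
    ?_⟩
  · apply locallyIntegrable_of_bounded (g := fun k => sR n γ J K k ^ (1 - p))
      (M := (((2:ℝ)^(n*K))⁻¹) ^ (1 - p))
    intro k
    rw [Real.norm_eq_abs, abs_of_pos (Real.rpow_pos_of_pos (sR_pos _) _)]
    apply Real.rpow_le_rpow_of_nonpos (by positivity) _ (by linarith)
    exact le_trans (le_max_right _ _) (le_max_right _ _)
  · exact lt_of_le_of_lt (hG.Ap_le hp hus2) (ENNReal.mul_ne_top hcst hWt).lt_top
  · rw [hσ]; exact lt_of_lt_of_le zero_lt_one hmix1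
  · rw [hσ]; exact lt_of_le_of_lt hmix hfin
  · rw [hσ]
    have hlow := le_maxNorm (n := n) hn hp hu0 (W := W) (Finset.Ico J N)
      (fun k hk => hJ1.trans (Finset.mem_Ico.1 hk).1) (fun k hk => by
        have h1 := Finset.mem_Ico.1 hk
        have h2 := congrArg ENNReal.ofReal
          (sR_h6 (n := n) (J := J) (K := K) hn hp hγ h1.1 (by omega))
        have := sR_pos (n := n) (γ := γ) (J := J) (K := K) k
        rw [ENNReal.ofReal_mul (by positivity), ENNReal.ofReal_mul (by positivity), ofReal_nat_succ,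
          ← ENNReal.ofReal_rpow_of_pos (x := (2:ℝ)^(n*k)) (by positivity), ofReal_two_pow] at h2
        exact h2.le)
    rw [ENNReal.le_div_iff_mul_le (Or.inl (lt_of_lt_of_le zero_lt_one hmix1).ne')
      (Or.inl (lt_of_le_of_lt hmix hfin).ne)]
    refine le_trans (mul_le_mul_right hmix _) (le_trans ?_ hlow)
    have hm : (m:ℝ≥0∞) = ((m:ℝ≥0∞) ^ p) ^ (1 / p) := by
      rw [← ENNReal.rpow_mul, mul_one_div_cancel hp0.ne', ENNReal.rpow_one]
    rw [hm, ← ENNReal.mul_rpow_of_nonneg _ _ (by positivity)]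
    apply ENNReal.rpow_le_rpow _ (by positivity)
    have hB' : cst n p D 5 * 2^n * (m:ℝ≥0∞) ^ p ≤ ∑ k ∈ Finset.Ico J N, ((k:ℝ≥0∞) + 1)⁻¹ := by
      have h := ENNReal.ofReal_le_ofReal hB
      rw [ENNReal.ofReal_sum_of_nonneg (fun k _ => by positivity),
        ENNReal.ofReal_mul (by positivity), ENNReal.ofReal_mul (by positivity),
        ENNReal.ofReal_toReal hcst, ofReal_two_pow,
        ← ENNReal.ofReal_rpow_of_nonneg (by positivity) hp0.le, ENNReal.ofReal_natCast] at h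
      refine h.trans (le_of_eq ?_)
      apply Finset.sum_congr rfl
      intro k _
      rw [ENNReal.ofReal_inv_of_pos (by positivity), ofReal_nat_succ]
    calc (m:ℝ≥0∞) ^ p * (cst n p D 5 * W)
        = (m:ℝ≥0∞) ^ p * (cst n p D 5 * W) * (((2:ℝ≥0∞)^n)⁻¹ * 2^n) := by
          rw [ENNReal.inv_mul_cancel (T_ne_zero _) (T_ne_top _), mul_one]
      _ = ((2:ℝ≥0∞)^n)⁻¹ * W * (cst n p D 5 * 2^n * (m:ℝ≥0∞) ^ p) := by ring
      _ ≤ _ := mul_le_mul_right hB' _

theorem main (n : ℕ) (hn : 1 ≤ n) (p p' : ℝ) (hp : 1 < p) (hp' : p' = p / (p - 1)) :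
    ∃ w : ℕ → (Fin n → ℝ) → ℝ,
      (∀ k, (∀ x, 0 < w k x) ∧ Measurable (w k) ∧ LocallyIntegrable (w k) volume ∧
        AqConst p (fun x => ENNReal.ofReal (w k x)) < ⊤ ∧
        0 < mixedConst p' (1 / p') (1 / p) (fun x => ENNReal.ofReal (w k x) ^ (1 - p')) ∧
        mixedConst p' (1 / p') (1 / p) (fun x => ENNReal.ofReal (w k x) ^ (1 - p')) < ⊤) ∧
      Tendsto (fun k => maxNorm p (fun x => ENNReal.ofReal (w k x)) /
        mixedConst p' (1 / p') (1 / p) (fun x => ENNReal.ofReal (w k x) ^ (1 - p')))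
        atTop (𝓝 ⊤) := by
  choose w hw1 hw2 using exists_weight hn hp hp'
  exact ⟨w, hw1, tendsto_nhds_top_mono' ENNReal.tendsto_nat_nhds_top hw2⟩

end Pool.Agent.P.MP_2c43e6_an
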