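import Pool.Agent.P.MP_2c43e6_an.Lower

namespace Pool.Agent.P.MP_2c43e6_an

open MeasureTheory Set
open scoped ENNReal

lemma exists_poly_le_exp {γ : ℝ} (hγ : 0 ≤ γ) :
    ∃ C : ℝ, 1 ≤ C ∧ ∀ i : ℕ, ((i:ℝ) + 1) ^ γ ≤ C * 2^i := by
  set G := ⌈γ⌉₊ with hG
  have hl : 0 < Real.log 2 := Real.log_pos (by norm_num)
  refine ⟨max 1 (2 * (G.factorial : ℝ) / (Real.log 2)^G), le_max_left _ _, fun i => ?_⟩
  have h1 : ((i:ℝ) + 1) ^ γ ≤ ((i:ℝ) + 1) ^ G := by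
    rw [← Real.rpow_natCast]
    exact Real.rpow_le_rpow_of_exponent_le (by linarith [Nat.cast_nonneg (α := ℝ) i])
      (Nat.le_ceil γ)
  have h2 := Real.pow_div_factorial_le_exp (((i:ℝ) + 1) * Real.log 2) (by positivity) G
  have h3 : Real.exp (((i:ℝ) + 1) * Real.log 2) = 2 * 2^i := by
    have : ((i:ℝ) + 1) = ((i + 1 : ℕ) : ℝ) := by push_cast; ring
    rw [this, Real.exp_nat_mul, Real.exp_log (by norm_num)]; ring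
  rw [h3, div_le_iff₀ (by positivity), mul_pow] at h2
  have h4 : ((i:ℝ) + 1) ^ G ≤ 2 * (G.factorial : ℝ) / (Real.log 2)^G * 2^i := by
    rw [div_mul_eq_mul_div, le_div_iff₀ (by positivity)]
    linarith
  calc _ ≤ _ := h1
    _ ≤ _ := h4
    _ ≤ _ := by gcongr; exact le_max_right _ _

/-- The values of `σ` on the dyadic shells. -/
noncomputable def sR (n : ℕ) (γ : ℝ) (J K k : ℕ) : ℝ :=
  max (((2:ℝ)^(n*k))⁻¹ * ((2:ℝ)^k)⁻¹)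
    (max (((2:ℝ)^J)⁻¹ * ((2:ℝ)^(n*k))⁻¹ * ((k:ℝ) + 1) ^ γ) ((2:ℝ)^(n*K))⁻¹)

variable {n : ℕ} {γ : ℝ} {J K : ℕ}

lemma sR_pos (k : ℕ) : 0 < sR n γ J K k := lt_max_of_lt_left (by positivity)

lemma sR_zero : sR n γ J K 0 = 1 := by
  unfold sR
  have h1 : ((2:ℝ)^J)⁻¹ ≤ 1 := inv_le_one_of_one_le₀ (one_le_pow₀ (by norm_num))
  have h2 : ((2:ℝ)^(n*K))⁻¹ ≤ 1 := inv_le_one_of_one_le₀ (one_le_pow₀ (by norm_num))
  simp [h1, h2]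

lemma sR_h1 (hn : 1 ≤ n) (hγ : 0 ≤ γ) {C : ℝ} (hC1 : 1 ≤ C)
    (hC : ∀ i : ℕ, ((i:ℝ) + 1) ^ γ ≤ C * 2^i) (j k : ℕ) (hjk : k ≤ j + 1) :
    sR n γ J K j ≤ (2 * 2^n * C) * sR n γ J K k := by
  obtain ⟨i, hi⟩ : ∃ i, j + 1 = k + i := ⟨j + 1 - k, by omega⟩
  have h2n : (1:ℝ) ≤ 2^n := one_le_pow₀ (by norm_num)
  have hD : (1:ℝ) ≤ 2 * 2^n * C := by nlinarith
  have e1 : (2:ℝ)^(n*j) * 2^n = 2^(n*k) * 2^(n*i) := by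
    rw [← pow_add, ← pow_add]; congr 1; nlinarith
  have e2 : (2:ℝ)^j * 2 = 2^k * 2^i := by
    rw [← pow_succ, ← pow_add, hi]
  have hi1 : (1:ℝ) ≤ 2^i := one_le_pow₀ (by norm_num)
  have hni : (2:ℝ)^i ≤ 2^(n*i) := pow_le_pow_right₀ (by norm_num) (by nlinarith)
  have e3 : ((2:ℝ)^(n*j))⁻¹ = 2^n * ((2:ℝ)^(n*k))⁻¹ * ((2:ℝ)^(n*i))⁻¹ := by
    field_simp; linarith
  have e4 : ((2:ℝ)^j)⁻¹ = 2 * ((2:ℝ)^k)⁻¹ * ((2:ℝ)^i)⁻¹ := by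
    field_simp; linarith
  have hb1 : ((2:ℝ)^(n*i))⁻¹ ≤ ((2:ℝ)^i)⁻¹ := inv_anti₀ (by positivity) hni
  have hb2 : ((2:ℝ)^i)⁻¹ ≤ 1 := inv_le_one_of_one_le₀ hi1
  unfold sR
  refine max_le ?_ (max_le ?_ ?_)
  · refine le_trans ?_ (mul_le_mul_of_nonneg_left (le_max_left _ _) (by positivity))
    rw [e3, e4]
    calc 2^n * ((2:ℝ)^(n*k))⁻¹ * ((2:ℝ)^(n*i))⁻¹ * (2 * ((2:ℝ)^k)⁻¹ * ((2:ℝ)^i)⁻¹)
        ≤ 2^n * ((2:ℝ)^(n*k))⁻¹ * 1 * (2 * ((2:ℝ)^k)⁻¹ * C) := by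
          gcongr
          · exact hb1.trans hb2
          · exact hb2.trans hC1
      _ = _ := by ring
  · refine le_trans ?_ (mul_le_mul_of_nonneg_left
      (le_trans (le_max_left _ _) (le_max_right _ _)) (by positivity))
    rw [e3]
    have hj : ((j:ℝ) + 1) ^ γ ≤ ((k:ℝ) + 1) ^ γ * (C * 2^i) := by
      calc ((j:ℝ) + 1) ^ γ ≤ (((k:ℝ) + 1) * ((i:ℝ) + 1)) ^ γ := by
            apply Real.rpow_le_rpow (by positivity) _ hγ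
            have : (j:ℝ) + 1 = k + i := by exact_mod_cast hi
            nlinarith [Nat.cast_nonneg (α := ℝ) i, Nat.cast_nonneg (α := ℝ) k]
        _ = ((k:ℝ) + 1) ^ γ * ((i:ℝ) + 1) ^ γ := Real.mul_rpow (by positivity) (by positivity)
        _ ≤ _ := by gcongr; exact hC i
    calc ((2:ℝ)^J)⁻¹ * (2^n * ((2:ℝ)^(n*k))⁻¹ * ((2:ℝ)^(n*i))⁻¹) * ((j:ℝ) + 1) ^ γ
        ≤ ((2:ℝ)^J)⁻¹ * (2^n * ((2:ℝ)^(n*k))⁻¹ * ((2:ℝ)^i)⁻¹) *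
            (((k:ℝ) + 1) ^ γ * (C * 2^i)) := by gcongr
      _ = (1 * 2^n * C) * (((2:ℝ)^J)⁻¹ * ((2:ℝ)^(n*k))⁻¹ * ((k:ℝ) + 1) ^ γ) := by
          field_simp
      _ ≤ _ := by gcongr; norm_num
  · refine le_trans ?_ (mul_le_mul_of_nonneg_left
      (le_trans (le_max_right _ _) (le_max_right _ _)) (by positivity))
    exact le_mul_of_one_le_left (by positivity) hD

lemma sum_geom_le (m : ℕ) : ∑ k ∈ Finset.range m, ((2:ℝ)^k)⁻¹ ≤ 2 := by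
  have : ∀ m : ℕ, ∑ k ∈ Finset.range m, ((2:ℝ)^k)⁻¹ = 2 - 2 * ((2:ℝ)^m)⁻¹ := by
    intro m
    induction m with
    | zero => simp
    | succ m ih => rw [Finset.sum_range_succ, ih, pow_succ]; field_simp; ring
  rw [this]
  have : (0:ℝ) < ((2:ℝ)^m)⁻¹ := by positivity
  linarith

lemma sum_pow_le (hn : 1 ≤ n) (m : ℕ) :
    ∑ k ∈ Finset.range (m + 1), (2:ℝ)^(n*k) ≤ 2 * 2^(n*m) := by
  induction m with
  | zero => simp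
  | succ m ih =>
    rw [Finset.sum_range_succ]
    have : (2:ℝ) * 2^(n*m) ≤ 2^(n*(m+1)) := by
      rw [← pow_succ']
      exact pow_le_pow_right₀ (by norm_num) (by nlinarith)
    linarith

lemma sR_h2 (hn : 1 ≤ n) (hγ : 0 ≤ γ) (hJK : ((K:ℝ) + 1) ^ (γ + 1) ≤ 2^J) :
    ∑ k ∈ Finset.range (K + 1), sR n γ J K k * 2^(n*k) ≤ 5 := by
  have h1 : ∀ k ∈ Finset.range (K + 1), sR n γ J K k * 2^(n*k) ≤
      ((2:ℝ)^k)⁻¹ + ((2:ℝ)^J)⁻¹ * ((K:ℝ) + 1) ^ γ + ((2:ℝ)^(n*K))⁻¹ * 2^(n*k) := by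
    intro k hk
    have hk' : (k:ℝ) ≤ K := by exact_mod_cast Nat.lt_succ_iff.1 (Finset.mem_range.1 hk)
    have h2 : sR n γ J K k ≤ ((2:ℝ)^(n*k))⁻¹ * ((2:ℝ)^k)⁻¹ +
        ((2:ℝ)^J)⁻¹ * ((2:ℝ)^(n*k))⁻¹ * ((K:ℝ) + 1) ^ γ + ((2:ℝ)^(n*K))⁻¹ := by
      have a1 : (0:ℝ) < ((2:ℝ)^(n*k))⁻¹ * ((2:ℝ)^k)⁻¹ := by positivity
      have a2 : (0:ℝ) < ((2:ℝ)^J)⁻¹ * ((2:ℝ)^(n*k))⁻¹ * ((K:ℝ) + 1) ^ γ := by positivity
      have a3 : (0:ℝ) < ((2:ℝ)^(n*K))⁻¹ := by positivity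
      have a4 : ((2:ℝ)^J)⁻¹ * ((2:ℝ)^(n*k))⁻¹ * ((k:ℝ) + 1) ^ γ ≤
          ((2:ℝ)^J)⁻¹ * ((2:ℝ)^(n*k))⁻¹ * ((K:ℝ) + 1) ^ γ := by gcongr
      unfold sR
      refine max_le (by linarith) (max_le (by linarith) (by linarith))
    calc _ ≤ (((2:ℝ)^(n*k))⁻¹ * ((2:ℝ)^k)⁻¹ +
        ((2:ℝ)^J)⁻¹ * ((2:ℝ)^(n*k))⁻¹ * ((K:ℝ) + 1) ^ γ + ((2:ℝ)^(n*K))⁻¹) * 2^(n*k) := by gcongr
      _ = _ := by field_simp
  refine (Finset.sum_le_sum h1).trans ?_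
  rw [Finset.sum_add_distrib, Finset.sum_add_distrib, Finset.sum_const, Finset.card_range,
    ← Finset.mul_sum, nsmul_eq_mul]
  have b1 := sum_geom_le (K + 1)
  have b2 : ((K + 1 : ℕ) : ℝ) * (((2:ℝ)^J)⁻¹ * ((K:ℝ) + 1) ^ γ) ≤ 1 := by
    rw [Real.rpow_add_one (by positivity)] at hJK
    push_cast
    calc ((K:ℝ) + 1) * (((2:ℝ)^J)⁻¹ * ((K:ℝ) + 1) ^ γ)
        = ((2:ℝ)^J)⁻¹ * (((K:ℝ) + 1) ^ γ * ((K:ℝ) + 1)) := by ring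
      _ ≤ ((2:ℝ)^J)⁻¹ * 2^J := by gcongr
      _ = 1 := by field_simp
  have b3 : ((2:ℝ)^(n*K))⁻¹ * ∑ k ∈ Finset.range (K + 1), (2:ℝ)^(n*k) ≤ 2 := by
    calc _ ≤ ((2:ℝ)^(n*K))⁻¹ * (2 * 2^(n*K)) := by gcongr; exact sum_pow_le hn K
      _ = 2 := by field_simp
  linarith

lemma sR_h3 (k : ℕ) : 1 ≤ sR n γ J K k * 2^(n*K) := by
  calc (1:ℝ) = ((2:ℝ)^(n*K))⁻¹ * 2^(n*K) := by field_simp
    _ ≤ _ := by
      gcongr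
      exact le_trans (le_max_right _ _) (le_max_right _ _)

lemma mid_rpow {p : ℝ} (hp : 1 < p) (hγ : γ = 1 / (p - 1)) (k : ℕ) :
    (((2:ℝ)^J)⁻¹ * ((2:ℝ)^(n*k))⁻¹ * ((k:ℝ) + 1) ^ γ) ^ (1 - p) * ((k:ℝ) + 1) =
      ((2:ℝ)^J) ^ (p - 1) * ((2:ℝ)^(n*k)) ^ (p - 1) := by
  have hp1 : 0 < p - 1 := by linarith
  rw [Real.mul_rpow (by positivity) (by positivity), Real.mul_rpow (by positivity) (by positivity),
    ← Real.rpow_mul (by positivity)]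
  have e : γ * (1 - p) = -1 := by rw [hγ]; field_simp; ring
  have e2 : ∀ t : ℝ, 0 < t → (t⁻¹) ^ (1 - p) = t ^ (p - 1) := by
    intro t ht
    rw [Real.inv_rpow ht.le, ← Real.rpow_neg ht.le]
    congr 1; ring
  rw [e, Real.rpow_neg_one, e2 _ (by positivity), e2 _ (by positivity)]
  field_simp

lemma sR_h4 {p : ℝ} (hp : 1 < p) (hγ : γ = 1 / (p - 1)) (k : ℕ) :
    sR n γ J K k ^ (1 - p) * ((k:ℝ) + 1) ≤ ((2:ℝ)^J) ^ (p - 1) * ((2:ℝ)^(n*k)) ^ (p - 1) := by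
  rw [← mid_rpow hp hγ k]
  gcongr ?_ * _
  apply Real.rpow_le_rpow_of_nonpos (by positivity) _ (by linarith)
  exact le_trans (le_max_left _ _) (le_max_right _ _)

lemma sR_h6 (hn : 1 ≤ n) {p : ℝ} (hp : 1 < p) (hγ : γ = 1 / (p - 1)) {k : ℕ} (hJk : J ≤ k)
    (hkK : k + J ≤ K) :
    ((2:ℝ)^J) ^ (p - 1) * ((2:ℝ)^(n*k)) ^ (p - 1) = sR n γ J K k ^ (1 - p) * ((k:ℝ) + 1) := by
  rw [← mid_rpow hp hγ k]
  congr 2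
  have hγ0 : 0 ≤ γ := by rw [hγ]; have : 0 < p - 1 := by linarith
                         positivity
  have h1 : (1:ℝ) ≤ ((k:ℝ) + 1) ^ γ :=
    Real.one_le_rpow (by linarith [Nat.cast_nonneg (α := ℝ) k]) hγ0
  have h2 : ((2:ℝ)^(n*K))⁻¹ ≤ ((2:ℝ)^J)⁻¹ * ((2:ℝ)^(n*k))⁻¹ := by
    rw [← mul_inv, ← pow_add]
    apply inv_anti₀ (by positivity)
    apply pow_le_pow_right₀ (by norm_num)
    nlinarith
  have h3 : ((2:ℝ)^k)⁻¹ ≤ ((2:ℝ)^J)⁻¹ :=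
    inv_anti₀ (by positivity) (pow_le_pow_right₀ (by norm_num) hJk)
  have h4 : ((2:ℝ)^J)⁻¹ * ((2:ℝ)^(n*k))⁻¹ ≤
      ((2:ℝ)^J)⁻¹ * ((2:ℝ)^(n*k))⁻¹ * ((k:ℝ) + 1) ^ γ :=
    le_mul_of_one_le_right (by positivity) h1
  unfold sR
  rw [max_eq_left (h2.trans h4), max_eq_right]
  refine le_trans ?_ h4
  rw [mul_comm]
  gcongr

lemma sR_h5 {p : ℝ} (hp : 1 < p) (hγ : γ = 1 / (p - 1)) (hJK : ((K:ℝ) + 1) ^ (γ + 1) ≤ 2^J) :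
    (K:ℝ) + 1 ≤ ((2:ℝ)^J) ^ (p - 1) := by
  have hp1 : 0 < p - 1 := by linarith
  have hK : (1:ℝ) ≤ (K:ℝ) + 1 := by linarith [Nat.cast_nonneg (α := ℝ) K]
  calc (K:ℝ) + 1 = (((K:ℝ) + 1) ^ γ) ^ (p - 1) := by
        rw [← Real.rpow_mul (by positivity), hγ, one_div, inv_mul_cancel₀ hp1.ne', Real.rpow_one]
    _ ≤ _ := by
        apply Real.rpow_le_rpow (by positivity) _ hp1.le
        exact le_trans (Real.rpow_le_rpow_of_exponent_le hK (by linarith)) hJK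

lemma harmonic_lower (J N : ℕ) (hJN : J ≤ N) :
    Real.log ((N:ℝ) + 1) - Real.log ((J:ℝ) + 1) ≤ ∑ k ∈ Finset.Ico J N, ((k:ℝ) + 1)⁻¹ := by
  induction N, hJN using Nat.le_induction with
  | base => simp
  | succ N hJN ih =>
    rw [Finset.sum_Ico_succ_top hJN]
    have h1 : Real.log (((N + 1 : ℕ) : ℝ) + 1) - Real.log ((N:ℝ) + 1) ≤ ((N:ℝ) + 1)⁻¹ := by
      rw [← Real.log_div (by positivity) (by positivity)]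
      refine (Real.log_le_sub_one_of_pos (by positivity)).trans (le_of_eq ?_)
      push_cast
      field_simp
      ring
    linarith

/-- Choice of the parameters. -/
lemma exists_params (hγ : 0 ≤ γ) (B : ℝ) :
    ∃ J N : ℕ, 1 ≤ J ∧ (((N + J : ℕ) : ℝ) + 1) ^ (γ + 1) ≤ 2^J ∧
      B ≤ ∑ k ∈ Finset.Ico J N, ((k:ℝ) + 1)⁻¹ := by
  obtain ⟨C, hC1, hC⟩ := exists_poly_le_exp (γ := γ + 2) (by linarith)
  obtain ⟨L, hL⟩ := exists_nat_ge (Real.exp B)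
  have hL0 : (0:ℝ) < L := (Real.exp_pos B).trans_le hL
  have hL1 : 1 ≤ L := by exact_mod_cast hL0
  obtain ⟨J, hJ⟩ := exists_nat_ge (((L:ℝ) + 1) ^ (γ + 1) * C)
  have hJ0 : (0:ℝ) < J := lt_of_lt_of_le (by positivity) hJ
  have hJ1 : 1 ≤ J := by exact_mod_cast hJ0
  refine ⟨J, L * (J + 1), hJ1, ?_, ?_⟩
  · have e : (((L * (J + 1) + J : ℕ) : ℝ) + 1) = ((L:ℝ) + 1) * ((J:ℝ) + 1) := by push_cast; ring
    rw [e, Real.mul_rpow (by positivity) (by positivity)]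
    have h1 := hC J
    have e2 : γ + 2 = (γ + 1) + 1 := by ring
    rw [e2, Real.rpow_add_one (by positivity)] at h1
    have h2 : ((L:ℝ) + 1) ^ (γ + 1) * C ≤ (J:ℝ) + 1 := by linarith
    have h3 : (((L:ℝ) + 1) ^ (γ + 1) * ((J:ℝ) + 1) ^ (γ + 1)) * C ≤ 2^J * C := by
      calc (((L:ℝ) + 1) ^ (γ + 1) * ((J:ℝ) + 1) ^ (γ + 1)) * C
          = ((J:ℝ) + 1) ^ (γ + 1) * (((L:ℝ) + 1) ^ (γ + 1) * C) := by ring
        _ ≤ ((J:ℝ) + 1) ^ (γ + 1) * ((J:ℝ) + 1) := by gcongr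
        _ ≤ _ := by linarith
    exact le_of_mul_le_mul_right h3 (by linarith)
  · refine le_trans ?_ (harmonic_lower J (L * (J + 1)) (by nlinarith))
    have h1 : B ≤ Real.log L := by
      rw [Real.le_log_iff_exp_le hL0]; exact hL
    have h2 : Real.log L + Real.log ((J:ℝ) + 1) ≤ Real.log (((L * (J + 1) : ℕ) : ℝ) + 1) := by
      rw [← Real.log_mul hL0.ne' (by positivity)]
      apply Real.log_le_log (by positivity)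
      push_cast
      linarith
    linarith

end Pool.Agent.P.MP_2c43e6_an
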