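import Pool.Agent.P.MP_2c43e6_an.Geom

namespace Pool.Agent.P.MP_2c43e6_an

open MeasureTheory Set
open scoped ENNReal

variable {n : ℕ}

lemma avg_le_of_forall_le {f : (Fin n → ℝ) → ℝ≥0∞} {Q : Set (Fin n → ℝ)} (hQ : IsCube Q)
    {c : ℝ≥0∞} (h : ∀ y ∈ Q, f y ≤ c) : avg f Q ≤ c := by
  unfold avg
  apply ENNReal.div_le_of_le_mul
  calc ∫⁻ x in Q, f x ≤ ∫⁻ _ in Q, c := setLIntegral_mono' hQ.measurableSet h
    _ = c * volume Q := by rw [setLIntegral_const]

lemma avg_mono {f g : (Fin n → ℝ) → ℝ≥0∞} (Q : Set (Fin n → ℝ)) (h : ∀ y, f y ≤ g y) :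
    avg f Q ≤ avg g Q := by
  unfold avg
  gcongr with y
  exact h y

lemma T_ne_zero (m : ℕ) : (2:ℝ≥0∞)^m ≠ 0 := pow_ne_zero _ (by norm_num)
lemma T_ne_top (m : ℕ) : (2:ℝ≥0∞)^m ≠ ⊤ := ENNReal.pow_ne_top (by simp)

/-- Hypotheses on the level sequences. -/
structure Good (n : ℕ) (p : ℝ) (s u : ℕ → ℝ≥0∞) (D S W : ℝ≥0∞) (K : ℕ) : Prop where
  hsu : ∀ k, s k ^ (p - 1) * u k = 1
  h1 : ∀ j k, k ≤ j + 1 → s j ≤ D * s k
  h2 : ∑ k ∈ Finset.range (K + 1), s k * 2^(n*k) ≤ S
  h3 : ∀ k, 1 ≤ s k * 2^(n*K)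
  h4 : ∀ k, u k * ((k:ℝ≥0∞) + 1) ≤ W * ((2:ℝ≥0∞)^(n*k)) ^ (p - 1)
  h5 : (K:ℝ≥0∞) + 1 ≤ W

section
variable {p : ℝ} {s u : ℕ → ℝ≥0∞} {D S W : ℝ≥0∞} {K : ℕ}

lemma Good.u_le (h : Good n p s u D S W K) (hp : 1 < p) {j k : ℕ} (hjk : j ≤ k) :
    u j ≤ D ^ (p - 1) * u k := by
  have hp' : 0 ≤ p - 1 := by linarith
  calc u j = (s k ^ (p-1) * u k) * u j := by rw [h.hsu, one_mul]
    _ ≤ ((D * s j) ^ (p-1) * u k) * u j := by
        gcongr
        exact h.h1 k j (by omega)
    _ = D ^ (p-1) * u k * (s j ^ (p-1) * u j) := by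
        rw [ENNReal.mul_rpow_of_nonneg _ _ hp']; ring
    _ = D ^ (p-1) * u k := by rw [h.hsu, mul_one]

lemma Good.u_le_top (h : Good n p s u D S W K) (hp : 1 < p) (k : ℕ) :
    u k ≤ ((2:ℝ≥0∞)^(n*K)) ^ (p - 1) := by
  have hp' : 0 ≤ p - 1 := by linarith
  calc u k = (1:ℝ≥0∞) ^ (p-1) * u k := by simp
    _ ≤ (s k * 2^(n*K)) ^ (p-1) * u k := by
        gcongr
        exact h.h3 k
    _ = ((2:ℝ≥0∞)^(n*K)) ^ (p - 1) * (s k ^ (p-1) * u k) := by
        rw [ENNReal.mul_rpow_of_nonneg _ _ hp']; ring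
    _ = _ := by rw [h.hsu, mul_one]

lemma Good.sigma_box (h : Good n p s u D S W K) {j : ℕ} (hj : j ≤ K) :
    ∫⁻ x in box n j, s (lev x) ≤ 2^n * S := by
  refine (lintegral_box_le s j).trans ?_
  calc ∑ k ∈ Finset.range (j+1), s k * (2^n * 2^(n*k))
      ≤ ∑ k ∈ Finset.range (K+1), s k * (2^n * 2^(n*k)) :=
        Finset.sum_le_sum_of_subset (Finset.range_mono (by omega))
    _ = 2^n * ∑ k ∈ Finset.range (K+1), s k * 2^(n*k) := by
        rw [Finset.mul_sum]; apply Finset.sum_congr rfl; intro k _; ring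
    _ ≤ 2^n * S := by gcongr; exact h.h2

lemma Good.sK_le (h : Good n p s u D S W K) : s K * 2^(n*K) ≤ S := by
  refine le_trans ?_ h.h2
  exact Finset.single_le_sum (f := fun k => s k * 2^(n*k)) (fun _ _ => bot_le)
    (Finset.self_mem_range_succ K)

/-- Averages of `σ` over big far cubes. -/
lemma Good.avg_far (h : Good n p s u D S W K) {a : Fin n → ℝ} {l : ℝ} (hl : 0 < l) {k : ℕ}
    (hk : K ≤ k) (hbig : (2:ℝ)^k / 4 < l) :
    avg (fun x => s (lev x)) (Set.Icc a (fun i => a i + l)) * 2^(n*K) ≤ 8^n * S + D * S := by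
  set P := Set.Icc a (fun i => a i + l) with hP
  have hPc : IsCube P := ⟨a, l, hl, rfl⟩
  have hvol : (2:ℝ≥0∞)^(n*K) ≤ 4^n * volume P := by
    refine le_trans ?_ (volume_big (a := a) hbig)
    exact pow_le_pow_right₀ (by norm_num) (Nat.mul_le_mul_left _ hk)
  have hpt : ∀ y : Fin n → ℝ, s (lev y) ≤ (box n K).indicator (fun y => s (lev y)) y + D * s K := by
    intro y
    by_cases hy : y ∈ box n K
    · rw [indicator_of_mem hy]; exact le_self_add
    · rw [indicator_of_notMem hy, zero_add]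
      rw [← lev_le_iff_mem] at hy
      exact h.h1 _ _ (by omega)
  have hint : ∫⁻ y in P, s (lev y) ≤ 2^n * S + D * s K * volume P := by
    calc ∫⁻ y in P, s (lev y)
        ≤ ∫⁻ y in P, ((box n K).indicator (fun y => s (lev y)) y + D * s K) :=
          lintegral_mono hpt
      _ = (∫⁻ y in P, (box n K).indicator (fun y => s (lev y)) y) + D * s K * volume P := by
          rw [lintegral_add_right _ measurable_const, setLIntegral_const]
      _ ≤ (∫⁻ y, (box n K).indicator (fun y => s (lev y)) y) + D * s K * volume P := by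
          gcongr
          exact Measure.restrict_le_self
      _ ≤ 2^n * S + D * s K * volume P := by
          rw [lintegral_indicator (measurableSet_box K)]
          gcongr
          exact h.sigma_box le_rfl
  unfold avg
  rw [← ENNReal.mul_div_right_comm]
  apply ENNReal.div_le_of_le_mul
  calc (∫⁻ y in P, s (lev y)) * 2^(n*K) ≤ (2^n * S + D * s K * volume P) * 2^(n*K) := by gcongr
    _ = 2^n * S * 2^(n*K) + D * (s K * 2^(n*K)) * volume P := by ring
    _ ≤ 2^n * S * (4^n * volume P) + D * S * volume P := by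
        gcongr
        exact h.sK_le
    _ = (8^n * S + D * S) * volume P := by
        have : (8:ℝ≥0∞)^n = 2^n * 4^n := by rw [← mul_pow]; norm_num
        rw [this]; ring

/-- Pointwise bound for the local maximal function. -/
lemma Good.maxFun_le (h : Good n p s u D S W K) {Q : Set (Fin n → ℝ)} (hQ : MeasurableSet Q)
    (x : Fin n → ℝ) :
    maxFun (Q.indicator (fun y => s (lev y))) x ≤ (D + (8^n * S + D * S)) * s (lev x) +
      (box n K).indicator
        (fun x => (∫⁻ y in Q, s (lev y)) * 4^n * ((2:ℝ≥0∞)^(n * lev x))⁻¹) x := by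
  unfold maxFun
  refine iSup_le fun P => iSup_le fun hP => iSup_le fun hx => ?_
  have hPc := hP
  obtain ⟨a, l, hl, rfl⟩ := hP
  have hind : ∀ y, Q.indicator (fun y => s (lev y)) y ≤ s (lev y) := fun y =>
    indicator_le_self' (fun _ _ => bot_le) y
  by_cases hsmall : l ≤ (2:ℝ)^(lev x) / 4
  · refine le_trans ?_ le_self_add
    refine le_trans (avg_le_of_forall_le hPc (c := D * s (lev x)) ?_) ?_
    · intro y hy
      exact (hind y).trans (h.h1 _ _ (lev_le_succ_of_small hl hx hy hsmall))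
    · gcongr
      exact le_self_add
  · push Not at hsmall
    by_cases hK : lev x ≤ K
    · refine le_trans ?_ le_add_self
      rw [indicator_of_mem (lev_le_iff_mem.1 hK)]
      unfold avg
      apply ENNReal.div_le_of_le_mul
      have hvol := volume_big (a := a) hsmall
      calc ∫⁻ y in Set.Icc a (fun i => a i + l), Q.indicator (fun y => s (lev y)) y
          ≤ ∫⁻ y, Q.indicator (fun y => s (lev y)) y :=
            lintegral_mono' Measure.restrict_le_self le_rfl
        _ = ∫⁻ y in Q, s (lev y) := lintegral_indicator hQ _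
        _ = (∫⁻ y in Q, s (lev y)) * (((2:ℝ≥0∞)^(n * lev x))⁻¹ * 2^(n * lev x)) := by
            rw [ENNReal.inv_mul_cancel (T_ne_zero _) (T_ne_top _), mul_one]
        _ ≤ (∫⁻ y in Q, s (lev y)) * (((2:ℝ≥0∞)^(n * lev x))⁻¹ *
              (4^n * volume (Set.Icc a (fun i => a i + l)))) := by gcongr
        _ = _ := by ring
    · push Not at hK
      refine le_trans ?_ le_self_add
      have h1 := h.avg_far (a := a) hl hK.le hsmall
      calc avg (Q.indicator (fun y => s (lev y))) (Set.Icc a (fun i => a i + l))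
          ≤ avg (fun y => s (lev y)) (Set.Icc a (fun i => a i + l)) := avg_mono _ hind
        _ = avg (fun y => s (lev y)) (Set.Icc a (fun i => a i + l)) * 1 := (mul_one _).symm
        _ ≤ avg (fun y => s (lev y)) (Set.Icc a (fun i => a i + l)) * (s (lev x) * 2^(n*K)) := by
            gcongr
            exact h.h3 _
        _ = (avg (fun y => s (lev y)) (Set.Icc a (fun i => a i + l)) * 2^(n*K)) * s (lev x) := by
            ring
        _ ≤ (8^n * S + D * S) * s (lev x) := by gcongr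
        _ ≤ (D + (8^n * S + D * S)) * s (lev x) :=
            mul_le_mul_left (le_add_self (a := 8^n * S + D * S) (b := D)) _

lemma Good.Ainf_le (h : Good n p s u D S W K) {Q : Set (Fin n → ℝ)} (hQ : MeasurableSet Q)
    {j : ℕ} (hj : ∀ y ∈ Q, lev y ≤ j) :
    Ainf (fun y => s (lev y)) Q ≤
      (D + (8^n * S + D * S) + 8^n) * (((min j K : ℕ) : ℝ≥0∞) + 1) := by
  unfold Ainf
  apply ENNReal.div_le_of_le_mul
  set σQ := ∫⁻ y in Q, s (lev y) with hσQ
  set D1 := D + (8^n * S + D * S) with hD1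
  set g : ℕ → ℝ≥0∞ := fun k => σQ * 4^n * ((2:ℝ≥0∞)^(n * k))⁻¹ with hg
  have hsum : ∫⁻ x in Q, (box n K).indicator (fun x => g (lev x)) x ≤
      σQ * 8^n * (((min j K : ℕ) : ℝ≥0∞) + 1) := by
    calc ∫⁻ x in Q, (box n K).indicator (fun x => g (lev x)) x
        = ∫⁻ x in box n K ∩ Q, g (lev x) := by
          rw [lintegral_indicator (measurableSet_box K),
            Measure.restrict_restrict (measurableSet_box K)]
      _ ≤ ∫⁻ x in box n (min j K), g (lev x) := by
          apply lintegral_mono_set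
          rintro y ⟨hy1, hy2⟩
          rw [← lev_le_iff_mem] at hy1 ⊢
          exact le_min (hj y hy2) hy1
      _ ≤ ∑ k ∈ Finset.range (min j K + 1), g k * (2^n * 2^(n*k)) := lintegral_box_le g _
      _ = ∑ k ∈ Finset.range (min j K + 1), σQ * 8^n := by
          apply Finset.sum_congr rfl
          intro k _
          have : (8:ℝ≥0∞)^n = 2^n * 4^n := by rw [← mul_pow]; norm_num
          calc g k * (2^n * 2^(n*k))
              = σQ * (2^n * 4^n) * (((2:ℝ≥0∞)^(n * k))⁻¹ * 2^(n*k)) := by simp only [hg]; ring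
            _ = σQ * 8^n := by
              rw [ENNReal.inv_mul_cancel (T_ne_zero _) (T_ne_top _), mul_one, this]
      _ = σQ * 8^n * (((min j K : ℕ) : ℝ≥0∞) + 1) := by
          rw [Finset.sum_const, Finset.card_range, nsmul_eq_mul]
          push_cast
          ring
  calc ∫⁻ x in Q, maxFun (Q.indicator (fun y => s (lev y))) x
      ≤ ∫⁻ x in Q, (D1 * s (lev x) + (box n K).indicator (fun x => g (lev x)) x) :=
        lintegral_mono (fun x => h.maxFun_le hQ x)
    _ = D1 * σQ + ∫⁻ x in Q, (box n K).indicator (fun x => g (lev x)) x := by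
        rw [lintegral_add_left ((measurable_comp_lev s).const_mul D1),
          lintegral_const_mul _ (measurable_comp_lev s)]
    _ ≤ D1 * σQ * (((min j K : ℕ) : ℝ≥0∞) + 1) +
          σQ * 8^n * (((min j K : ℕ) : ℝ≥0∞) + 1) := by
        exact add_le_add (le_mul_of_one_le_right bot_le le_add_self) hsum
    _ = _ := by ring

/-- The key estimate. -/
lemma Good.key (h : Good n p s u D S W K) (hp : 1 < p) {Q : Set (Fin n → ℝ)} (hQ : IsCube Q) :
    ∃ j : ℕ, (∀ y ∈ Q, lev y ≤ j) ∧
      avg (fun y => s (lev y)) Q ^ (p - 1) * avg (fun y => u (lev y)) Q *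
        (((min j K : ℕ) : ℝ≥0∞) + 1) ≤
      (D ^ (p-1) * D ^ (p-1) + (8^n * S) ^ (p-1) * D ^ (p-1) + (8^n * S + D * S) ^ (p-1)) * W := by
  have hp' : 0 ≤ p - 1 := by linarith
  obtain ⟨x₀, hx₀, hmax⟩ := exists_max_lev hQ
  refine ⟨lev x₀, hmax, ?_⟩
  have hQc := hQ
  obtain ⟨a, l, hl, rfl⟩ := hQ
  set j := lev x₀ with hj
  have hminK : (((min j K : ℕ) : ℝ≥0∞) + 1) ≤ W := by
    refine le_trans ?_ h.h5
    gcongr
    exact min_le_right _ _
  have hw : avg (fun y => u (lev y)) (Set.Icc a (fun i => a i + l)) ≤ D ^ (p-1) * u j :=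
    avg_le_of_forall_le hQc (fun y hy => h.u_le hp (hmax y hy))
  by_cases hsmall : l ≤ (2:ℝ)^j / 4
  · have hs : avg (fun y => s (lev y)) (Set.Icc a (fun i => a i + l)) ≤ D * s j :=
      avg_le_of_forall_le hQc (fun y hy => h.h1 _ _ (lev_le_succ_of_small hl hx₀ hy hsmall))
    calc _ ≤ (D * s j) ^ (p-1) * (D ^ (p-1) * u j) * W := by gcongr
      _ = D ^ (p-1) * D ^ (p-1) * W * (s j ^ (p-1) * u j) := by
          rw [ENNReal.mul_rpow_of_nonneg _ _ hp']; ring
      _ = D ^ (p-1) * D ^ (p-1) * W := by rw [h.hsu, mul_one]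
      _ ≤ _ := by
          gcongr
          rw [add_assoc]
          exact le_self_add
  · push Not at hsmall
    by_cases hK : j ≤ K
    · have hs : avg (fun y => s (lev y)) (Set.Icc a (fun i => a i + l)) * 2^(n*j) ≤ 8^n * S := by
        unfold avg
        rw [← ENNReal.mul_div_right_comm]
        apply ENNReal.div_le_of_le_mul
        have hvol := volume_big (a := a) hsmall
        have h1 : ∫⁻ y in Set.Icc a (fun i => a i + l), s (lev y) ≤ 2^n * S := by
          refine le_trans (lintegral_mono_set ?_) (h.sigma_box hK)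
          intro y hy
          exact lev_le_iff_mem.1 (hmax y hy)
        calc _ ≤ (2^n * S) * (4^n * volume (Set.Icc a (fun i => a i + l))) := by gcongr
          _ = _ := by
            have : (8:ℝ≥0∞)^n = 2^n * 4^n := by rw [← mul_pow]; norm_num
            rw [this]; ring
      rw [min_eq_left hK]
      calc _ ≤ avg (fun y => s (lev y)) (Set.Icc a (fun i => a i + l)) ^ (p-1) *
            (D ^ (p-1) * u j) * ((j:ℝ≥0∞) + 1) := by gcongr
        _ = avg (fun y => s (lev y)) (Set.Icc a (fun i => a i + l)) ^ (p-1) *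
            D ^ (p-1) * (u j * ((j:ℝ≥0∞) + 1)) := by ring
        _ ≤ avg (fun y => s (lev y)) (Set.Icc a (fun i => a i + l)) ^ (p-1) *
            D ^ (p-1) * (W * ((2:ℝ≥0∞)^(n*j)) ^ (p - 1)) :=
            mul_le_mul_right (h.h4 j) _
        _ = (avg (fun y => s (lev y)) (Set.Icc a (fun i => a i + l)) * 2^(n*j)) ^ (p-1) *
            D ^ (p-1) * W := by
            rw [ENNReal.mul_rpow_of_nonneg _ _ hp']; ring
        _ ≤ (8^n * S) ^ (p-1) * D ^ (p-1) * W := by gcongr
        _ ≤ _ := by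
            gcongr
            exact le_trans le_add_self le_self_add
    · push Not at hK
      have hs := h.avg_far (a := a) hl hK.le hsmall
      have hw' : avg (fun y => u (lev y)) (Set.Icc a (fun i => a i + l)) ≤
          ((2:ℝ≥0∞)^(n*K)) ^ (p - 1) :=
        avg_le_of_forall_le hQc (fun y _ => h.u_le_top hp _)
      calc _ ≤ avg (fun y => s (lev y)) (Set.Icc a (fun i => a i + l)) ^ (p-1) *
            ((2:ℝ≥0∞)^(n*K)) ^ (p - 1) * W := by gcongr
        _ = (avg (fun y => s (lev y)) (Set.Icc a (fun i => a i + l)) * 2^(n*K)) ^ (p-1) * W := by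
            rw [ENNReal.mul_rpow_of_nonneg _ _ hp']
        _ ≤ (8^n * S + D * S) ^ (p-1) * W := by gcongr
        _ ≤ _ := by
            gcongr
            exact le_add_self

end

end Pool.Agent.P.MP_2c43e6_an
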