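import Pool.Agent.K.MP_2c43e6_an.C0

open MeasureTheory Filter Pool.Agent.P.MP_2c43e6_an
open scoped ENNReal Topology

theorem Pool.Agent.P.MP_2c43e6_an.VariantDisproof.stmt
    (n : ℕ) (hn : 1 ≤ n) (p p' : ℝ) (hp : 1 < p) (hp' : p' = p / (p - 1)) :
    ∃ w : ℕ → (Fin n → ℝ) → ℝ,
      (∀ k, (∀ x, 0 < w k x) ∧ Measurable (w k) ∧ LocallyIntegrable (w k) volume ∧
        AqConst p (fun x => ENNReal.ofReal (w k x)) < ⊤ ∧
        0 < mixedConst p' (1 / p') (1 / p) (fun x => ENNReal.ofReal (w k x) ^ (1 - p')) ∧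
        mixedConst p' (1 / p') (1 / p) (fun x => ENNReal.ofReal (w k x) ^ (1 - p')) < ⊤) ∧
      Tendsto (fun k => maxNorm p (fun x => ENNReal.ofReal (w k x)) /
        mixedConst p' (1 / p') (1 / p) (fun x => ENNReal.ofReal (w k x) ^ (1 - p')))
        atTop (𝓝 ⊤) :=
  Pool.Agent.P.MP_2c43e6_an.main n hn p p' hp hp'
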