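import Pool.Agent.P.MP_2c43e6_an.EntC

set_option autoImplicit false

open MeasureTheory Pool.Agent.P.MP_2c43e6_an
open scoped ENNReal

namespace Pool.Agent.P.MP_2c43e6_an.VariantLogRatio

/-- If the two-suprema constant is at most `T` times the one-supremum constant, then the norm of
the maximal operator is at most `C (1 + log T)^(1/p)` times the one-supremum constant. -/
theorem stmt (n : ℕ) (p p' : ℝ) (hp : 1 < p) (hp' : p' = p / (p - 1)) :
    ∃ C : NNReal, ∀ w : (Fin n → ℝ) → ℝ, Measurable w → (∀ᵐ x, 0 < w x) →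
      AqConst p (fun x => ENNReal.ofReal (w x)) < ⊤ → ∀ T : ℝ, 1 ≤ T →
      AqConst p' (fun x => ENNReal.ofReal (w x) ^ (1 - p')) ^ (1 / p') *
        (⨆ (Q : Set (Fin n → ℝ)) (_ : IsCube Q),
          Ainf (fun x => ENNReal.ofReal (w x) ^ (1 - p')) Q) ^ (1 / p) ≤
        ENNReal.ofReal T *
          mixedConst p' (1 / p') (1 / p) (fun x => ENNReal.ofReal (w x) ^ (1 - p')) →
      maxNorm p (fun x => ENNReal.ofReal (w x)) ≤
        C * ENNReal.ofReal ((1 + Real.log T) ^ (1 / p)) *
          mixedConst p' (1 / p') (1 / p) (fun x => ENNReal.ofReal (w x) ^ (1 - p')) :=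
  Pool.Agent.Ent.main n p p' hp hp'

end Pool.Agent.P.MP_2c43e6_an.VariantLogRatio
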